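import Pool.Agent.H47C.Stm

/-!
# Project CUB (helper47), piece ARI (helper53): elementary congruences modulo `p ^ 2`
-/

set_option autoImplicit false
set_option linter.all false

namespace Pool.Agent.H47C

theorem ari_fer (p : ℕ) [Fact p.Prime] (x : ℤ) : (p : ℤ) ∣ x ^ p - x := by
  rw [← ZMod.intCast_eq_intCast_iff_dvd_sub]
  push_cast
  rw [ZMod.pow_card]

theorem ari_pow (p : ℕ) {x y : ℤ} (h : (p : ℤ) ∣ x - y) :
    (x : ZMod (p ^ 2)) ^ p = (y : ZMod (p ^ 2)) ^ p := by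
  have h1 := dvd_sub_pow_of_dvd_sub h 1
  rw [pow_one, show (1 : ℕ) + 1 = 2 from rfl] at h1
  have h2 : ((y ^ p : ℤ) : ZMod (p ^ 2)) = ((x ^ p : ℤ) : ZMod (p ^ 2)) := by
    rw [ZMod.intCast_eq_intCast_iff_dvd_sub]
    push_cast
    exact h1
  push_cast at h2
  exact h2.symm

theorem ari_unit {p : ℕ} (hp : p.Prime) {d : ℤ} (hd : ¬ (p : ℤ) ∣ d) :
    IsUnit (d : ZMod (p ^ 2)) := by
  rw [ZMod.coe_int_isUnit_iff_isCoprime]
  push_cast
  refine IsCoprime.pow_left ?_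
  exact (Prime.coprime_iff_not_dvd (Nat.prime_iff_prime_int.1 hp)).2 hd

theorem ari_three {p : ℕ} (hp : p.Prime) (h5 : 5 ≤ p) : IsUnit (3 : ZMod (p ^ 2)) := by
  have h : ¬ (p : ℤ) ∣ 3 := by
    intro h
    have h1 : p ∣ 3 := by exact_mod_cast h
    have := Nat.le_of_dvd (by norm_num) h1
    omega
  have := ari_unit hp h
  exact_mod_cast this

/-- `f = 3 ^ (p - 1)` satisfies `f ^ p = 1` -/
theorem ari_f {p : ℕ} (hp : p.Prime) (h5 : 5 ≤ p) :
    ((3 : ZMod (p ^ 2)) ^ (p - 1)) ^ p = 1 := by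
  haveI : Fact p.Prime := ⟨hp⟩
  have h1 : (p : ℤ) ∣ 3 ^ (p - 1) - 1 := by
    have h2 := ari_fer p 3
    have h3 : (3 : ℤ) ^ p - 3 = 3 * (3 ^ (p - 1) - 1) := by
      have : (3 : ℤ) ^ p = 3 * 3 ^ (p - 1) := by
        conv_lhs => rw [show p = (p - 1) + 1 by omega]
        rw [pow_succ]
        ring
      rw [this]
      ring
    rw [h3] at h2
    rcases (Nat.prime_iff_prime_int.1 hp).dvd_or_dvd h2 with h | h
    · have h4 : p ∣ 3 := by exact_mod_cast h
      have := Nat.le_of_dvd (by norm_num) h4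
      omega
    · exact h
  have h2 := ari_pow p h1
  push_cast at h2
  rw [h2, one_pow]

/-- the basic relation -/
theorem ari_rel {p : ℕ} (hp : p.Prime) (h5 : 5 ≤ p) {b d : ℤ} {e : ℕ} {k : ℤ}
    (h : (k : ZMod (p ^ 2)) * (b : ZMod (p ^ 2)) ^ p = 3 ^ e * (d : ZMod (p ^ 2)) ^ p)
    (hd : ¬ (p : ℤ) ∣ d) : ((3 : ZMod (p ^ 2)) ^ e) ^ (p - 1) = (k : ZMod (p ^ 2)) ^ (p - 1) := by
  haveI : Fact p.Prime := ⟨hp⟩
  -- modulo p
  have h1 : (p : ℤ) ∣ k * b - 3 ^ e * d := by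
    have h2 : ((k * b ^ p : ℤ) : ZMod (p ^ 2)) = ((3 ^ e * d ^ p : ℤ) : ZMod (p ^ 2)) := by
      push_cast
      exact h
    rw [ZMod.intCast_eq_intCast_iff_dvd_sub] at h2
    have h3 : (p : ℤ) ∣ 3 ^ e * d ^ p - k * b ^ p := by
      refine dvd_trans ?_ h2
      push_cast
      exact dvd_pow_self _ two_ne_zero
    have h4 : (p : ℤ) ∣ k * (b ^ p - b) := (ari_fer p b).mul_left _
    have h6 : (p : ℤ) ∣ 3 ^ e * (d ^ p - d) := (ari_fer p d).mul_left _
    have h7 : k * b - 3 ^ e * d = -(3 ^ e * d ^ p - k * b ^ p) - k * (b ^ p - b) +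
      3 ^ e * (d ^ p - d) := by ring
    rw [h7]
    exact dvd_add (dvd_sub ((dvd_neg).2 h3) h4) h6
  have h2 := ari_pow p h1
  push_cast at h2
  have hk : (k : ZMod (p ^ 2)) ^ p = (k : ZMod (p ^ 2)) ^ (p - 1) * k := by
    rw [← pow_succ, Nat.sub_add_cancel (by omega)]
  have hc : ((3 : ZMod (p ^ 2)) ^ e) ^ p = ((3 : ZMod (p ^ 2)) ^ e) ^ (p - 1) * 3 ^ e := by
    rw [← pow_succ, Nat.sub_add_cancel (by omega)]
  rw [mul_pow, mul_pow, hk, hc, mul_assoc, h, mul_assoc] at h2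
  have hu : IsUnit (3 ^ e * (d : ZMod (p ^ 2)) ^ p) :=
    ((ari_three hp h5).pow e).mul ((ari_unit hp hd).pow p)
  exact (hu.mul_right_cancel h2).symm

theorem ari_fin {p : ℕ} (hp : p.Prime) (h5 : 5 ≤ p) {m : ℕ} (hm : 0 < m)
    (h : (m : ZMod (p ^ 2)) ^ (p - 1) = 1) : p ^ 2 ∣ m ^ (p - 1) - 1 := by
  have h1 : 1 ≤ m ^ (p - 1) := Nat.one_le_pow _ _ hm
  have h2 : ((m ^ (p - 1) - 1 : ℕ) : ZMod (p ^ 2)) = 0 := by
    rw [Nat.cast_sub h1]
    push_cast
    rw [h, sub_self]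
  exact (ZMod.natCast_eq_zero_iff _ _).1 h2

theorem mainARI : S_ARI := by
  intro p hp h5 a b d e he hab heq hd hcase
  haveI : Fact p.Prime := ⟨hp⟩
  have hR : (a : ZMod (p ^ 2)) ^ p + (b : ZMod (p ^ 2)) ^ p = 3 ^ e * (d : ZMod (p ^ 2)) ^ p := by
    have := congrArg (fun z : ℤ => (z : ZMod (p ^ 2))) heq
    push_cast at this
    exact this
  have hf := ari_f hp h5
  have hfp : ((3 : ZMod (p ^ 2)) ^ (p - 1)) ^ (p - 1) * 3 ^ (p - 1) = 1 := by
    rw [← pow_succ, Nat.sub_add_cancel (by omega)]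
    exact hf
  -- the first two cases
  have key : ∀ x : ℤ, (x : ZMod (p ^ 2)) ^ p = 3 ^ e * (d : ZMod (p ^ 2)) ^ p →
      p ^ 2 ∣ 3 ^ (p - 1) - 1 := by
    intro x hx
    have h1 := ari_rel hp h5 (k := 1) (b := x) (e := e) (d := d) (by
      push_cast
      rw [one_mul, hx]) hd
    push_cast at h1
    rw [one_pow] at h1
    have h2 : ((3 : ZMod (p ^ 2)) ^ (p - 1)) ^ (p - 1) = 1 := by
      rcases he with rfl | he
      · exact h1
      · have e1 : ((3 : ZMod (p ^ 2)) ^ (p - 1)) ^ (p - 1) =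
            (((3 : ZMod (p ^ 2)) ^ e) ^ (p - 1)) ^ 2 := by
          rw [← pow_mul, ← pow_mul, ← pow_mul]
          congr 1
          conv_lhs => rw [← he]
          rw [← he]
          ring
        rw [e1, h1, one_pow]
    rw [h2, one_mul] at hfp
    exact ari_fin hp h5 (by norm_num) (by exact_mod_cast hfp)
  rcases hcase with h | h | h
  · left
    refine key b ?_
    have h1 : (a : ZMod (p ^ 2)) ^ p = 0 := by
      have := ari_pow p (x := a) (y := 0) (by rwa [sub_zero])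
      rw [this]
      push_cast
      exact zero_pow hp.ne_zero
    rw [h1, zero_add] at hR
    exact hR
  · left
    refine key a ?_
    have h1 : (b : ZMod (p ^ 2)) ^ p = 0 := by
      have := ari_pow p (x := b) (y := 0) (by rwa [sub_zero])
      rw [this]
      push_cast
      exact zero_pow hp.ne_zero
    rw [h1, add_zero] at hR
    exact hR
  · right
    have h1 := ari_pow p h
    rw [h1] at hR
    have h2 := ari_rel hp h5 (k := 2) (b := b) (e := e) (d := d) (by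
      push_cast
      rw [two_mul, hR]) hd
    push_cast at h2
    rcases he with rfl | he
    · left
      refine ari_fin hp h5 (m := 6) (by norm_num) ?_
      rw [h2] at hfp
      have : ((6 : ℕ) : ZMod (p ^ 2)) = 2 * 3 := by push_cast; norm_num
      rw [this, mul_pow, hfp]
    · right
      refine ari_fin hp h5 (m := 12) (by norm_num) ?_
      have h3 : ((3 : ZMod (p ^ 2)) ^ (p - 1)) ^ (p - 1) = 4 ^ (p - 1) := by
        have e1 : ((3 : ZMod (p ^ 2)) ^ (p - 1)) ^ (p - 1) = (((3 : ZMod (p ^ 2)) ^ e) ^ (p - 1)) ^ 2 := by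
          rw [← pow_mul, ← pow_mul, ← pow_mul]
          congr 1
          conv_lhs => rw [← he]
          rw [← he]
          ring
        rw [e1, h2, ← pow_mul, mul_comm, pow_mul]
        norm_num
      rw [h3] at hfp
      have : ((12 : ℕ) : ZMod (p ^ 2)) = 4 * 3 := by push_cast; norm_num
      rw [this, mul_pow, hfp]

end Pool.Agent.H47C
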