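import Pool.Agent.H47C.Stm

/-!
# Project CUB: the descent
-/

set_option autoImplicit false

namespace Pool.Agent.H47C

open NumberField IsDedekindDomain Pool.Agent.H47T

theorem exists_above (F : Type) [Field F] [NumberField F] {p : ℕ} (hp : p.Prime) :
    ∃ P : HeightOneSpectrum (𝓞 F), ((p : ℕ) : 𝓞 F) ∈ P.asIdeal := by
  have h1 : (Ideal.span {((p : ℕ) : 𝓞 F)}) ≠ ⊤ := by
    intro h2
    have h3 : Ideal.absNorm (Ideal.span {((p : ℕ) : 𝓞 F)}) = p ^ Module.finrank ℚ F := by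
      rw [Ideal.absNorm_span_natCast, RingOfIntegers.rank]
    rw [h2, Ideal.absNorm_top] at h3
    have h4 : 1 < p ^ Module.finrank ℚ F := Nat.one_lt_pow Module.finrank_pos.ne' hp.one_lt
    omega
  obtain ⟨M, hM, hle⟩ := Ideal.exists_le_maximal _ h1
  have h2 : ((p : ℕ) : 𝓞 F) ∈ M := hle (Ideal.mem_span_singleton_self _)
  have h3 : M ≠ ⊥ := by
    rintro rfl
    have h4 : ((p : ℕ) : 𝓞 F) = 0 := Ideal.mem_bot.1 h2
    exact hp.ne_zero (by exact_mod_cast h4)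
  exact ⟨⟨M, hM.isPrime, h3⟩, h2⟩

/-- `1 - ζ ^ i` is a unit outside `p` -/
theorem val_one_sub {F : Type} [Field F] [NumberField F] {p : ℕ} (hp : p.Prime) {ζ : F}
    (hζ : IsPrimitiveRoot ζ p) (v : HeightOneSpectrum (𝓞 F)) (hv : ((p : ℕ) : 𝓞 F) ∉ v.asIdeal)
    {i : ℕ} (hi : ¬ p ∣ i) : v.valuation F (1 - ζ ^ i) = 1 := by
  have hvp : v.valuation F (p : F) = 1 := by
    have h : v.valuation F (algebraMap (𝓞 F) F ((p : ℕ) : 𝓞 F)) = 1 :=
      (v.valuation_eq_one_iff_notMem (K := F)).mpr hv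
    rwa [map_natCast] at h
  have hvζ : v.valuation F ζ = 1 := by
    have h1 : v.valuation F ζ ^ p = 1 := by rw [← map_pow, hζ.pow_eq_one, map_one]
    exact (pow_eq_one_iff_of_nonneg zero_le hp.ne_zero).1 h1
  have hμ : IsPrimitiveRoot (ζ ^ i) p :=
    hζ.pow_of_coprime i ((hp.coprime_iff_not_dvd.2 hi).symm)
  obtain ⟨μ, hμd⟩ : ∃ μ, μ = ζ ^ i := ⟨_, rfl⟩
  rw [← hμd] at hμ ⊢
  have hvμ : v.valuation F μ = 1 := by rw [hμd, map_pow, hvζ, one_pow]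
  have hle : v.valuation F (1 - μ) ≤ 1 :=
    Valuation.map_sub_le _ (by rw [map_one]) hvμ.le
  have hsum : ∑ k ∈ Finset.range p, μ ^ k = 0 := hμ.geom_sum_eq_zero hp.one_lt
  have h2 : (p : F) = (1 - μ) * ∑ k ∈ Finset.range p, ∑ j ∈ Finset.range k, μ ^ j := by
    rw [Finset.mul_sum]
    have h3 : ∀ k ∈ Finset.range p, (1 - μ) * ∑ j ∈ Finset.range k, μ ^ j = 1 - μ ^ k :=
      fun k _ => mul_neg_geom_sum μ k
    rw [Finset.sum_congr rfl h3, Finset.sum_sub_distrib, hsum]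
    simp
  have h4 : v.valuation F (∑ k ∈ Finset.range p, ∑ j ∈ Finset.range k, μ ^ j) ≤ 1 := by
    refine Valuation.map_sum_le _ fun k _ => Valuation.map_sum_le _ fun j _ => ?_
    rw [map_pow, hvμ, one_pow]
  rw [h2, map_mul] at hvp
  refine le_antisymm hle ?_
  calc (1 : WithZero (Multiplicative ℤ)) = _ := hvp.symm
    _ ≤ v.valuation F (1 - μ) * 1 := mul_le_mul' le_rfl h4
    _ = _ := mul_one _

/-- the state of the descent -/
def State {F : Type} [Field F] [NumberField F] (p : ℕ) (J : F ≃ₐ[ℚ] F) (m : ℕ) (x : F) : Prop :=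
  J x = x ∧
  (∀ v : HeightOneSpectrum (𝓞 F), ((p : ℕ) : 𝓞 F) ∉ v.asIdeal → (3 : 𝓞 F) ∉ v.asIdeal →
    ∃ m : ℤ, v.valuation F (x ^ p + 1) = WithZero.exp ((p : ℤ) * m)) ∧
  (∀ v : HeightOneSpectrum (𝓞 F), (3 : 𝓞 F) ∈ v.asIdeal → v.valuation F x ≤ 1) ∧
  (∀ P : HeightOneSpectrum (𝓞 F), ((p : ℕ) : 𝓞 F) ∈ P.asIdeal →
    P.valuation F (x ^ p + 1) = WithZero.exp (-((m * p : ℕ) : ℤ)))

theorem step (hCONJ3 : S_CONJ3) (hLAM : S_LAM) (hVQ : S_VQ) (hPTH : S_PTH) {p : ℕ}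
    [Fact p.Prime] (h5 : 5 ≤ p) {F : Type} [Field F] [NumberField F]
    [IsCyclotomicExtension {p} ℚ F] {ζ : F} (hζ : IsPrimitiveRoot ζ p) {J : F ≃ₐ[ℚ] F}
    (hJ : J ζ = ζ⁻¹) {j : ℕ} (hj : p ∣ 3 ^ j + 1) (hcl : (classNumber F).Coprime p)
    {m : ℕ} (hm : 2 ≤ m) {x : F} (hx : State p J m x) :
    ∃ y : F, State p J (2 * (m - 1)) y ∧
      y ^ p = (-((1 - ζ ^ 2) * (1 - ζ ^ (p - 2))) / ((1 - ζ) * (1 - ζ ^ (p - 1)))) *
        ((x + ζ) * (x + ζ ^ (p - 1))) / ((x + ζ ^ 2) * (x + ζ ^ (p - 2))) := by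
  have hp : p.Prime := Fact.out
  obtain ⟨hJx, hx1, hx2, hx3⟩ := hx
  have hodd : Odd p := hp.odd_of_ne_two (by omega)
  have hζ0 : ζ ≠ 0 := hζ.ne_zero hp.ne_zero
  have hd1 : ¬ p ∣ 1 := fun h => by have := Nat.le_of_dvd one_pos h; omega
  have hd2 : ¬ p ∣ 2 := fun h => by have := Nat.le_of_dvd two_pos h; omega
  have hd3 : ¬ p ∣ 3 := fun h => by have := Nat.le_of_dvd three_pos h; omega
  have hdp1 : ¬ p ∣ p - 1 := fun h => by have := Nat.le_of_dvd (by omega) h; omega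
  have hdp2 : ¬ p ∣ p - 2 := fun h => by have := Nat.le_of_dvd (by omega) h; omega
  obtain ⟨z1, hz1⟩ : ∃ z, z = ζ ^ 1 := ⟨_, rfl⟩
  obtain ⟨w1, hw1⟩ : ∃ z, z = ζ ^ (p - 1) := ⟨_, rfl⟩
  obtain ⟨z2, hz2⟩ : ∃ z, z = ζ ^ 2 := ⟨_, rfl⟩
  obtain ⟨w2, hw2⟩ : ∃ z, z = ζ ^ (p - 2) := ⟨_, rfl⟩
  have hzw1 : z1 * w1 = 1 := by
    rw [hz1, hw1, ← pow_add, show 1 + (p - 1) = p by omega, hζ.pow_eq_one]
  have hzw2 : z2 * w2 = 1 := by
    rw [hz2, hw2, ← pow_add, show 2 + (p - 2) = p by omega, hζ.pow_eq_one]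
  have hz12 : z2 = z1 ^ 2 := by rw [hz1, hz2, pow_one]
  have hw12 : w2 = w1 ^ 2 := by
    have h1 : z1 ^ 2 * w1 ^ 2 = 1 := by rw [← mul_pow, hzw1, one_pow]
    have h2 : z1 ^ 2 ≠ 0 := by rw [hz1]; exact pow_ne_zero _ (pow_ne_zero _ hζ0)
    apply mul_left_cancel₀ h2
    rw [h1, ← hz12, hzw2]
  have hJz1 : J z1 = w1 := by
    rw [hz1, pow_one, hJ, hw1]
    field_simp
    rw [← pow_succ', show p - 1 + 1 = p by omega, hζ.pow_eq_one]
  have hJw1 : J w1 = z1 := by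
    have h1 : J z1 * J w1 = 1 := by rw [← map_mul, hzw1, map_one]
    rw [hJz1] at h1
    have h2 : w1 ≠ 0 := by rw [hw1]; exact pow_ne_zero _ hζ0
    apply mul_left_cancel₀ h2
    rw [h1, mul_comm, hzw1]
  have hJz2 : J z2 = w2 := by rw [hz12, map_pow, hJz1, hw12]
  have hJw2 : J w2 = z2 := by rw [hw12, map_pow, hJw1, hz12]
  obtain ⟨P, hP⟩ := exists_above F hp
  have hL := fun P hP => hLAM p h5 F ζ hζ J hJ P hP x hJx m hm (hx3 P hP)
  -- the elements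
  obtain ⟨a1, ha1⟩ : ∃ a, a = (x + z1) * (x + w1) := ⟨_, rfl⟩
  obtain ⟨a2, ha2⟩ : ∃ a, a = (x + z2) * (x + w2) := ⟨_, rfl⟩
  obtain ⟨l1, hl1⟩ : ∃ a, a = (1 - z1) * (1 - w1) := ⟨_, rfl⟩
  obtain ⟨l2, hl2⟩ : ∃ a, a = (1 - z2) * (1 - w2) := ⟨_, rfl⟩
  have hdiff : l1 - l2 = w2 * ((1 - ζ ^ 3) * (1 - ζ ^ 1)) := by
    rw [hl1, hl2]
    have h1 : w2 * z1 = w1 := by rw [hw12]; linear_combination w1 * hzw1
    have h2 : w2 * ζ ^ 3 = z1 := by
      rw [show ζ ^ 3 = z2 * z1 by rw [hz2, hz1, ← pow_add]]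
      linear_combination z1 * hzw2
    have h3 : w2 * ζ ^ 3 * ζ ^ 1 = z2 := by
      rw [h2, hz12, hz1]; ring
    rw [← hz1] at h3 ⊢
    linear_combination hzw1 - hzw2 + h1 + h2 - h3
  have hvz : ∀ v : HeightOneSpectrum (𝓞 F), v.valuation F w2 = 1 := by
    intro v
    have h1 : v.valuation F w2 ^ p = 1 := by
      rw [← map_pow, hw2, ← pow_mul, mul_comm, pow_mul, hζ.pow_eq_one, one_pow, map_one]
    exact (pow_eq_one_iff_of_nonneg zero_le hp.ne_zero).1 h1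
  -- valuations at the primes above `p`
  have pa1 : ∀ P : HeightOneSpectrum (𝓞 F), ((p : ℕ) : 𝓞 F) ∈ P.asIdeal →
      P.valuation F a1 = WithZero.exp (-2) := by
    intro P hP
    rw [ha1, map_mul, hz1, hw1, ((hL P hP).2 1 hd1).1, ((hL P hP).2 (p - 1) hdp1).1,
      ← WithZero.exp_add]
    norm_num
  have pa2 : ∀ P : HeightOneSpectrum (𝓞 F), ((p : ℕ) : 𝓞 F) ∈ P.asIdeal →
      P.valuation F a2 = WithZero.exp (-2) := by
    intro P hP
    rw [ha2, map_mul, hz2, hw2, ((hL P hP).2 2 hd2).1, ((hL P hP).2 (p - 2) hdp2).1,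
      ← WithZero.exp_add]
    norm_num
  have pl1 : ∀ P : HeightOneSpectrum (𝓞 F), ((p : ℕ) : 𝓞 F) ∈ P.asIdeal →
      P.valuation F l1 = WithZero.exp (-2) := by
    intro P hP
    rw [hl1, map_mul, hz1, hw1, ((hL P hP).2 1 hd1).2, ((hL P hP).2 (p - 1) hdp1).2,
      ← WithZero.exp_add]
    norm_num
  have pl2 : ∀ P : HeightOneSpectrum (𝓞 F), ((p : ℕ) : 𝓞 F) ∈ P.asIdeal →
      P.valuation F l2 = WithZero.exp (-2) := by
    intro P hP
    rw [hl2, map_mul, hz2, hw2, ((hL P hP).2 2 hd2).2, ((hL P hP).2 (p - 2) hdp2).2,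
      ← WithZero.exp_add]
    norm_num
  have pdf : ∀ P : HeightOneSpectrum (𝓞 F), ((p : ℕ) : 𝓞 F) ∈ P.asIdeal →
      P.valuation F (l1 - l2) = WithZero.exp (-2) := by
    intro P hP
    rw [hdiff, map_mul, map_mul, hvz, ((hL P hP).2 3 hd3).2, ((hL P hP).2 1 hd1).2,
      ← WithZero.exp_add]
    norm_num
  -- outside `p`
  have ql1 : ∀ v : HeightOneSpectrum (𝓞 F), ((p : ℕ) : 𝓞 F) ∉ v.asIdeal →
      v.valuation F l1 = 1 := by
    intro v hv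
    rw [hl1, map_mul, hz1, hw1, val_one_sub hp hζ v hv hd1, val_one_sub hp hζ v hv hdp1, one_mul]
  have ql2 : ∀ v : HeightOneSpectrum (𝓞 F), ((p : ℕ) : 𝓞 F) ∉ v.asIdeal →
      v.valuation F l2 = 1 := by
    intro v hv
    rw [hl2, map_mul, hz2, hw2, val_one_sub hp hζ v hv hd2, val_one_sub hp hζ v hv hdp2, one_mul]
  have qdf : ∀ v : HeightOneSpectrum (𝓞 F), ((p : ℕ) : 𝓞 F) ∉ v.asIdeal →
      v.valuation F (l1 - l2) = 1 := by
    intro v hv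
    rw [hdiff, map_mul, map_mul, hvz, val_one_sub hp hζ v hv hd3, val_one_sub hp hζ v hv hd1,
      one_mul, one_mul]
  have hne : ∀ a : F, P.valuation F a = WithZero.exp (-2) → a ≠ 0 := by
    rintro a h rfl
    rw [map_zero] at h
    exact WithZero.exp_ne_zero h.symm
  have a1ne := hne a1 (pa1 P hP)
  have a2ne := hne a2 (pa2 P hP)
  have l1ne := hne l1 (pl1 P hP)
  have l2ne := hne l2 (pl2 P hP)
  -- the element `r`
  obtain ⟨r, hr⟩ : ∃ r, r = a1 * l2 / (a2 * l1) := ⟨_, rfl⟩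
  have r0 : r ≠ 0 := by
    rw [hr]
    exact div_ne_zero (mul_ne_zero a1ne l2ne) (mul_ne_zero a2ne l1ne)
  have h1r : 1 - r = (x + 1) ^ 2 * (l1 - l2) / (a2 * l1) := by
    have e1 : a1 = (x + 1) ^ 2 - l1 * x := by
      rw [ha1, hl1]
      linear_combination (1 + x) * hzw1
    have e2 : a2 = (x + 1) ^ 2 - l2 * x := by
      rw [ha2, hl2]
      linear_combination (1 + x) * hzw2
    rw [hr]
    field_simp
    linear_combination l1 * e2 - l2 * e1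
  have hJr : J r = r := by
    have e1 : J a1 = a1 := by rw [ha1, map_mul, map_add, map_add, hJx, hJz1, hJw1, mul_comm]
    have e2 : J a2 = a2 := by rw [ha2, map_mul, map_add, map_add, hJx, hJz2, hJw2, mul_comm]
    have e3 : J l1 = l1 := by rw [hl1, map_mul, map_sub, map_sub, map_one, hJz1, hJw1, mul_comm]
    have e4 : J l2 = l2 := by rw [hl2, map_mul, map_sub, map_sub, map_one, hJz2, hJw2, mul_comm]
    rw [hr, map_div₀, map_mul, map_mul, e1, e2, e3, e4]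
  have hmP : ∀ P : HeightOneSpectrum (𝓞 F), ((p : ℕ) : 𝓞 F) ∈ P.asIdeal →
      P.valuation F (1 - r) = WithZero.exp (-((2 * (m - 1) * p : ℕ) : ℤ)) := by
    intro P hP
    rw [h1r, map_div₀, map_mul, map_mul, map_pow, (hL P hP).1, pdf P hP, pa2 P hP, pl1 P hP,
      ← WithZero.exp_nsmul, ← WithZero.exp_add, ← WithZero.exp_add, ← WithZero.exp_sub]
    congr 1
    simp only [nsmul_eq_mul]
    push_cast
    ring
  -- the valuations of `r`
  have h3p : ∀ v : HeightOneSpectrum (𝓞 F), (3 : 𝓞 F) ∈ v.asIdeal →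
      ((p : ℕ) : 𝓞 F) ∉ v.asIdeal := by
    intro v hv3 hvp
    have h1 := Nat.isCoprime_iff_coprime.2
      ((Nat.coprime_primes hp Nat.prime_three).2 (by omega))
    obtain ⟨a, b, hab⟩ := h1
    apply v.isPrime.ne_top
    rw [Ideal.eq_top_iff_one]
    have h2 : (1 : 𝓞 F) = (a : 𝓞 F) * ((p : ℕ) : 𝓞 F) + (b : 𝓞 F) * 3 := by
      have h3 : ((a * (p : ℤ) + b * ((3 : ℕ) : ℤ) : ℤ) : 𝓞 F) = ((1 : ℤ) : 𝓞 F) := by rw [hab]
      push_cast at h3
      exact h3.symm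
    rw [h2]
    exact Ideal.add_mem _ (Ideal.mul_mem_left _ _ hvp) (Ideal.mul_mem_left _ _ hv3)
  have hvr3 : ∀ v : HeightOneSpectrum (𝓞 F), (3 : 𝓞 F) ∈ v.asIdeal → v.valuation F r = 1 := by
    intro v hv3
    have hc := fun i hi => hCONJ3 p h5 F ζ hζ J hJ j hj v hv3 x hJx (hx2 v hv3) i hi
    have e1 : v.valuation F a1 = 1 := by
      rw [ha1, map_mul, hz1, hw1, hc 1 hd1, hc (p - 1) hdp1, one_mul]
    have e2 : v.valuation F a2 = 1 := by
      rw [ha2, map_mul, hz2, hw2, hc 2 hd2, hc (p - 2) hdp2, one_mul]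
    rw [hr, map_div₀, map_mul, map_mul, e1, e2, ql1 v (h3p v hv3), ql2 v (h3p v hv3), one_mul,
      div_one]
  have hmul : ∀ (v : HeightOneSpectrum (𝓞 F)) (b c : F),
      (∃ n : ℤ, v.valuation F b = WithZero.exp ((p : ℤ) * n)) →
      (∃ n : ℤ, v.valuation F c = WithZero.exp ((p : ℤ) * n)) →
      ∃ n : ℤ, v.valuation F (b * c) = WithZero.exp ((p : ℤ) * n) := by
    rintro v b c ⟨n, hn⟩ ⟨n', hn'⟩
    refine ⟨n + n', ?_⟩
    rw [map_mul, hn, hn', ← WithZero.exp_add]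
    congr 1
    ring
  have hdiv : ∀ (v : HeightOneSpectrum (𝓞 F)) (b c : F),
      (∃ n : ℤ, v.valuation F b = WithZero.exp ((p : ℤ) * n)) →
      (∃ n : ℤ, v.valuation F c = WithZero.exp ((p : ℤ) * n)) →
      ∃ n : ℤ, v.valuation F (b / c) = WithZero.exp ((p : ℤ) * n) := by
    rintro v b c ⟨n, hn⟩ ⟨n', hn'⟩
    refine ⟨n - n', ?_⟩
    rw [map_div₀, hn, hn', ← WithZero.exp_sub]
    congr 1
    ring
  have hone : ∀ (v : HeightOneSpectrum (𝓞 F)) (b : F), v.valuation F b = 1 →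
      ∃ n : ℤ, v.valuation F b = WithZero.exp ((p : ℤ) * n) := by
    intro v b hb
    exact ⟨0, by rw [hb, mul_zero, WithZero.exp_zero]⟩
  have hEv : EvL p r := by
    intro v
    by_cases hv : ((p : ℕ) : 𝓞 F) ∈ v.asIdeal
    · apply hone
      rw [hr, map_div₀, map_mul, map_mul, pa1 v hv, pa2 v hv, pl1 v hv, pl2 v hv,
        div_self (mul_ne_zero WithZero.exp_ne_zero WithZero.exp_ne_zero)]
    · by_cases hv3 : (3 : 𝓞 F) ∈ v.asIdeal
      · exact hone v r (hvr3 v hv3)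
      · have hq := hVQ p h5 F ζ hζ v hv x (hx1 v hv hv3)
        rcases le_or_gt (v.valuation F x) 1 with hx | hx
        · rw [hr]
          refine hdiv v _ _ (hmul v _ _ ?_ (hone v _ (ql2 v hv))) (hmul v _ _ ?_ (hone v _ (ql1 v hv)))
          · rw [ha1, hz1, hw1]
            exact hmul v _ _ ((hq 1).1 hx) ((hq (p - 1)).1 hx)
          · rw [ha2, hz2, hw2]
            exact hmul v _ _ ((hq 2).1 hx) ((hq (p - 2)).1 hx)
        · apply hone
          have hx0 : v.valuation F x ≠ 0 := (zero_lt_one.trans hx).ne'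
          rw [hr, map_div₀, map_mul, map_mul, ql1 v hv, ql2 v hv, mul_one, mul_one, ha1, ha2,
            map_mul, map_mul, hz1, hw1, hz2, hw2, (hq 1).2 hx, (hq (p - 1)).2 hx, (hq 2).2 hx,
            (hq (p - 2)).2 hx, div_self (mul_ne_zero hx0 hx0)]
  obtain ⟨y, hy, hJy⟩ := hPTH p h5 F ζ hζ J hJ hcl r r0 hEv hJr (fun P hP => by
    rw [← Valuation.map_neg, neg_sub, hmP P hP, WithZero.exp_le_exp]
    have h1 : p ≤ 2 * (m - 1) * p := Nat.le_mul_of_pos_left p (by omega)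
    have h2 : (p : ℤ) ≤ ((2 * (m - 1) * p : ℕ) : ℤ) := by exact_mod_cast h1
    omega)
  have hy1 : (-y) ^ p + 1 = 1 - r := by
    rw [hodd.neg_pow, hy]
    ring
  refine ⟨-y, ⟨by rw [map_neg, hJy], fun v hv hv3 => ?_, fun v hv3 => ?_, fun P hP => ?_⟩, ?_⟩
  · rw [hy1, h1r]
    have hq := hVQ p h5 F ζ hζ v hv x (hx1 v hv hv3)
    have hq0 := hq 0
    rw [pow_zero] at hq0
    rcases le_or_gt (v.valuation F x) 1 with hx | hx
    · refine hdiv v _ _ (hmul v _ _ ?_ (hone v _ (qdf v hv))) (hmul v _ _ ?_ (hone v _ (ql1 v hv)))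
      · rw [pow_two]
        exact hmul v _ _ (hq0.1 hx) (hq0.1 hx)
      · rw [ha2, hz2, hw2]
        exact hmul v _ _ ((hq 2).1 hx) ((hq (p - 2)).1 hx)
    · apply hone
      have hx0 : v.valuation F x ≠ 0 := (zero_lt_one.trans hx).ne'
      rw [map_div₀, map_mul, map_mul, ql1 v hv, qdf v hv, mul_one, mul_one, ha2, map_mul, map_pow,
        hz2, hw2, hq0.2 hx, (hq 2).2 hx, (hq (p - 2)).2 hx, pow_two,
        div_self (mul_ne_zero hx0 hx0)]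
  · rw [Valuation.map_neg]
    have h1 : v.valuation F y ^ p = 1 := by rw [← map_pow, hy, hvr3 v hv3]
    exact ((pow_eq_one_iff_of_nonneg zero_le hp.ne_zero).1 h1).le
  · rw [hy1, hmP P hP]
  · have hR : (-((1 - ζ ^ 2) * (1 - ζ ^ (p - 2))) / ((1 - ζ) * (1 - ζ ^ (p - 1)))) *
        ((x + ζ) * (x + ζ ^ (p - 1))) / ((x + ζ ^ 2) * (x + ζ ^ (p - 2))) = -l2 / l1 * a1 / a2 := by
      rw [hl2, hl1, ha1, ha2, hz1, hw1, hz2, hw2, pow_one]
    rw [hR, hodd.neg_pow, hy, hr]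
    field_simp

end Pool.Agent.H47C
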