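import Pool.Agent.H47C.Asm
import Mathlib.NumberTheory.Height.NumberField

/-!
# Project CUB: assembly
-/

set_option autoImplicit false

namespace Pool.Agent.H47C

open NumberField IsDedekindDomain Pool.Agent.H47T

theorem descent (hCONJ3 : S_CONJ3) (hLAM : S_LAM) (hVQ : S_VQ) (hPTH : S_PTH) (hHUP : S_HUP) {p : ℕ}
    [Fact p.Prime] (h5 : 5 ≤ p) {F : Type} [Field F] [NumberField F]
    [IsCyclotomicExtension {p} ℚ F] {ζ : F} (hζ : IsPrimitiveRoot ζ p) {J : F ≃ₐ[ℚ] F}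
    (hJ : J ζ = ζ⁻¹) {j : ℕ} (hj : p ∣ 3 ^ j + 1) (hcl : (classNumber F).Coprime p)
    {m : ℕ} (hm : 4 ≤ m) {x : F} (hx : State p J m x) : False := by
  have hp : p.Prime := Fact.out
  obtain ⟨P, hP⟩ := exists_above F hp
  obtain ⟨C, hC1, hC⟩ := hHUP F
    (-((1 - ζ ^ 2) * (1 - ζ ^ (p - 2))) / ((1 - ζ) * (1 - ζ ^ (p - 1)))) ζ (ζ ^ (p - 1)) (ζ ^ 2)
    (ζ ^ (p - 2))
  obtain ⟨B, hB⟩ : ∃ B, B = max C (Height.mulHeight₁ x) := ⟨_, rfl⟩
  have hBC : C ≤ B := hB ▸ le_max_left _ _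
  have hB1 : 1 ≤ B := hC1.trans hBC
  -- the sequence
  have hseq : ∀ N : ℕ, ∃ (m : ℕ) (x : F), N ≤ m ∧ 4 ≤ m ∧ State p J m x ∧
      Height.mulHeight₁ x ≤ B := by
    intro N
    induction N with
    | zero => exact ⟨m, x, Nat.zero_le _, hm, hx, hB ▸ le_max_right _ _⟩
    | succ N ih =>
      obtain ⟨m, x, h1, h2, h3, h4⟩ := ih
      obtain ⟨y, h6, h7⟩ := step hCONJ3 hLAM hVQ hPTH h5 hζ hJ hj hcl (by omega) h3
      refine ⟨2 * (m - 1), y, by omega, by omega, h6, ?_⟩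
      have h8 := hC x y p h7
      have h9 : Height.mulHeight₁ y ^ p ≤ B ^ p := by
        refine h8.trans ?_
        have h10 : C * Height.mulHeight₁ x ^ 4 ≤ B * B ^ 4 :=
          mul_le_mul hBC (pow_le_pow_left₀ (Height.mulHeight₁_nonneg x) h4 4)
            (pow_nonneg (Height.mulHeight₁_nonneg x) 4) (zero_le_one.trans hB1)
        refine h10.trans ?_
        rw [← pow_succ']
        exact pow_le_pow_right₀ hB1 h5
      exact le_of_pow_le_pow_left₀ hp.ne_zero (zero_le_one.trans hB1) h9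
  -- finiteness
  have hfin : {x : F | Height.mulHeight₁ x ≤ B}.Finite := NumberField.finite_setOfPred_mulHeight₁_le F B
  obtain ⟨M, hM⟩ : ∃ M : ℕ, ∀ (m : ℕ) (x : F), State p J m x → Height.mulHeight₁ x ≤ B → m ≤ M := by
    have h1 : {m : ℕ | ∃ x : F, State p J m x ∧ Height.mulHeight₁ x ≤ B}.Finite := by
      refine (hfin.image fun x => (-(WithZero.log (P.valuation F (x ^ p + 1)))).toNat / p).subset ?_
      rintro m ⟨x, hx, hxB⟩
      refine ⟨x, hxB, ?_⟩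
      simp only
      rw [hx.2.2.2 P hP, WithZero.log_exp, neg_neg, Int.toNat_natCast]
      exact Nat.mul_div_cancel _ hp.pos
    obtain ⟨M, hM⟩ := h1.bddAbove
    exact ⟨M, fun m x h2 h3 => hM ⟨x, h2, h3⟩⟩
  obtain ⟨m', x', h1, -, h3, h4⟩ := hseq (M + 1)
  have := hM m' x' h3 h4
  omega

/-- the equation `a ^ p + b ^ p = 3 ^ e d ^ p` -/
theorem noE (hCONJ3 : S_CONJ3) (hLAM : S_LAM) (hVQ : S_VQ) (hPTH : S_PTH) (hHUP : S_HUP)
    (hINIT : S_INIT) (hVALQ : S_VALQ) (hKCONG : S_KCONG) (hARI : S_ARI) (hCJ : S_CJ) {p : ℕ}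
    [Fact p.Prime] (h5 : 5 ≤ p) {j : ℕ} (hj : p ∣ 3 ^ j + 1)
    (hcl : (classNumber (CyclotomicField p ℚ)).Coprime p)
    (h3 : ¬ p ^ 2 ∣ 3 ^ (p - 1) - 1) (h6 : ¬ p ^ 2 ∣ 6 ^ (p - 1) - 1)
    (h12 : ¬ p ^ 2 ∣ 12 ^ (p - 1) - 1) {a b d : ℤ} {e : ℕ} (he : e = p - 1 ∨ 2 * e = p - 1)
    (ha : a ≠ 0) (hb : b ≠ 0) (hd : d ≠ 0) (hab : IsCoprime a b)
    (h : a ^ p + b ^ p = 3 ^ e * d ^ p) : False := by
  have hp : p.Prime := Fact.out
  have : NeZero p := ⟨hp.ne_zero⟩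
  have : NeZero ((p : ℕ) : ℚ) := ⟨Nat.cast_ne_zero.2 hp.ne_zero⟩
  have : IsCyclotomicExtension {p} ℚ (CyclotomicField p ℚ) :=
    CyclotomicField.isCyclotomicExtension p ℚ
  obtain ⟨ζ, hζ⟩ : ∃ ζ : CyclotomicField p ℚ, IsPrimitiveRoot ζ p :=
    ⟨_, IsCyclotomicExtension.zeta_spec p ℚ (CyclotomicField p ℚ)⟩
  obtain ⟨J, hJ, -⟩ := hCJ p (CyclotomicField p ℚ) ζ hζ
  have he1 : 1 ≤ e := by omega
  by_cases hpd : (p : ℤ) ∣ d
  · obtain ⟨i1, i2, m, hm, i3⟩ := hINIT p h5 (CyclotomicField p ℚ) ζ hζ a b d e he1 ha hb hd hab h hpd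
    refine descent hCONJ3 hLAM hVQ hPTH hHUP h5 hζ hJ hj hcl hm
      (x := (a : CyclotomicField p ℚ) / b) ⟨?_, i1, fun v hv => (i2 v hv).le, i3⟩
    rw [map_div₀, map_intCast, map_intCast]
  · have hdiv : (p : ℤ) ∣ a ∨ (p : ℤ) ∣ b ∨ (p : ℤ) ∣ a - b := by
      by_cases h1 : (p : ℤ) ∣ a
      · exact Or.inl h1
      by_cases h2 : (p : ℤ) ∣ b
      · exact Or.inr (Or.inl h2)
      · exact Or.inr (Or.inr (hKCONG p h5 (CyclotomicField p ℚ) ζ hζ hcl a b h1 h2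
          (hVALQ p h5 (CyclotomicField p ℚ) ζ hζ a b d e he1 hb hd hab h hpd)))
    rcases hARI p hp h5 a b d e he hab h hpd hdiv with h7 | h7 | h7
    · exact h3 h7
    · exact h6 h7
    · exact h12 h7

/-- the case `α ^ p + β ^ p ∈ ℚ` -/
theorem noAB (hROOT : S_ROOT) (hRED3 : S_RED3) {K : Type} [Field K] [NumberField K]
    (hK : Module.finrank ℚ K = 2) {p : ℕ} (hp : p.Prime) (h5 : 5 ≤ p)
    (hno1 : ∀ a b d : ℤ, a ≠ 0 → b ≠ 0 → d ≠ 0 → a ^ p + b ^ p ≠ d ^ p)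
    (hno2 : ∀ (a b d : ℤ) (e : ℕ), (e = p - 1 ∨ 2 * e = p - 1) → a ≠ 0 → b ≠ 0 → d ≠ 0 →
      IsCoprime a b → a ^ p + b ^ p ≠ 3 ^ e * d ^ p) {α β : K} (hα : α ≠ 0) (hβ : β ≠ 0)
    (h : α ^ (3 * p) + β ^ (3 * p) = 1) {c : ℚ} (hc : α ^ p + β ^ p = algebraMap ℚ K c) : False := by
  have h1 : (α ^ p) ^ 3 + (β ^ p) ^ 3 = 1 := by
    rw [← pow_mul, ← pow_mul, mul_comm p 3, h]
  have h2 : (algebraMap ℚ K c) ^ 3 - 3 * algebraMap ℚ K c * (α * β) ^ p = 1 := by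
    rw [← hc, mul_pow]
    linear_combination h1
  have hc0 : c ≠ 0 := by
    rintro rfl
    rw [map_zero] at h2
    simp at h2
  have hcK : algebraMap ℚ K c ≠ 0 := (map_ne_zero _).2 hc0
  have h3 : (α * β) ^ p = algebraMap ℚ K ((c ^ 3 - 1) / (3 * c)) := by
    rw [map_div₀, map_sub, map_pow, map_one, map_mul, map_ofNat (algebraMap ℚ K) 3]
    rw [eq_div_iff (mul_ne_zero three_ne_zero hcK)]
    linear_combination -h2
  obtain ⟨t, ht⟩ := hROOT K hK p hp h5 _ _ h3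
  have ht0 : t ≠ 0 := by
    rintro rfl
    rw [map_zero] at ht
    exact mul_ne_zero hα hβ ht
  have h4 : c ^ 3 - 3 * c * t ^ p = 1 := by
    apply (algebraMap ℚ K).injective
    rw [map_sub, map_mul, map_mul, map_pow, map_pow, map_one, map_ofNat (algebraMap ℚ K) 3, ← ht, h2]
  rcases hRED3 p hp h5 c t ht0 h4 with ⟨a, b, d, ha, hb, hd, h6⟩ | ⟨a, b, d, e, he, ha, hb, hd, hab, h6⟩
  · exact hno1 a b d ha hb hd h6
  · exact hno2 a b d e he ha hb hd hab h6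

/-- **The main theorem.** -/
theorem mainCUB (hRED1 : S_RED1) (hROOT : S_ROOT) (hRED3 : S_RED3) {K : Type} [Field K]
    [NumberField K] (hK : Module.finrank ℚ K = 2) {p : ℕ} (hp : p.Prime) (h5 : 5 ≤ p)
    (hno1 : ∀ a b d : ℤ, a ≠ 0 → b ≠ 0 → d ≠ 0 → a ^ p + b ^ p ≠ d ^ p)
    (hno2 : ∀ (a b d : ℤ) (e : ℕ), (e = p - 1 ∨ 2 * e = p - 1) → a ≠ 0 → b ≠ 0 → d ≠ 0 →
      IsCoprime a b → a ^ p + b ^ p ≠ 3 ^ e * d ^ p) {x y z : K} (hx : x ≠ 0) (hy : y ≠ 0)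
    (hz : z ≠ 0) (h : x ^ (3 * p) + y ^ (3 * p) = z ^ (3 * p)) : False := by
  have hodd : Odd p := hp.odd_of_ne_two (by omega)
  have hodd3 : Odd (3 * p) := Odd.mul (by decide) hodd
  have hu : (x / z) ^ p ≠ 0 := pow_ne_zero _ (div_ne_zero hx hz)
  have hv : (y / z) ^ p ≠ 0 := pow_ne_zero _ (div_ne_zero hy hz)
  have h1 : (x / z) ^ (3 * p) + (y / z) ^ (3 * p) = 1 := by
    rw [div_pow, div_pow, ← add_div, h, div_self (pow_ne_zero _ hz)]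
  have h2 : ((x / z) ^ p) ^ 3 + ((y / z) ^ p) ^ 3 = 1 := by
    rw [← pow_mul, ← pow_mul, mul_comm p 3, h1]
  rcases hRED1 K hK _ _ hu hv h2 with ⟨c, hc⟩ | ⟨c, hc⟩ | ⟨c, hc⟩
  · exact noAB hROOT hRED3 hK hp h5 hno1 hno2 (div_ne_zero hx hz) (div_ne_zero hy hz) h1 hc
  · -- `z ^ n + (-y) ^ n = x ^ n`
    refine noAB hROOT hRED3 hK hp h5 hno1 hno2 (α := z / x) (β := -y / x) (div_ne_zero hz hx)
      (div_ne_zero (neg_ne_zero.2 hy) hx) (c := c) ?_ ?_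
    · rw [div_pow, div_pow, hodd3.neg_pow, ← add_div, ← h, div_eq_one_iff_eq (pow_ne_zero _ hx)]
      ring
    · have h3 : x ^ p ≠ 0 := pow_ne_zero _ hx
      have h4 : z ^ p ≠ 0 := pow_ne_zero _ hz
      rw [div_pow, div_pow] at hc
      rw [div_pow, div_pow, hodd.neg_pow, ← add_div, div_eq_iff h3]
      field_simp at hc
      linear_combination hc
  · refine noAB hROOT hRED3 hK hp h5 hno1 hno2 (α := z / y) (β := -x / y) (div_ne_zero hz hy)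
      (div_ne_zero (neg_ne_zero.2 hx) hy) (c := c) ?_ ?_
    · rw [div_pow, div_pow, hodd3.neg_pow, ← add_div, ← h, div_eq_one_iff_eq (pow_ne_zero _ hy)]
      ring
    · have h3 : y ^ p ≠ 0 := pow_ne_zero _ hy
      have h4 : z ^ p ≠ 0 := pow_ne_zero _ hz
      rw [div_pow, div_pow] at hc
      rw [div_pow, div_pow, hodd.neg_pow, ← add_div, div_eq_iff h3]
      field_simp at hc
      linear_combination hc

end Pool.Agent.H47C
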