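import Pool.Agent.H47C.CHO
import Mathlib.NumberTheory.Height.NumberField

/-!
# Project CUB: the descent for all regular primes
-/

set_option autoImplicit false

namespace Pool.Agent.H47C

open NumberField IsDedekindDomain Pool.Agent.H47T

/-- the step of the descent with the indices `i < k < p / 2` -/
theorem step2 (hLAM : S_LAM) (hVQ : S_VQ) (hPTH : S_PTH) {p : ℕ}
    [Fact p.Prime] (h5 : 5 ≤ p) {F : Type} [Field F] [NumberField F]
    [IsCyclotomicExtension {p} ℚ F] {ζ : F} (hζ : IsPrimitiveRoot ζ p) {J : F ≃ₐ[ℚ] F}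
    (hJ : J ζ = ζ⁻¹) (hcl : (classNumber F).Coprime p)
    {m : ℕ} (hm : 2 ≤ m) {x : F} (hx : State p J m x) {i k : ℕ} (hi : 1 ≤ i) (hik : i < k)
    (hk : 2 * k < p) (hc : ∀ v : HeightOneSpectrum (𝓞 F), (3 : 𝓞 F) ∈ v.asIdeal →
      v.valuation F x ≤ 1 → v.valuation F (x + ζ ^ i) = 1 ∧ v.valuation F (x + ζ ^ (p - i)) = 1 ∧
        v.valuation F (x + ζ ^ k) = 1 ∧ v.valuation F (x + ζ ^ (p - k)) = 1) :
    ∃ y : F, State p J (2 * (m - 1)) y ∧
      y ^ p = (-((1 - ζ ^ k) * (1 - ζ ^ (p - k))) / ((1 - ζ ^ i) * (1 - ζ ^ (p - i)))) *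
        ((x + ζ ^ i) * (x + ζ ^ (p - i))) / ((x + ζ ^ k) * (x + ζ ^ (p - k))) := by
  have hp : p.Prime := Fact.out
  obtain ⟨hJx, hx1, hx2, hx3⟩ := hx
  have hodd : Odd p := hp.odd_of_ne_two (by omega)
  have hζ0 : ζ ≠ 0 := hζ.ne_zero hp.ne_zero
  have hlt : ∀ n : ℕ, 0 < n → n < p → ¬ p ∣ n := fun n h1 h2 h =>
    absurd (Nat.eq_zero_of_dvd_of_lt h h2) h1.ne'
  have hd1 : ¬ p ∣ i := hlt _ (by omega) (by omega)
  have hd2 : ¬ p ∣ k := hlt _ (by omega) (by omega)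
  have hdm : ¬ p ∣ k - i := hlt _ (by omega) (by omega)
  have hds : ¬ p ∣ k + i := hlt _ (by omega) (by omega)
  have hdp1 : ¬ p ∣ p - i := hlt _ (by omega) (by omega)
  have hdp2 : ¬ p ∣ p - k := hlt _ (by omega) (by omega)
  obtain ⟨z1, hz1⟩ : ∃ z, z = ζ ^ i := ⟨_, rfl⟩
  obtain ⟨w1, hw1⟩ : ∃ z, z = ζ ^ (p - i) := ⟨_, rfl⟩
  obtain ⟨z2, hz2⟩ : ∃ z, z = ζ ^ k := ⟨_, rfl⟩
  obtain ⟨w2, hw2⟩ : ∃ z, z = ζ ^ (p - k) := ⟨_, rfl⟩
  have hzw1 : z1 * w1 = 1 := by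
    rw [hz1, hw1, ← pow_add, show i + (p - i) = p by omega, hζ.pow_eq_one]
  have hzw2 : z2 * w2 = 1 := by
    rw [hz2, hw2, ← pow_add, show k + (p - k) = p by omega, hζ.pow_eq_one]
  have hJall : ∀ n : ℕ, J (ζ ^ n) * ζ ^ n = 1 := by
    intro n
    rw [map_pow, hJ, ← mul_pow, inv_mul_cancel₀ hζ0, one_pow]
  have hJz1 : J z1 = w1 := by
    have h1 : z1 ≠ 0 := by rw [hz1]; exact pow_ne_zero _ hζ0
    apply mul_right_cancel₀ h1
    rw [hz1, hJall i, ← hz1, mul_comm, hzw1]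
  have hJw1 : J w1 = z1 := by
    have h1 : w1 ≠ 0 := by rw [hw1]; exact pow_ne_zero _ hζ0
    apply mul_right_cancel₀ h1
    rw [hw1, hJall (p - i), ← hw1, hzw1]
  have hJz2 : J z2 = w2 := by
    have h1 : z2 ≠ 0 := by rw [hz2]; exact pow_ne_zero _ hζ0
    apply mul_right_cancel₀ h1
    rw [hz2, hJall k, ← hz2, mul_comm, hzw2]
  have hJw2 : J w2 = z2 := by
    have h1 : w2 ≠ 0 := by rw [hw2]; exact pow_ne_zero _ hζ0
    apply mul_right_cancel₀ h1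
    rw [hw2, hJall (p - k), ← hw2, hzw2]
  obtain ⟨P, hP⟩ := exists_above F hp
  have hL := fun P hP => hLAM p h5 F ζ hζ J hJ P hP x hJx m hm (hx3 P hP)
  -- the elements
  obtain ⟨a1, ha1⟩ : ∃ a, a = (x + z1) * (x + w1) := ⟨_, rfl⟩
  obtain ⟨a2, ha2⟩ : ∃ a, a = (x + z2) * (x + w2) := ⟨_, rfl⟩
  obtain ⟨l1, hl1⟩ : ∃ a, a = (1 - z1) * (1 - w1) := ⟨_, rfl⟩
  obtain ⟨l2, hl2⟩ : ∃ a, a = (1 - z2) * (1 - w2) := ⟨_, rfl⟩
  have hdiff : l1 - l2 = w2 * ((1 - ζ ^ (k + i)) * (1 - ζ ^ (k - i))) := by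
    rw [hl1, hl2]
    have h1 : ζ ^ (k + i) = z2 * z1 := by rw [pow_add, hz2, hz1]
    have h2 : ζ ^ (k - i) = z2 * w1 := by
      have h3 : ζ ^ (k - i) * z1 = z2 := by rw [hz1, hz2, ← pow_add, Nat.sub_add_cancel hik.le]
      linear_combination w1 * h3 - ζ ^ (k - i) * hzw1
    rw [h1, h2]
    linear_combination (z1 + w1 - z2 - 1) * hzw2 + (1 - w2 * z2 * z2) * hzw1
  have hvz : ∀ v : HeightOneSpectrum (𝓞 F), v.valuation F w2 = 1 := by
    intro v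
    have h1 : v.valuation F w2 ^ p = 1 := by
      rw [← map_pow, hw2, ← pow_mul, mul_comm, pow_mul, hζ.pow_eq_one, one_pow, map_one]
    exact (pow_eq_one_iff_of_nonneg zero_le hp.ne_zero).1 h1
  -- valuations at the primes above `p`
  have pa1 : ∀ P : HeightOneSpectrum (𝓞 F), ((p : ℕ) : 𝓞 F) ∈ P.asIdeal →
      P.valuation F a1 = WithZero.exp (-2) := by
    intro P hP
    rw [ha1, map_mul, hz1, hw1, ((hL P hP).2 i hd1).1, ((hL P hP).2 (p - i) hdp1).1,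
      ← WithZero.exp_add]
    norm_num
  have pa2 : ∀ P : HeightOneSpectrum (𝓞 F), ((p : ℕ) : 𝓞 F) ∈ P.asIdeal →
      P.valuation F a2 = WithZero.exp (-2) := by
    intro P hP
    rw [ha2, map_mul, hz2, hw2, ((hL P hP).2 k hd2).1, ((hL P hP).2 (p - k) hdp2).1,
      ← WithZero.exp_add]
    norm_num
  have pl1 : ∀ P : HeightOneSpectrum (𝓞 F), ((p : ℕ) : 𝓞 F) ∈ P.asIdeal →
      P.valuation F l1 = WithZero.exp (-2) := by
    intro P hP
    rw [hl1, map_mul, hz1, hw1, ((hL P hP).2 i hd1).2, ((hL P hP).2 (p - i) hdp1).2,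
      ← WithZero.exp_add]
    norm_num
  have pl2 : ∀ P : HeightOneSpectrum (𝓞 F), ((p : ℕ) : 𝓞 F) ∈ P.asIdeal →
      P.valuation F l2 = WithZero.exp (-2) := by
    intro P hP
    rw [hl2, map_mul, hz2, hw2, ((hL P hP).2 k hd2).2, ((hL P hP).2 (p - k) hdp2).2,
      ← WithZero.exp_add]
    norm_num
  have pdf : ∀ P : HeightOneSpectrum (𝓞 F), ((p : ℕ) : 𝓞 F) ∈ P.asIdeal →
      P.valuation F (l1 - l2) = WithZero.exp (-2) := by
    intro P hP
    rw [hdiff, map_mul, map_mul, hvz, ((hL P hP).2 (k + i) hds).2, ((hL P hP).2 (k - i) hdm).2,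
      ← WithZero.exp_add]
    norm_num
  -- outside `p`
  have ql1 : ∀ v : HeightOneSpectrum (𝓞 F), ((p : ℕ) : 𝓞 F) ∉ v.asIdeal →
      v.valuation F l1 = 1 := by
    intro v hv
    rw [hl1, map_mul, hz1, hw1, val_one_sub hp hζ v hv hd1, val_one_sub hp hζ v hv hdp1, one_mul]
  have ql2 : ∀ v : HeightOneSpectrum (𝓞 F), ((p : ℕ) : 𝓞 F) ∉ v.asIdeal →
      v.valuation F l2 = 1 := by
    intro v hv
    rw [hl2, map_mul, hz2, hw2, val_one_sub hp hζ v hv hd2, val_one_sub hp hζ v hv hdp2, one_mul]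
  have qdf : ∀ v : HeightOneSpectrum (𝓞 F), ((p : ℕ) : 𝓞 F) ∉ v.asIdeal →
      v.valuation F (l1 - l2) = 1 := by
    intro v hv
    rw [hdiff, map_mul, map_mul, hvz, val_one_sub hp hζ v hv hds, val_one_sub hp hζ v hv hdm,
      one_mul, one_mul]
  have hne : ∀ a : F, P.valuation F a = WithZero.exp (-2) → a ≠ 0 := by
    rintro a h rfl
    rw [map_zero] at h
    exact WithZero.exp_ne_zero h.symm
  have a1ne := hne a1 (pa1 P hP)
  have a2ne := hne a2 (pa2 P hP)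
  have l1ne := hne l1 (pl1 P hP)
  have l2ne := hne l2 (pl2 P hP)
  -- the element `r`
  obtain ⟨r, hr⟩ : ∃ r, r = a1 * l2 / (a2 * l1) := ⟨_, rfl⟩
  have r0 : r ≠ 0 := by
    rw [hr]
    exact div_ne_zero (mul_ne_zero a1ne l2ne) (mul_ne_zero a2ne l1ne)
  have h1r : 1 - r = (x + 1) ^ 2 * (l1 - l2) / (a2 * l1) := by
    have e1 : a1 = (x + 1) ^ 2 - l1 * x := by
      rw [ha1, hl1]
      linear_combination (1 + x) * hzw1
    have e2 : a2 = (x + 1) ^ 2 - l2 * x := by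
      rw [ha2, hl2]
      linear_combination (1 + x) * hzw2
    rw [hr]
    field_simp
    linear_combination l1 * e2 - l2 * e1
  have hJr : J r = r := by
    have e1 : J a1 = a1 := by rw [ha1, map_mul, map_add, map_add, hJx, hJz1, hJw1, mul_comm]
    have e2 : J a2 = a2 := by rw [ha2, map_mul, map_add, map_add, hJx, hJz2, hJw2, mul_comm]
    have e3 : J l1 = l1 := by rw [hl1, map_mul, map_sub, map_sub, map_one, hJz1, hJw1, mul_comm]
    have e4 : J l2 = l2 := by rw [hl2, map_mul, map_sub, map_sub, map_one, hJz2, hJw2, mul_comm]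
    rw [hr, map_div₀, map_mul, map_mul, e1, e2, e3, e4]
  have hmP : ∀ P : HeightOneSpectrum (𝓞 F), ((p : ℕ) : 𝓞 F) ∈ P.asIdeal →
      P.valuation F (1 - r) = WithZero.exp (-((2 * (m - 1) * p : ℕ) : ℤ)) := by
    intro P hP
    rw [h1r, map_div₀, map_mul, map_mul, map_pow, (hL P hP).1, pdf P hP, pa2 P hP, pl1 P hP,
      ← WithZero.exp_nsmul, ← WithZero.exp_add, ← WithZero.exp_add, ← WithZero.exp_sub]
    congr 1
    simp only [nsmul_eq_mul]
    push_cast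
    ring
  -- the valuations of `r`
  have h3p : ∀ v : HeightOneSpectrum (𝓞 F), (3 : 𝓞 F) ∈ v.asIdeal →
      ((p : ℕ) : 𝓞 F) ∉ v.asIdeal := by
    intro v hv3 hvp
    have h1 := Nat.isCoprime_iff_coprime.2
      ((Nat.coprime_primes hp Nat.prime_three).2 (by omega))
    obtain ⟨a, b, hab⟩ := h1
    apply v.isPrime.ne_top
    rw [Ideal.eq_top_iff_one]
    have h2 : (1 : 𝓞 F) = (a : 𝓞 F) * ((p : ℕ) : 𝓞 F) + (b : 𝓞 F) * 3 := by
      have h3 : ((a * (p : ℤ) + b * ((3 : ℕ) : ℤ) : ℤ) : 𝓞 F) = ((1 : ℤ) : 𝓞 F) := by rw [hab]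
      push_cast at h3
      exact h3.symm
    rw [h2]
    exact Ideal.add_mem _ (Ideal.mul_mem_left _ _ hvp) (Ideal.mul_mem_left _ _ hv3)
  have hvr3 : ∀ v : HeightOneSpectrum (𝓞 F), (3 : 𝓞 F) ∈ v.asIdeal → v.valuation F r = 1 := by
    intro v hv3
    obtain ⟨c1, c2, c3, c4⟩ := hc v hv3 (hx2 v hv3)
    have e1 : v.valuation F a1 = 1 := by
      rw [ha1, map_mul, hz1, hw1, c1, c2, one_mul]
    have e2 : v.valuation F a2 = 1 := by
      rw [ha2, map_mul, hz2, hw2, c3, c4, one_mul]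
    rw [hr, map_div₀, map_mul, map_mul, e1, e2, ql1 v (h3p v hv3), ql2 v (h3p v hv3), one_mul,
      div_one]
  have hmul : ∀ (v : HeightOneSpectrum (𝓞 F)) (b c : F),
      (∃ n : ℤ, v.valuation F b = WithZero.exp ((p : ℤ) * n)) →
      (∃ n : ℤ, v.valuation F c = WithZero.exp ((p : ℤ) * n)) →
      ∃ n : ℤ, v.valuation F (b * c) = WithZero.exp ((p : ℤ) * n) := by
    rintro v b c ⟨n, hn⟩ ⟨n', hn'⟩
    refine ⟨n + n', ?_⟩
    rw [map_mul, hn, hn', ← WithZero.exp_add]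
    congr 1
    ring
  have hdiv : ∀ (v : HeightOneSpectrum (𝓞 F)) (b c : F),
      (∃ n : ℤ, v.valuation F b = WithZero.exp ((p : ℤ) * n)) →
      (∃ n : ℤ, v.valuation F c = WithZero.exp ((p : ℤ) * n)) →
      ∃ n : ℤ, v.valuation F (b / c) = WithZero.exp ((p : ℤ) * n) := by
    rintro v b c ⟨n, hn⟩ ⟨n', hn'⟩
    refine ⟨n - n', ?_⟩
    rw [map_div₀, hn, hn', ← WithZero.exp_sub]
    congr 1
    ring
  have hone : ∀ (v : HeightOneSpectrum (𝓞 F)) (b : F), v.valuation F b = 1 →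
      ∃ n : ℤ, v.valuation F b = WithZero.exp ((p : ℤ) * n) := by
    intro v b hb
    exact ⟨0, by rw [hb, mul_zero, WithZero.exp_zero]⟩
  have hEv : EvL p r := by
    intro v
    by_cases hv : ((p : ℕ) : 𝓞 F) ∈ v.asIdeal
    · apply hone
      rw [hr, map_div₀, map_mul, map_mul, pa1 v hv, pa2 v hv, pl1 v hv, pl2 v hv,
        div_self (mul_ne_zero WithZero.exp_ne_zero WithZero.exp_ne_zero)]
    · by_cases hv3 : (3 : 𝓞 F) ∈ v.asIdeal
      · exact hone v r (hvr3 v hv3)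
      · have hq := hVQ p h5 F ζ hζ v hv x (hx1 v hv hv3)
        rcases le_or_gt (v.valuation F x) 1 with hx | hx
        · rw [hr]
          refine hdiv v _ _ (hmul v _ _ ?_ (hone v _ (ql2 v hv))) (hmul v _ _ ?_ (hone v _ (ql1 v hv)))
          · rw [ha1, hz1, hw1]
            exact hmul v _ _ ((hq i).1 hx) ((hq (p - i)).1 hx)
          · rw [ha2, hz2, hw2]
            exact hmul v _ _ ((hq k).1 hx) ((hq (p - k)).1 hx)
        · apply hone
          have hx0 : v.valuation F x ≠ 0 := (zero_lt_one.trans hx).ne'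
          rw [hr, map_div₀, map_mul, map_mul, ql1 v hv, ql2 v hv, mul_one, mul_one, ha1, ha2,
            map_mul, map_mul, hz1, hw1, hz2, hw2, (hq i).2 hx, (hq (p - i)).2 hx, (hq k).2 hx,
            (hq (p - k)).2 hx, div_self (mul_ne_zero hx0 hx0)]
  obtain ⟨y, hy, hJy⟩ := hPTH p h5 F ζ hζ J hJ hcl r r0 hEv hJr (fun P hP => by
    rw [← Valuation.map_neg, neg_sub, hmP P hP, WithZero.exp_le_exp]
    have h1 : p ≤ 2 * (m - 1) * p := Nat.le_mul_of_pos_left p (by omega)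
    have h2 : (p : ℤ) ≤ ((2 * (m - 1) * p : ℕ) : ℤ) := by exact_mod_cast h1
    omega)
  have hy1 : (-y) ^ p + 1 = 1 - r := by
    rw [hodd.neg_pow, hy]
    ring
  refine ⟨-y, ⟨by rw [map_neg, hJy], fun v hv hv3 => ?_, fun v hv3 => ?_, fun P hP => ?_⟩, ?_⟩
  · rw [hy1, h1r]
    have hq := hVQ p h5 F ζ hζ v hv x (hx1 v hv hv3)
    have hq0 := hq 0
    rw [pow_zero] at hq0
    rcases le_or_gt (v.valuation F x) 1 with hx | hx
    · refine hdiv v _ _ (hmul v _ _ ?_ (hone v _ (qdf v hv))) (hmul v _ _ ?_ (hone v _ (ql1 v hv)))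
      · rw [pow_two]
        exact hmul v _ _ (hq0.1 hx) (hq0.1 hx)
      · rw [ha2, hz2, hw2]
        exact hmul v _ _ ((hq k).1 hx) ((hq (p - k)).1 hx)
    · apply hone
      have hx0 : v.valuation F x ≠ 0 := (zero_lt_one.trans hx).ne'
      rw [map_div₀, map_mul, map_mul, ql1 v hv, qdf v hv, mul_one, mul_one, ha2, map_mul, map_pow,
        hz2, hw2, hq0.2 hx, (hq k).2 hx, (hq (p - k)).2 hx, pow_two,
        div_self (mul_ne_zero hx0 hx0)]
  · rw [Valuation.map_neg]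
    have h1 : v.valuation F y ^ p = 1 := by rw [← map_pow, hy, hvr3 v hv3]
    exact ((pow_eq_one_iff_of_nonneg zero_le hp.ne_zero).1 h1).le
  · rw [hy1, hmP P hP]
  · have hR : (-((1 - ζ ^ k) * (1 - ζ ^ (p - k))) / ((1 - ζ ^ i) * (1 - ζ ^ (p - i)))) *
        ((x + ζ ^ i) * (x + ζ ^ (p - i))) / ((x + ζ ^ k) * (x + ζ ^ (p - k))) =
        -l2 / l1 * a1 / a2 := by
      rw [hl2, hl1, ha1, ha2, hz1, hw1, hz2, hw2]
    rw [hR, hodd.neg_pow, hy, hr]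
    field_simp

/-- the choice of the indices, for every prime `p ≥ 5` -/
theorem indices (hCONJ3 : S_CONJ3) {p : ℕ} [Fact p.Prime] (h5 : 5 ≤ p) {F : Type}
    [Field F] [NumberField F] [IsCyclotomicExtension {p} ℚ F] {ζ : F} (hζ : IsPrimitiveRoot ζ p)
    {J : F ≃ₐ[ℚ] F} (hJ : J ζ = ζ⁻¹) {x : F} (hx : J x = x) :
    ∃ i k : ℕ, 1 ≤ i ∧ i < k ∧ 2 * k < p ∧ ∀ v : HeightOneSpectrum (𝓞 F), (3 : 𝓞 F) ∈ v.asIdeal →
      v.valuation F x ≤ 1 → v.valuation F (x + ζ ^ i) = 1 ∧ v.valuation F (x + ζ ^ (p - i)) = 1 ∧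
        v.valuation F (x + ζ ^ k) = 1 ∧ v.valuation F (x + ζ ^ (p - k)) = 1 := by
  have hp : p.Prime := Fact.out
  have hlt : ∀ n : ℕ, 0 < n → n < p → ¬ p ∣ n := fun n h1 h2 h =>
    absurd (Nat.eq_zero_of_dvd_of_lt h h2) h1.ne'
  by_cases h11 : 11 ≤ p
  · exact choose_indices h11 hζ x
  · have h57 : p = 5 ∨ p = 7 := by
      have h1 : p < 11 := by omega
      interval_cases p
      · exact Or.inl rfl
      · exact absurd hp (by decide)
      · exact Or.inr rfl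
      · exact absurd hp (by decide)
      · exact absurd hp (by decide)
      · exact absurd hp (by decide)
    have hj : ∃ j : ℕ, p ∣ 3 ^ j + 1 := by
      rcases h57 with rfl | rfl
      · exact ⟨2, by decide⟩
      · exact ⟨3, by decide⟩
    obtain ⟨j, hj⟩ := hj
    refine ⟨1, 2, le_rfl, by norm_num, by omega, fun v hv hvx => ⟨?_, ?_, ?_, ?_⟩⟩
    · exact hCONJ3 p h5 F ζ hζ J hJ j hj v hv x hx hvx _ (hlt _ (by omega) (by omega))
    · exact hCONJ3 p h5 F ζ hζ J hJ j hj v hv x hx hvx _ (hlt _ (by omega) (by omega))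
    · exact hCONJ3 p h5 F ζ hζ J hJ j hj v hv x hx hvx _ (hlt _ (by omega) (by omega))
    · exact hCONJ3 p h5 F ζ hζ J hJ j hj v hv x hx hvx _ (hlt _ (by omega) (by omega))

theorem descent2 (hCONJ3 : S_CONJ3) (hLAM : S_LAM) (hVQ : S_VQ) (hPTH : S_PTH) (hHUP : S_HUP) {p : ℕ}
    [Fact p.Prime] (h5 : 5 ≤ p) {F : Type} [Field F] [NumberField F]
    [IsCyclotomicExtension {p} ℚ F] {ζ : F} (hζ : IsPrimitiveRoot ζ p) {J : F ≃ₐ[ℚ] F}
    (hJ : J ζ = ζ⁻¹) (hcl : (classNumber F).Coprime p)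
    {m : ℕ} (hm : 4 ≤ m) {x : F} (hx : State p J m x) : False := by
  have hp : p.Prime := Fact.out
  obtain ⟨P, hP⟩ := exists_above F hp
  choose! C hC1 hC using fun (i k : ℕ) => hHUP F
    (-((1 - ζ ^ k) * (1 - ζ ^ (p - k))) / ((1 - ζ ^ i) * (1 - ζ ^ (p - i)))) (ζ ^ i) (ζ ^ (p - i))
    (ζ ^ k) (ζ ^ (p - k))
  obtain ⟨D, hD⟩ : ∃ D, D = ∑ i ∈ Finset.range p, ∑ k ∈ Finset.range p, C i k := ⟨_, rfl⟩
  have hCD : ∀ i k : ℕ, i < p → k < p → C i k ≤ D := by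
    intro i k hi hk
    rw [hD]
    refine (Finset.single_le_sum (f := fun k => C i k) (fun k _ => zero_le_one.trans (hC1 i k))
      (Finset.mem_range.2 hk)).trans ?_
    exact Finset.single_le_sum (f := fun i => ∑ k ∈ Finset.range p, C i k)
      (fun i _ => Finset.sum_nonneg fun k _ => zero_le_one.trans (hC1 i k)) (Finset.mem_range.2 hi)
  obtain ⟨B, hB⟩ : ∃ B, B = max D (Height.mulHeight₁ x) := ⟨_, rfl⟩
  have hDB : D ≤ B := hB ▸ le_max_left _ _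
  have hB1 : 1 ≤ B := (hC1 0 0).trans ((hCD 0 0 hp.pos hp.pos).trans hDB)
  -- the sequence
  have hseq : ∀ N : ℕ, ∃ (m : ℕ) (x : F), N ≤ m ∧ 4 ≤ m ∧ State p J m x ∧
      Height.mulHeight₁ x ≤ B := by
    intro N
    induction N with
    | zero => exact ⟨m, x, Nat.zero_le _, hm, hx, hB ▸ le_max_right _ _⟩
    | succ N ih =>
      obtain ⟨m, x, h1, h2, h3, h4⟩ := ih
      obtain ⟨i, k, hi, hik, hk, hc⟩ := indices hCONJ3 h5 hζ hJ h3.1
      obtain ⟨y, h6, h7⟩ := step2 hLAM hVQ hPTH h5 hζ hJ hcl (by omega) h3 hi hik hk hc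
      refine ⟨2 * (m - 1), y, by omega, by omega, h6, ?_⟩
      have h8 := hC i k x y p h7
      have h9 : Height.mulHeight₁ y ^ p ≤ B ^ p := by
        refine h8.trans ?_
        have h10 : C i k * Height.mulHeight₁ x ^ 4 ≤ B * B ^ 4 :=
          mul_le_mul ((hCD i k (by omega) (by omega)).trans hDB)
            (pow_le_pow_left₀ (Height.mulHeight₁_nonneg x) h4 4)
            (pow_nonneg (Height.mulHeight₁_nonneg x) 4) (zero_le_one.trans hB1)
        refine h10.trans ?_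
        rw [← pow_succ']
        exact pow_le_pow_right₀ hB1 h5
      exact le_of_pow_le_pow_left₀ hp.ne_zero (zero_le_one.trans hB1) h9
  -- finiteness
  have hfin : {x : F | Height.mulHeight₁ x ≤ B}.Finite :=
    NumberField.finite_setOfPred_mulHeight₁_le F B
  obtain ⟨M, hM⟩ : ∃ M : ℕ, ∀ (m : ℕ) (x : F), State p J m x → Height.mulHeight₁ x ≤ B → m ≤ M := by
    have h1 : {m : ℕ | ∃ x : F, State p J m x ∧ Height.mulHeight₁ x ≤ B}.Finite := by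
      refine (hfin.image fun x => (-(WithZero.log (P.valuation F (x ^ p + 1)))).toNat / p).subset ?_
      rintro m ⟨x, hx, hxB⟩
      refine ⟨x, hxB, ?_⟩
      simp only
      rw [hx.2.2.2 P hP, WithZero.log_exp, neg_neg, Int.toNat_natCast]
      exact Nat.mul_div_cancel _ hp.pos
    obtain ⟨M, hM⟩ := h1.bddAbove
    exact ⟨M, fun m x h2 h3 => hM ⟨x, h2, h3⟩⟩
  obtain ⟨m', x', h1, -, h3, h4⟩ := hseq (M + 1)
  have := hM m' x' h3 h4
  omega

/-- the equation `a ^ p + b ^ p = 3 ^ e d ^ p` -/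
theorem noE2 (hCONJ3 : S_CONJ3) (hLAM : S_LAM) (hVQ : S_VQ) (hPTH : S_PTH) (hHUP : S_HUP)
    (hINIT : S_INIT) (hVALQ : S_VALQ) (hKCONG : S_KCONG) (hARI : S_ARI) (hCJ : S_CJ) {p : ℕ}
    [Fact p.Prime] (h5 : 5 ≤ p) (hcl : (classNumber (CyclotomicField p ℚ)).Coprime p)
    (h3 : ¬ p ^ 2 ∣ 3 ^ (p - 1) - 1) (h6 : ¬ p ^ 2 ∣ 6 ^ (p - 1) - 1)
    (h12 : ¬ p ^ 2 ∣ 12 ^ (p - 1) - 1) {a b d : ℤ} {e : ℕ} (he : e = p - 1 ∨ 2 * e = p - 1)
    (ha : a ≠ 0) (hb : b ≠ 0) (hd : d ≠ 0) (hab : IsCoprime a b)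
    (h : a ^ p + b ^ p = 3 ^ e * d ^ p) : False := by
  have hp : p.Prime := Fact.out
  have : NeZero p := ⟨hp.ne_zero⟩
  have : NeZero ((p : ℕ) : ℚ) := ⟨Nat.cast_ne_zero.2 hp.ne_zero⟩
  have : IsCyclotomicExtension {p} ℚ (CyclotomicField p ℚ) :=
    CyclotomicField.isCyclotomicExtension p ℚ
  obtain ⟨ζ, hζ⟩ : ∃ ζ : CyclotomicField p ℚ, IsPrimitiveRoot ζ p :=
    ⟨_, IsCyclotomicExtension.zeta_spec p ℚ (CyclotomicField p ℚ)⟩
  obtain ⟨J, hJ, -⟩ := hCJ p (CyclotomicField p ℚ) ζ hζ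
  have he1 : 1 ≤ e := by omega
  by_cases hpd : (p : ℤ) ∣ d
  · obtain ⟨i1, i2, m, hm, i3⟩ := hINIT p h5 (CyclotomicField p ℚ) ζ hζ a b d e he1 ha hb hd hab h hpd
    refine descent2 hCONJ3 hLAM hVQ hPTH hHUP h5 hζ hJ hcl hm
      (x := (a : CyclotomicField p ℚ) / b) ⟨?_, i1, fun v hv => (i2 v hv).le, i3⟩
    rw [map_div₀, map_intCast, map_intCast]
  · have hdiv : (p : ℤ) ∣ a ∨ (p : ℤ) ∣ b ∨ (p : ℤ) ∣ a - b := by
      by_cases h1 : (p : ℤ) ∣ a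
      · exact Or.inl h1
      by_cases h2 : (p : ℤ) ∣ b
      · exact Or.inr (Or.inl h2)
      · exact Or.inr (Or.inr (hKCONG p h5 (CyclotomicField p ℚ) ζ hζ hcl a b h1 h2
          (hVALQ p h5 (CyclotomicField p ℚ) ζ hζ a b d e he1 hb hd hab h hpd)))
    rcases hARI p hp h5 a b d e he hab h hpd hdiv with h7 | h7 | h7
    · exact h3 h7
    · exact h6 h7
    · exact h12 h7

end Pool.Agent.H47C
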