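import Pool.Agent.H47C.Stm4

/-!
# Project CUB, part 2: assembly
-/

set_option autoImplicit false

namespace Pool.Agent.H47C

open NumberField IsDedekindDomain Pool.Agent.H47T

/-- the first case: `p` divides none of `α`, `β`, `d` -/
theorem caseD {p : ℕ} (hp : p.Prime) (h5 : 5 ≤ p) {α β d h : ℤ} {m : ℕ}
    (h1 : α ^ p - d ^ p = 3 ^ m * β ^ p) (h2 : h ^ p - (d ^ 2) ^ p = 3 ^ (m + 1) * (α * β) ^ p)
    (hpα : ¬ (p : ℤ) ∣ α) (k1 : (p : ℤ) ∣ α - -d) (k2 : ¬ (p : ℤ) ∣ h → (p : ℤ) ∣ h - -(d ^ 2)) :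
    False := by
  have : Fact p.Prime := ⟨hp⟩
  have hpZ : Prime (p : ℤ) := Nat.prime_iff_prime_int.1 hp
  have hodd : Odd p := hp.odd_of_ne_two (by omega)
  -- `h ^ p = D ^ 2 + 3 A (A - D)`
  have e1 : h ^ p = (d ^ p) ^ 2 + 3 * α ^ p * (α ^ p - d ^ p) := by
    rw [h1]
    have h3 : (d ^ 2) ^ p = (d ^ p) ^ 2 := by rw [← pow_mul, ← pow_mul, mul_comm]
    rw [h3] at h2
    rw [mul_pow, pow_succ] at h2
    linear_combination h2
  by_cases hph : (p : ℤ) ∣ h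
  · -- modulo `p ^ 2`
    have h3 : (p : ℤ) ^ 2 ∣ α ^ p - (-d) ^ p := by
      have := dvd_sub_pow_of_dvd_sub k1 1
      simpa using this
    rw [hodd.neg_pow, sub_neg_eq_add] at h3
    obtain ⟨w, hw⟩ := h3
    have h4 : (p : ℤ) ^ 2 ∣ h ^ p := (pow_dvd_pow _ (by omega)).trans (pow_dvd_pow_of_dvd hph p)
    have h6 : (p : ℤ) ^ 2 ∣ 7 * (α ^ p) ^ 2 := by
      have h7 : 7 * (α ^ p) ^ 2 = h ^ p - (p : ℤ) ^ 2 * w * (d ^ p - α ^ p - 3 * α ^ p) := by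
        rw [e1]
        linear_combination (-(d ^ p) + 4 * α ^ p) * hw
      rw [h7]
      exact dvd_sub h4 ((Dvd.intro _ rfl : (p : ℤ) ^ 2 ∣ (p : ℤ) ^ 2 * w).mul_right _)
    have h7 : IsCoprime ((p : ℤ) ^ 2) ((α ^ p) ^ 2) :=
      IsCoprime.pow (IsCoprime.pow_right ((hpZ.coprime_iff_not_dvd).2 hpα))
    have h8 : (p : ℤ) ^ 2 ∣ 7 := h7.dvd_of_dvd_mul_right h6
    have h9 : (p : ℤ) ^ 2 ≤ 7 := Int.le_of_dvd (by norm_num) h8
    have h10 : (5 : ℤ) ≤ p := by exact_mod_cast h5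
    nlinarith
  · have k3 := k2 hph
    apply hpα
    have hz : ∀ z : ℤ, (p : ℤ) ∣ z → (z : ZMod p) = 0 := fun z hz =>
      (ZMod.intCast_zmod_eq_zero_iff_dvd z p).2 hz
    have k1' := hz _ k1
    have k3' := hz _ k3
    have e2 := congrArg (fun z : ℤ => (z : ZMod p)) e1
    push_cast at e2 k1' k3'
    rw [ZMod.pow_card, ZMod.pow_card, ZMod.pow_card] at e2
    have e3 : (8 : ZMod p) * (α : ZMod p) ^ 2 = 0 := by
      linear_combination k3' - e2 + (5 * (α : ZMod p) - 2 * d) * k1'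
    have e4 : ((8 * α ^ 2 : ℤ) : ZMod p) = 0 := by
      push_cast
      exact e3
    rw [ZMod.intCast_zmod_eq_zero_iff_dvd] at e4
    rcases hpZ.dvd_or_dvd e4 with h3 | h3
    · exfalso
      have h4 : (p : ℤ) ∣ 2 ^ 3 := by
        norm_num
        exact h3
      have h6 := Int.le_of_dvd (by norm_num) (hpZ.dvd_of_dvd_pow h4)
      omega
    · exact hpZ.dvd_of_dvd_pow h3

/-- the case `p ∣ d` -/
theorem caseC (hEIS : S_EIS) (hPF : S_PF) (hCASEC : S_CASEC) {p : ℕ} [Fact p.Prime] (h5 : 5 ≤ p)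
    {F : Type} [Field F] [NumberField F] [IsCyclotomicExtension {p} ℚ F] {ζ : F}
    (hζ : IsPrimitiveRoot ζ p) {J : F ≃ₐ[ℚ] F} (hJ : J ζ = ζ⁻¹) (hcl : (classNumber F).Coprime p)
    {α β d h : ℤ} {m : ℕ} (hd : d ≠ 0) (hαd : IsCoprime α d) (hhd : IsCoprime h d)
    (h3d : ¬ (3 : ℤ) ∣ d) (h3h : ¬ (3 : ℤ) ∣ h)
    (h1 : α ^ p - d ^ p = 3 ^ m * β ^ p) (h2 : h ^ p - (d ^ 2) ^ p = 3 ^ (m + 1) * (α * β) ^ p)
    (hpd : (p : ℤ) ∣ d) : ∃ (m : ℕ) (x : F), 4 ≤ m ∧ State p J m x := by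
  have hp : p.Prime := Fact.out
  obtain ⟨A, hA⟩ : ∃ A, A = α ^ p := ⟨_, rfl⟩
  obtain ⟨B, hB⟩ : ∃ B, B = (3 : ℤ) ^ m * β ^ p := ⟨_, rfl⟩
  have hAB : A - B = d ^ p := by
    rw [hA, hB, ← h1]
    ring
  have hN : A ^ 2 + A * B + B ^ 2 = h ^ p := by
    have e1 : h ^ p = (d ^ p) ^ 2 + 3 * A * B := by
      have h3 : (d ^ 2) ^ p = (d ^ p) ^ 2 := by rw [← pow_mul, ← pow_mul, mul_comm]
      rw [h3] at h2
      rw [mul_pow, pow_succ] at h2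
      rw [hA, hB]
      linear_combination h2
    rw [e1, ← hAB]
    ring
  have hcop : IsCoprime A B := by
    have h3 : IsCoprime A (d ^ p) := by
      rw [hA]
      exact hαd.pow
    rw [← hAB] at h3
    have h4 : IsCoprime A (-(A - B) + A * 1) := (IsCoprime.add_mul_left_right_iff).2 h3.neg_right
    have h6 : -(A - B) + A * 1 = B := by ring
    rwa [h6] at h4
  obtain ⟨s, t, hst, hM⟩ := hEIS p hp h5 A B h hcop h3h hN
  have hsum : ∀ (M : Type) [Field M] (w : M), w ^ 2 + w + 1 = 0 →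
      ((s : M) + t * w) ^ p + ((s : M) + t * w ^ 2) ^ p = ((-(d ^ p) : ℤ) : M) := by
    intro M _ w hw
    have h3 : (w ^ 2) ^ 2 + w ^ 2 + 1 = 0 := by linear_combination (w ^ 2 - w + 1) * hw
    rw [hM M w hw, hM M (w ^ 2) h3, ← hAB]
    push_cast
    linear_combination ((A : M) + B) * hw
  have hτ : IsCoprime (2 * s - t) h := by
    rw [Int.isCoprime_iff_gcd_eq_one]
    by_contra hne
    obtain ⟨q, hq, hq1, hq2⟩ := Nat.Prime.not_coprime_iff_dvd.1 hne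
    have hq1' : (q : ℤ) ∣ 2 * s - t := Int.natCast_dvd.2 hq1
    have hq2' : (q : ℤ) ∣ h := Int.natCast_dvd.2 hq2
    have : Fact q.Prime := ⟨hq⟩
    let M := AlgebraicClosure (ZMod q)
    have hz : ∀ z : ℤ, (q : ℤ) ∣ z ↔ ((z : ℤ) : M) = 0 := fun z =>
      (CharP.intCast_eq_zero_iff M q z).symm
    obtain ⟨w, hw⟩ : ∃ w : M, w ^ 2 + w + 1 = 0 := by
      obtain ⟨w, hw⟩ := IsAlgClosed.exists_root (k := M)
        (Polynomial.X ^ 2 + Polynomial.X + 1 : Polynomial M) (by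
          have : (Polynomial.X ^ 2 + Polynomial.X + 1 : Polynomial M).degree = 2 := by
            compute_degree!
          rw [this]
          norm_num)
      refine ⟨w, ?_⟩
      simpa [Polynomial.IsRoot] using hw
    have hτ0 := (hz _).1 hq1'
    have hh0 := (hz _).1 hq2'
    rw [← hst, Int.cast_add, Int.cast_sub, Int.cast_pow, Int.cast_mul, Int.cast_pow] at hh0
    rw [Int.cast_sub, Int.cast_mul, Int.cast_ofNat] at hτ0
    have hg1 : (s : M) + t * w = 0 := by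
      have h6 : ((s : M) + t * w) ^ 2 = 0 := by
        linear_combination (s + t * w) * hτ0 - hh0 + (t : M) ^ 2 * hw
      exact pow_eq_zero_iff two_ne_zero |>.1 h6
    have hg2 : (s : M) + t * w ^ 2 = 0 := by
      linear_combination hτ0 - hg1 + t * hw
    have h7 := hsum M w hw
    rw [hg1, hg2, zero_pow hp.ne_zero, add_zero] at h7
    have h8 : (q : ℤ) ∣ -(d ^ p) := (hz _).2 h7.symm
    rw [dvd_neg] at h8
    have hqZ : Prime (q : ℤ) := Nat.prime_iff_prime_int.1 hq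
    have h9 := hqZ.dvd_of_dvd_pow h8
    exact hqZ.not_isUnit (hhd.isUnit_of_dvd' hq2' h9)
  have hpf := hPF p h5 F ζ hζ s t (-(d ^ p)) hsum
  rw [hst] at hpf
  have hpf2 : (d : F) ^ (2 * p) = (((-(d ^ p) : ℤ)) : F) ^ 2 := by
    push_cast
    rw [neg_sq, ← pow_mul, mul_comm]
  exact hCASEC p h5 F ζ hζ J hJ hcl (2 * s - t) h d hd hτ h3d hpd (hpf2.trans hpf)

theorem no4 (hCONJ3 : S_CONJ3) (hLAM : S_LAM) (hVQ : S_VQ) (hPTH : S_PTH) (hHUP : S_HUP)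
    (hINIT : S_INIT) (hVALQ : S_VALQ) (hKCONG : S_KCONG) (hCJ : S_CJ) (hEIS : S_EIS) (hPF : S_PF)
    (hCASEC : S_CASEC) {p : ℕ} [Fact p.Prime] (h5 : 5 ≤ p)
    (hcl : (classNumber (CyclotomicField p ℚ)).Coprime p)
    {α β d h : ℤ} {m : ℕ} (hm : p = 2 * m + 1) (hα : α ≠ 0) (hβ : β ≠ 0) (hd : d ≠ 0) (hh : h ≠ 0)
    (hαd : IsCoprime α d) (hhd : IsCoprime h d) (h3d : ¬ (3 : ℤ) ∣ d) (h3h : ¬ (3 : ℤ) ∣ h)
    (h1 : α ^ p - d ^ p = 3 ^ m * β ^ p) (h2 : h ^ p - (d ^ 2) ^ p = 3 ^ (m + 1) * (α * β) ^ p) :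
    False := by
  have hp : p.Prime := Fact.out
  have hpZ : Prime (p : ℤ) := Nat.prime_iff_prime_int.1 hp
  have hodd : Odd p := hp.odd_of_ne_two (by omega)
  have : NeZero p := ⟨hp.ne_zero⟩
  have : NeZero ((p : ℕ) : ℚ) := ⟨Nat.cast_ne_zero.2 hp.ne_zero⟩
  have : IsCyclotomicExtension {p} ℚ (CyclotomicField p ℚ) :=
    CyclotomicField.isCyclotomicExtension p ℚ
  obtain ⟨ζ, hζ⟩ : ∃ ζ : CyclotomicField p ℚ, IsPrimitiveRoot ζ p :=
    ⟨_, IsCyclotomicExtension.zeta_spec p ℚ (CyclotomicField p ℚ)⟩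
  obtain ⟨J, hJ, -⟩ := hCJ p (CyclotomicField p ℚ) ζ hζ
  have g1 : α ^ p + (-d) ^ p = 3 ^ m * β ^ p := by rw [hodd.neg_pow, ← h1]; ring
  have g2 : h ^ p + (-(d ^ 2)) ^ p = 3 ^ (m + 1) * (α * β) ^ p := by rw [hodd.neg_pow, ← h2]; ring
  have hc1 : IsCoprime α (-d) := hαd.neg_right
  have hc2 : IsCoprime h (-(d ^ 2)) := (hhd.pow_right).neg_right
  by_cases hpβ : (p : ℤ) ∣ β
  · obtain ⟨i1, i2, m', hm', i3⟩ := hINIT p h5 (CyclotomicField p ℚ) ζ hζ α (-d) β m (by omega) hα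
      (neg_ne_zero.2 hd) hβ hc1 g1 hpβ
    refine descent2 hCONJ3 hLAM hVQ hPTH hHUP h5 hζ hJ hcl hm'
      (x := (α : CyclotomicField p ℚ) / ((-d : ℤ) : CyclotomicField p ℚ))
      ⟨?_, i1, fun v hv => (i2 v hv).le, i3⟩
    rw [map_div₀, map_intCast, map_intCast]
  by_cases hpα : (p : ℤ) ∣ α
  · obtain ⟨i1, i2, m', hm', i3⟩ := hINIT p h5 (CyclotomicField p ℚ) ζ hζ h (-(d ^ 2)) (α * β) (m + 1)
      (by omega) hh (neg_ne_zero.2 (pow_ne_zero _ hd)) (mul_ne_zero hα hβ) hc2 g2 (hpα.mul_right _)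
    refine descent2 hCONJ3 hLAM hVQ hPTH hHUP h5 hζ hJ hcl hm'
      (x := (h : CyclotomicField p ℚ) / ((-(d ^ 2) : ℤ) : CyclotomicField p ℚ))
      ⟨?_, i1, fun v hv => (i2 v hv).le, i3⟩
    rw [map_div₀, map_intCast, map_intCast]
  by_cases hpd : (p : ℤ) ∣ d
  · obtain ⟨m', x, hm', hx⟩ := caseC hEIS hPF hCASEC h5 hζ hJ hcl hd hαd hhd h3d h3h h1 h2 hpd
    exact descent2 hCONJ3 hLAM hVQ hPTH hHUP h5 hζ hJ hcl hm' hx
  · have hpd' : ¬ (p : ℤ) ∣ -d := by rwa [dvd_neg]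
    have hpd2 : ¬ (p : ℤ) ∣ -(d ^ 2) := by
      rw [dvd_neg]
      exact fun h => hpd (hpZ.dvd_of_dvd_pow h)
    have hpαβ : ¬ (p : ℤ) ∣ α * β := fun h => (hpZ.dvd_or_dvd h).elim hpα hpβ
    refine caseD hp h5 h1 h2 hpα ?_ fun hph => ?_
    · exact hKCONG p h5 (CyclotomicField p ℚ) ζ hζ hcl α (-d) hpα hpd'
        (hVALQ p h5 (CyclotomicField p ℚ) ζ hζ α (-d) β m (by omega) (neg_ne_zero.2 hd) hβ hc1 g1 hpβ)
    · exact hKCONG p h5 (CyclotomicField p ℚ) ζ hζ hcl h (-(d ^ 2)) hph hpd2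
        (hVALQ p h5 (CyclotomicField p ℚ) ζ hζ h (-(d ^ 2)) (α * β) (m + 1) (by omega)
          (neg_ne_zero.2 (pow_ne_zero _ hd)) (mul_ne_zero hα hβ) hc2 g2 hpαβ)

/-- the case `α ^ p + β ^ p ∈ ℚ` -/
theorem noAB4 (hROOT : S_ROOT) (hRED4 : S_RED4) {K : Type} [Field K] [NumberField K]
    (hK : Module.finrank ℚ K = 2) {p : ℕ} (hp : p.Prime) (h5 : 5 ≤ p)
    (hno1 : ∀ a b d : ℤ, a ≠ 0 → b ≠ 0 → d ≠ 0 → a ^ p + b ^ p ≠ d ^ p)
    (hno2 : ∀ (α β d h : ℤ) (m : ℕ), p = 2 * m + 1 → α ≠ 0 → β ≠ 0 → d ≠ 0 → h ≠ 0 →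
      IsCoprime α d → IsCoprime h d → ¬ (3 : ℤ) ∣ d → ¬ (3 : ℤ) ∣ h →
      α ^ p - d ^ p = 3 ^ m * β ^ p → h ^ p - (d ^ 2) ^ p = 3 ^ (m + 1) * (α * β) ^ p → False)
    {α β : K} (hα : α ≠ 0) (hβ : β ≠ 0)
    (h : α ^ (3 * p) + β ^ (3 * p) = 1) {c : ℚ} (hc : α ^ p + β ^ p = algebraMap ℚ K c) : False := by
  have h1 : (α ^ p) ^ 3 + (β ^ p) ^ 3 = 1 := by
    rw [← pow_mul, ← pow_mul, mul_comm p 3, h]
  have h2 : (algebraMap ℚ K c) ^ 3 - 3 * algebraMap ℚ K c * (α * β) ^ p = 1 := by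
    rw [← hc, mul_pow]
    linear_combination h1
  have hc0 : c ≠ 0 := by
    rintro rfl
    rw [map_zero] at h2
    simp at h2
  have hcK : algebraMap ℚ K c ≠ 0 := (map_ne_zero _).2 hc0
  have h3 : (α * β) ^ p = algebraMap ℚ K ((c ^ 3 - 1) / (3 * c)) := by
    rw [map_div₀, map_sub, map_pow, map_one, map_mul, map_ofNat (algebraMap ℚ K) 3]
    rw [eq_div_iff (mul_ne_zero three_ne_zero hcK)]
    linear_combination -h2
  obtain ⟨t, ht⟩ := hROOT K hK p hp h5 _ _ h3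
  have ht0 : t ≠ 0 := by
    rintro rfl
    rw [map_zero] at ht
    exact mul_ne_zero hα hβ ht
  have h4 : c ^ 3 - 3 * c * t ^ p = 1 := by
    apply (algebraMap ℚ K).injective
    rw [map_sub, map_mul, map_mul, map_pow, map_pow, map_one, map_ofNat (algebraMap ℚ K) 3, ← ht, h2]
  rcases hRED4 p hp h5 c t ht0 h4 with ⟨a, b, d, ha, hb, hd, h6⟩ |
    ⟨a, b, d, g, m, hm, ha, hb, hd, hg, k1, k2, k3, k4, k5, k6⟩
  · exact hno1 a b d ha hb hd h6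
  · exact hno2 a b d g m hm ha hb hd hg k1 k2 k3 k4 k5 k6

/-- **The main theorem.** -/
theorem mainCUB4 (hRED1 : S_RED1) (hROOT : S_ROOT) (hRED4 : S_RED4) {K : Type} [Field K]
    [NumberField K] (hK : Module.finrank ℚ K = 2) {p : ℕ} (hp : p.Prime) (h5 : 5 ≤ p)
    (hno1 : ∀ a b d : ℤ, a ≠ 0 → b ≠ 0 → d ≠ 0 → a ^ p + b ^ p ≠ d ^ p)
    (hno2 : ∀ (α β d h : ℤ) (m : ℕ), p = 2 * m + 1 → α ≠ 0 → β ≠ 0 → d ≠ 0 → h ≠ 0 →
      IsCoprime α d → IsCoprime h d → ¬ (3 : ℤ) ∣ d → ¬ (3 : ℤ) ∣ h →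
      α ^ p - d ^ p = 3 ^ m * β ^ p → h ^ p - (d ^ 2) ^ p = 3 ^ (m + 1) * (α * β) ^ p → False)
    {x y z : K} (hx : x ≠ 0) (hy : y ≠ 0)
    (hz : z ≠ 0) (h : x ^ (3 * p) + y ^ (3 * p) = z ^ (3 * p)) : False := by
  have hodd : Odd p := hp.odd_of_ne_two (by omega)
  have hodd3 : Odd (3 * p) := Odd.mul (by decide) hodd
  have hu : (x / z) ^ p ≠ 0 := pow_ne_zero _ (div_ne_zero hx hz)
  have hv : (y / z) ^ p ≠ 0 := pow_ne_zero _ (div_ne_zero hy hz)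
  have h1 : (x / z) ^ (3 * p) + (y / z) ^ (3 * p) = 1 := by
    rw [div_pow, div_pow, ← add_div, h, div_self (pow_ne_zero _ hz)]
  have h2 : ((x / z) ^ p) ^ 3 + ((y / z) ^ p) ^ 3 = 1 := by
    rw [← pow_mul, ← pow_mul, mul_comm p 3, h1]
  rcases hRED1 K hK _ _ hu hv h2 with ⟨c, hc⟩ | ⟨c, hc⟩ | ⟨c, hc⟩
  · exact noAB4 hROOT hRED4 hK hp h5 hno1 hno2 (div_ne_zero hx hz) (div_ne_zero hy hz) h1 hc
  · -- `z ^ n + (-y) ^ n = x ^ n`
    refine noAB4 hROOT hRED4 hK hp h5 hno1 hno2 (α := z / x) (β := -y / x) (div_ne_zero hz hx)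
      (div_ne_zero (neg_ne_zero.2 hy) hx) (c := c) ?_ ?_
    · rw [div_pow, div_pow, hodd3.neg_pow, ← add_div, ← h, div_eq_one_iff_eq (pow_ne_zero _ hx)]
      ring
    · have h3 : x ^ p ≠ 0 := pow_ne_zero _ hx
      have h4 : z ^ p ≠ 0 := pow_ne_zero _ hz
      rw [div_pow, div_pow] at hc
      rw [div_pow, div_pow, hodd.neg_pow, ← add_div, div_eq_iff h3]
      field_simp at hc
      linear_combination hc
  · refine noAB4 hROOT hRED4 hK hp h5 hno1 hno2 (α := z / y) (β := -x / y) (div_ne_zero hz hy)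
      (div_ne_zero (neg_ne_zero.2 hx) hy) (c := c) ?_ ?_
    · rw [div_pow, div_pow, hodd3.neg_pow, ← add_div, ← h, div_eq_one_iff_eq (pow_ne_zero _ hy)]
      ring
    · have h3 : y ^ p ≠ 0 := pow_ne_zero _ hy
      have h4 : z ^ p ≠ 0 := pow_ne_zero _ hz
      rw [div_pow, div_pow] at hc
      rw [div_pow, div_pow, hodd.neg_pow, ← add_div, div_eq_iff h3]
      field_simp at hc
      linear_combination hc

end Pool.Agent.H47C
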