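import Pool.Agent.H95C.Base

/-!
# Project CUB: choice of the indices

Let `F = ℚ(ζ_p)`, `x ∈ F` real and integral at the primes above `3`. Then there are two different
pairs `{ζ ^ i, ζ ^ (-i)}`, `{ζ ^ j, ζ ^ (-j)}` such that `x + ζ ^ (± i)` and `x + ζ ^ (± j)` are units
at all primes above `3`. Indeed at each prime above `3` at most one `x + ζ ^ k` is not a unit, there
are at most `(p - 1) / 3` primes above `3`, and the set of the bad `k` is symmetric.
-/

set_option autoImplicit false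
set_option linter.unusedSectionVars false

namespace Pool.Agent.H95C

open NumberField IsDedekindDomain WithZero Polynomial Pool.Agent.Y158.KL

lemma order_three {p : ℕ} (hp : p.Prime) (h5 : 5 ≤ p) : 3 ≤ orderOf ((3 : ℕ) : ZMod p) := by
  have : Fact p.Prime := ⟨hp⟩
  have h0 : ((3 : ℕ) : ZMod p) ≠ 0 := by
    intro h
    rw [ZMod.natCast_eq_zero_iff] at h
    have := Nat.le_of_dvd (by norm_num) h
    omega
  have hpos : 0 < orderOf ((3 : ℕ) : ZMod p) := by
    rw [orderOf_pos_iff, isOfFinOrder_iff_pow_eq_one]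
    exact ⟨p - 1, by omega, ZMod.pow_card_sub_one_eq_one h0⟩
  by_contra hcon
  have h2 : orderOf ((3 : ℕ) : ZMod p) ∣ 2 := by
    have : orderOf ((3 : ℕ) : ZMod p) = 1 ∨ orderOf ((3 : ℕ) : ZMod p) = 2 := by omega
    rcases this with h | h <;> rw [h]
    norm_num
  have h3 : ((3 : ℕ) : ZMod p) ^ 2 = 1 := orderOf_dvd_iff_pow_eq_one.1 h2
  have h4 : ((8 : ℕ) : ZMod p) = 0 := by
    push_cast at h3 ⊢
    linear_combination h3
  rw [ZMod.natCast_eq_zero_iff] at h4
  have h5' : p ∣ 2 ^ 3 := by simpa using h4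
  have := Nat.le_of_dvd (by norm_num) (hp.dvd_of_dvd_pow h5')
  omega

/-- the primes above `3` -/
def T3 (F : Type) [Field F] [NumberField F] : Set (HeightOneSpectrum (𝓞 F)) :=
  {P | (3 : 𝓞 F) ∈ P.asIdeal}

theorem card_T3 {p : ℕ} [hp : Fact p.Prime] (h5 : 5 ≤ p) (F : Type) [Field F] [NumberField F]
    [hF : IsCyclotomicExtension {p} ℚ F] : (T3 F).Finite ∧ 3 * (T3 F).ncard ≤ p - 1 := by
  have : Fact (Nat.Prime 3) := ⟨Nat.prime_three⟩
  have hNZ : NeZero p := ⟨hp.out.ne_zero⟩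
  have hG : IsGalois ℚ F := IsCyclotomicExtension.isGalois {p} ℚ F
  have h3p : ¬ 3 ∣ p := by
    intro h
    have := (Nat.prime_dvd_prime_iff_eq Nat.prime_three hp.out).1 h
    omega
  have hmain := Ideal.ncard_primesOver_mul_ramificationIdxIn_mul_inertiaDegIn
    (Ideal.span {((3 : ℕ) : ℤ)}) (𝓞 F) Gal(F/ℚ)
  rw [IsCyclotomicExtension.Rat.ramificationIdxIn_eq_of_not_dvd (m := p) 3 F h3p,
    IsCyclotomicExtension.Rat.inertiaDegIn_eq_of_not_dvd (m := p) 3 F h3p, one_mul,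
    IsGaloisGroup.card_eq_finrank Gal(F/ℚ) ℚ F, IsCyclotomicExtension.Rat.finrank p F,
    Nat.totient_prime hp.out] at hmain
  have hfin : (Ideal.primesOver (Ideal.span {((3 : ℕ) : ℤ)}) (𝓞 F)).Finite := by
    apply Set.finite_of_ncard_ne_zero
    intro h
    rw [h, zero_mul] at hmain
    omega
  have hmem : ∀ P ∈ T3 F, P.asIdeal ∈ Ideal.primesOver (Ideal.span {((3 : ℕ) : ℤ)}) (𝓞 F) := by
    intro P hP
    refine ⟨P.isPrime, ⟨?_⟩⟩
    have hmax : (Ideal.span {((3 : ℕ) : ℤ)}).IsMaximal :=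
      PrincipalIdealRing.isMaximal_of_irreducible (Nat.prime_iff_prime_int.1 Nat.prime_three).irreducible
    have hPp : (P.asIdeal.under ℤ).IsPrime := Ideal.IsPrime.under ℤ P.asIdeal
    refine hmax.eq_of_le hPp.ne_top ?_
    rw [Ideal.span_singleton_le_iff_mem, Ideal.mem_under]
    change algebraMap ℤ (𝓞 F) ((3 : ℕ) : ℤ) ∈ P.asIdeal
    have e : algebraMap ℤ (𝓞 F) ((3 : ℕ) : ℤ) = 3 := by simp
    rw [e]
    exact hP
  have hinj : Set.InjOn (fun P : HeightOneSpectrum (𝓞 F) => P.asIdeal) (T3 F) := by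
    intro P _ Q _ h
    exact HeightOneSpectrum.ext h
  have hTfin : (T3 F).Finite := Set.Finite.of_injOn (fun P hP => hmem P hP) hinj hfin
  refine ⟨hTfin, ?_⟩
  have hle : (T3 F).ncard ≤ (Ideal.primesOver (Ideal.span {((3 : ℕ) : ℤ)}) (𝓞 F)).ncard :=
    Set.ncard_le_ncard_of_injOn _ (fun P hP => hmem P hP) hinj hfin
  have hord := order_three hp.out h5
  calc 3 * (T3 F).ncard ≤ orderOf ((3 : ℕ) : ZMod p) *
        (Ideal.primesOver (Ideal.span {((3 : ℕ) : ℤ)}) (𝓞 F)).ncard := Nat.mul_le_mul hord hle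
    _ = p - 1 := by rw [mul_comm]; exact hmain

section

variable {F : Type} [Field F] [NumberField F]

/-- the image of a prime under an automorphism -/
noncomputable def conjP (J : F ≃ₐ[ℚ] F) (Q : HeightOneSpectrum (𝓞 F)) :
    HeightOneSpectrum (𝓞 F) where
  asIdeal := Q.asIdeal.comap (RingOfIntegers.mapRingHom (J.symm : F →+* F))
  isPrime := Q.isPrime.comap _
  ne_bot := by
    obtain ⟨q, hq, hq0⟩ := Submodule.exists_mem_ne_zero_of_ne_bot Q.ne_bot
    intro h
    have h1 : RingOfIntegers.mapRingHom (J : F →+* F) q ∈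
        Q.asIdeal.comap (RingOfIntegers.mapRingHom (J.symm : F →+* F)) := by
      rw [Ideal.mem_comap]
      have e : RingOfIntegers.mapRingHom (J.symm : F →+* F)
          (RingOfIntegers.mapRingHom (J : F →+* F) q) = q := by
        apply RingOfIntegers.ext
        exact J.symm_apply_apply _
      rw [e]
      exact hq
    rw [h, Ideal.mem_bot] at h1
    apply hq0
    have h2 := congrArg (algebraMap (𝓞 F) F) h1
    rw [map_zero] at h2
    have h3 : J (algebraMap (𝓞 F) F q) = 0 := h2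
    have h4 : algebraMap (𝓞 F) F q = 0 := (map_eq_zero J).1 h3
    exact (map_eq_zero_iff _ (FaithfulSMul.algebraMap_injective (𝓞 F) F)).1 h4

lemma conjP_mem {J : F ≃ₐ[ℚ] F} {Q : HeightOneSpectrum (𝓞 F)} {α : 𝓞 F} :
    RingOfIntegers.mapRingHom (J : F →+* F) α ∈ (conjP J Q).asIdeal ↔ α ∈ Q.asIdeal := by
  change RingOfIntegers.mapRingHom (J : F →+* F) α ∈
    Q.asIdeal.comap (RingOfIntegers.mapRingHom (J.symm : F →+* F)) ↔ _
  rw [Ideal.mem_comap]
  have e : RingOfIntegers.mapRingHom (J.symm : F →+* F)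
      (RingOfIntegers.mapRingHom (J : F →+* F) α) = α := by
    apply RingOfIntegers.ext
    exact J.symm_apply_apply _
  rw [e]

lemma conjP_lt {J : F ≃ₐ[ℚ] F} {Q : HeightOneSpectrum (𝓞 F)} {y : F}
    (hy : Q.valuation F y < 1) : (conjP J Q).valuation F (J y) < 1 := by
  obtain ⟨n, ⟨d, hd⟩, hnd⟩ := Q.exists_primeCompl_mul_eq_of_integer y hy.le
  have hd1 : d ∉ Q.asIdeal := hd
  have h1 : Q.valuation F (algebraMap (𝓞 F) F d) = 1 := by
    refine le_antisymm (Q.valuation_le_one _) (not_lt.1 fun h => hd1 ?_)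
    exact (Q.valuation_lt_one_iff_mem d).1 h
  have hn : n ∈ Q.asIdeal := by
    refine (Q.valuation_lt_one_iff_mem (K := F) n).1 ?_
    have h5 : Q.valuation F (algebraMap (𝓞 F) F n) < 1 := by
      rw [← hnd, map_mul]
      change _ * Q.valuation F (algebraMap (𝓞 F) F d) < 1
      rwa [h1, mul_one]
    exact h5
  have h2 : J y * algebraMap (𝓞 F) F (RingOfIntegers.mapRingHom (J : F →+* F) d) =
      algebraMap (𝓞 F) F (RingOfIntegers.mapRingHom (J : F →+* F) n) := by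
    change J y * J (algebraMap (𝓞 F) F d) = J (algebraMap (𝓞 F) F n)
    rw [← map_mul]
    exact congrArg J hnd
  have h3 : (conjP J Q).valuation F
      (algebraMap (𝓞 F) F (RingOfIntegers.mapRingHom (J : F →+* F) d)) = 1 := by
    refine le_antisymm ((conjP J Q).valuation_le_one _) (not_lt.1 fun h => ?_)
    exact hd1 (conjP_mem.1 (((conjP J Q).valuation_lt_one_iff_mem _).1 h))
  have h4 : (conjP J Q).valuation F
      (algebraMap (𝓞 F) F (RingOfIntegers.mapRingHom (J : F →+* F) n)) < 1 :=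
    ((conjP J Q).valuation_lt_one_iff_mem _).2 (conjP_mem.2 hn)
  rw [← h2, map_mul, h3, mul_one] at h4
  exact h4

lemma T3_conj {J : F ≃ₐ[ℚ] F} {Q : HeightOneSpectrum (𝓞 F)} (hQ : Q ∈ T3 F) :
    conjP J Q ∈ T3 F := by
  have h : RingOfIntegers.mapRingHom (J : F →+* F) 3 ∈ (conjP J Q).asIdeal := conjP_mem.2 hQ
  rw [map_ofNat] at h
  exact h

end

end Pool.Agent.H95C

namespace Pool.Agent.H47C

open NumberField IsDedekindDomain WithZero Polynomial Pool.Agent.Y158.KL Pool.Agent.H95C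

theorem mainIDX (p : ℕ) [Fact p.Prime] (h5 : 5 ≤ p) (F : Type) [Field F] [NumberField F]
    [IsCyclotomicExtension {p} ℚ F] (ζ : F) (hζ : IsPrimitiveRoot ζ p) (J : F ≃ₐ[ℚ] F)
    (hJ : J ζ = ζ⁻¹) (x : F) (hx : J x = x)
    (hx3 : ∀ P : HeightOneSpectrum (𝓞 F), (3 : 𝓞 F) ∈ P.asIdeal → P.valuation F x ≤ 1) :
    ∃ i j : ℕ, 0 < i ∧ i < p ∧ 0 < j ∧ j < p ∧ i ≠ j ∧ i + j ≠ p ∧
      ∀ P : HeightOneSpectrum (𝓞 F), (3 : 𝓞 F) ∈ P.asIdeal →
        P.valuation F (x + ζ ^ i) = 1 ∧ P.valuation F (x + ζ ^ (p - i)) = 1 ∧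
        P.valuation F (x + ζ ^ j) = 1 ∧ P.valuation F (x + ζ ^ (p - j)) = 1 := by
  classical
  have hp : p.Prime := Fact.out
  have hNZ : NeZero p := ⟨hp.ne_zero⟩
  obtain ⟨hfin, hcard⟩ := card_T3 (p := p) h5 F
  have hζ0 : ζ ≠ 0 := hζ.ne_zero hp.ne_zero
  have hroot : ∀ i : ℕ, (ζ ^ i) ^ p = 1 := by
    intro i
    rw [← pow_mul, mul_comm, pow_mul, hζ.pow_eq_one, one_pow]
  have h3p : ∀ P ∈ T3 F, ((p : ℕ) : 𝓞 F) ∉ P.asIdeal := by
    intro P hP h
    apply P.isPrime.ne_top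
    rw [Ideal.eq_top_iff_one]
    have hcop : IsCoprime (p : ℤ) 3 := by
      have h7 : IsCoprime (p : ℤ) ((3 : ℕ) : ℤ) := by
        rw [Nat.isCoprime_iff_coprime, hp.coprime_iff_not_dvd]
        intro h
        exact absurd (Nat.le_of_dvd (by norm_num) h) (by omega)
      exact_mod_cast h7
    obtain ⟨a, b, hab⟩ := hcop
    have h6 : (1 : 𝓞 F) = (a : 𝓞 F) * ((p : ℕ) : 𝓞 F) + (b : 𝓞 F) * 3 := by
      have := congrArg (fun t : ℤ => (t : 𝓞 F)) hab
      push_cast at this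
      exact this.symm
    rw [h6]
    exact P.asIdeal.add_mem (P.asIdeal.mul_mem_left _ h) (P.asIdeal.mul_mem_left _ hP)
  -- the bad indices
  set B : Finset (ZMod p) :=
    Finset.univ.filter fun k => ∃ P ∈ T3 F, P.valuation F (x + ζ ^ k.val) < 1 with hB
  have hBmem : ∀ k : ZMod p, k ∈ B ↔ ∃ P ∈ T3 F, P.valuation F (x + ζ ^ k.val) < 1 := by
    intro k
    rw [hB, Finset.mem_filter]
    exact ⟨fun h => h.2, fun h => ⟨Finset.mem_univ _, h⟩⟩
  have hBcard : B.card ≤ (T3 F).ncard := by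
    have hch : ∀ k : ZMod p, ∃ P : HeightOneSpectrum (𝓞 F), k ∈ B →
        P ∈ T3 F ∧ P.valuation F (x + ζ ^ k.val) < 1 := by
      intro k
      by_cases hk : k ∈ B
      · obtain ⟨P, hP, h⟩ := (hBmem k).1 hk
        exact ⟨P, fun _ => ⟨hP, h⟩⟩
      · exact ⟨lam hζ, fun h => absurd h hk⟩
    choose Φ hΦ using hch
    rw [Set.ncard_eq_toFinset_card _ hfin]
    refine Finset.card_le_card_of_injOn Φ (fun k hk => ?_) (fun k hk l hl hkl => ?_)
    · rw [Finset.mem_coe, Set.Finite.mem_toFinset]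
      exact (hΦ k hk).1
    · by_contra hne
      have h1 := (hΦ k hk).2
      have h2 := (hΦ l hl).2
      rw [← hkl] at h2
      have h3 : (Φ k).valuation F (ζ ^ k.val - ζ ^ l.val) < 1 := by
        have e : ζ ^ k.val - ζ ^ l.val = (x + ζ ^ k.val) - (x + ζ ^ l.val) := by ring
        rw [e]
        exact Valuation.map_sub_lt _ h1 h2
      have h4 : ζ ^ k.val ≠ ζ ^ l.val := by
        intro h
        apply hne
        exact ZMod.val_injective p (hζ.pow_inj (ZMod.val_lt k) (ZMod.val_lt l) h)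
      rw [val_diff hζ _ (hroot _) (hroot _) h4, pi_unit hζ (h3p _ (hΦ k hk).1)] at h3
      exact lt_irrefl _ h3
  have hBneg : ∀ k : ZMod p, k ∈ B → -k ∈ B := by
    intro k hk
    obtain ⟨P, hP, h⟩ := (hBmem k).1 hk
    rw [hBmem]
    refine ⟨conjP J P, T3_conj hP, ?_⟩
    have h1 := conjP_lt (J := J) h
    rw [map_add, hx, map_pow, hJ] at h1
    have e : ζ⁻¹ ^ k.val = ζ ^ (-k).val := by
      rw [inv_pow, inv_eq_iff_eq_inv, eq_comm]
      refine inv_eq_of_mul_eq_one_right ?_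
      rw [← pow_add, hζ.pow_eq_one_iff_dvd, ← ZMod.natCast_eq_zero_iff]
      push_cast
      rw [ZMod.natCast_zmod_val, ZMod.natCast_zmod_val]
      ring
    rw [← e]
    exact h1
  -- the good indices
  set G : Finset (ZMod p) := Finset.univ \ (insert 0 B) with hG
  have hGcard : 3 ≤ G.card := by
    rw [hG, Finset.card_sdiff_of_subset (Finset.subset_univ _), Finset.card_univ, ZMod.card]
    have h1 := Finset.card_insert_le (0 : ZMod p) B
    omega
  have hGmem : ∀ k ∈ G, k ≠ 0 ∧ k ∉ B ∧ -k ∉ B := by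
    intro k hk
    rw [hG, Finset.mem_sdiff, Finset.mem_insert, not_or] at hk
    refine ⟨hk.2.1, hk.2.2, fun h => hk.2.2 ?_⟩
    have := hBneg _ h
    rwa [neg_neg] at this
  obtain ⟨i, hi⟩ : ∃ i, i ∈ G := Finset.card_pos.1 (by omega)
  obtain ⟨j, hj, hj2⟩ : ∃ j ∈ G, j ∉ ({i, -i} : Finset (ZMod p)) := by
    by_contra hcon
    push Not at hcon
    have h1 : G ⊆ {i, -i} := hcon
    have h2 := Finset.card_le_card h1
    have h3 := Finset.card_le_two (a := i) (b := -i)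
    omega
  rw [Finset.mem_insert, Finset.mem_singleton, not_or] at hj2
  have hgood : ∀ k ∈ G, ∀ P : HeightOneSpectrum (𝓞 F), (3 : 𝓞 F) ∈ P.asIdeal →
      P.valuation F (x + ζ ^ k.val) = 1 ∧ P.valuation F (x + ζ ^ (p - k.val)) = 1 := by
    intro k hk P hP
    obtain ⟨h0, h1, h2⟩ := hGmem k hk
    have hle : ∀ n : ℕ, P.valuation F (x + ζ ^ n) ≤ 1 := fun n =>
      Valuation.map_add_le _ (hx3 P hP) (val_root P (hroot n)).le
    have hval : (-k).val = p - k.val := by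
      rw [ZMod.neg_val, if_neg h0]
    refine ⟨le_antisymm (hle _) (not_lt.1 fun h => h1 ((hBmem k).2 ⟨P, hP, h⟩)),
      le_antisymm (hle _) (not_lt.1 fun h => h2 ((hBmem _).2 ⟨P, hP, ?_⟩))⟩
    rw [hval]
    exact h
  have hpos : ∀ k ∈ G, 0 < k.val := by
    intro k hk
    have h0 := (hGmem k hk).1
    have : k.val ≠ 0 := fun h => h0 ((ZMod.val_eq_zero k).1 h)
    omega
  refine ⟨i.val, j.val, hpos i hi, ZMod.val_lt i, hpos j hj, ZMod.val_lt j, ?_, ?_, ?_⟩
  · intro h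
    exact hj2.1 (ZMod.val_injective p h).symm
  · intro h
    apply hj2.2
    have h1 : ((i.val + j.val : ℕ) : ZMod p) = 0 := by rw [h, ZMod.natCast_self]
    push_cast at h1
    rw [ZMod.natCast_zmod_val, ZMod.natCast_zmod_val] at h1
    linear_combination h1
  · intro P hP
    exact ⟨(hgood i hi P hP).1, (hgood i hi P hP).2, (hgood j hj P hP).1, (hgood j hj P hP).2⟩

end Pool.Agent.H47C
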