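import Pool.Agent.H47C.Asm
import Pool.Agent.H47C.IDX
import Mathlib.NumberTheory.Height.NumberField

/-!
# Project CUB: the descent with a choice of the indices (no condition on the order of `3`)
-/

set_option autoImplicit false

namespace Pool.Agent.H47C

open NumberField IsDedekindDomain Pool.Agent.H47T

theorem stepG (hLAM : S_LAM) (hVQ : S_VQ) (hPTH : S_PTH) {p : ℕ}
    [Fact p.Prime] (h5 : 5 ≤ p) {F : Type} [Field F] [NumberField F]
    [IsCyclotomicExtension {p} ℚ F] {ζ : F} (hζ : IsPrimitiveRoot ζ p) {J : F ≃ₐ[ℚ] F}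
    (hJ : J ζ = ζ⁻¹) (hcl : (classNumber F).Coprime p)
    {m : ℕ} (hm : 2 ≤ m) {x : F} (hx : State p J m x) :
    ∃ (i j : ℕ) (y : F), i < p ∧ j < p ∧ State p J (2 * (m - 1)) y ∧
      y ^ p = (-((1 - ζ ^ j) * (1 - ζ ^ (p - j))) / ((1 - ζ ^ i) * (1 - ζ ^ (p - i)))) *
        ((x + ζ ^ i) * (x + ζ ^ (p - i))) / ((x + ζ ^ j) * (x + ζ ^ (p - j))) := by
  have hp : p.Prime := Fact.out
  obtain ⟨hJx, hx1, hx2, hx3⟩ := hx
  have hodd : Odd p := hp.odd_of_ne_two (by omega)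
  have hζ0 : ζ ≠ 0 := hζ.ne_zero hp.ne_zero
  obtain ⟨i, j, hi0, hip, hj0, hjp, hij, hijp, hidx⟩ := mainIDX p h5 F ζ hζ J hJ x hJx hx2
  have hd1 : ¬ p ∣ i := fun h => by have := Nat.le_of_dvd hi0 h; omega
  have hd2 : ¬ p ∣ j := fun h => by have := Nat.le_of_dvd hj0 h; omega
  have hdp1 : ¬ p ∣ p - i := fun h => by have := Nat.le_of_dvd (by omega) h; omega
  have hdp2 : ¬ p ∣ p - j := fun h => by have := Nat.le_of_dvd (by omega) h; omega
  have hds : ¬ p ∣ i + j := by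
    rintro ⟨c, hc⟩
    have h1 : c < 2 := by
      by_contra h
      have : p * 2 ≤ p * c := Nat.mul_le_mul_left p (by omega)
      omega
    interval_cases c <;> omega
  have hdd : ¬ p ∣ j + (p - i) := by
    rintro ⟨c, hc⟩
    have h1 : c < 2 := by
      by_contra h
      have : p * 2 ≤ p * c := Nat.mul_le_mul_left p (by omega)
      omega
    interval_cases c <;> omega
  obtain ⟨z1, hz1⟩ : ∃ z, z = ζ ^ i := ⟨_, rfl⟩
  obtain ⟨w1, hw1⟩ : ∃ z, z = ζ ^ (p - i) := ⟨_, rfl⟩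
  obtain ⟨z2, hz2⟩ : ∃ z, z = ζ ^ j := ⟨_, rfl⟩
  obtain ⟨w2, hw2⟩ : ∃ z, z = ζ ^ (p - j) := ⟨_, rfl⟩
  have hzw : ∀ k : ℕ, k < p → ζ ^ k * ζ ^ (p - k) = 1 := by
    intro k hk
    rw [← pow_add, show k + (p - k) = p by omega, hζ.pow_eq_one]
  have hzw1 : z1 * w1 = 1 := by rw [hz1, hw1, hzw i hip]
  have hzw2 : z2 * w2 = 1 := by rw [hz2, hw2, hzw j hjp]
  have hJz : ∀ k : ℕ, k < p → J (ζ ^ k) = ζ ^ (p - k) := by
    intro k hk
    have h1 : ζ ^ k ≠ 0 := pow_ne_zero _ hζ0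
    apply mul_left_cancel₀ h1
    rw [hzw k hk, map_pow, hJ, ← mul_pow, mul_inv_cancel₀ hζ0, one_pow]
  have hJw : ∀ k : ℕ, k < p → J (ζ ^ (p - k)) = ζ ^ k := by
    intro k hk
    have h1 : J (ζ ^ k) * J (ζ ^ (p - k)) = 1 := by rw [← map_mul, hzw k hk, map_one]
    rw [hJz k hk] at h1
    have h2 : ζ ^ (p - k) ≠ 0 := pow_ne_zero _ hζ0
    apply mul_left_cancel₀ h2
    rw [h1, mul_comm, hzw k hk]
  have hJz1 : J z1 = w1 := by rw [hz1, hw1, hJz i hip]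
  have hJw1 : J w1 = z1 := by rw [hz1, hw1, hJw i hip]
  have hJz2 : J z2 = w2 := by rw [hz2, hw2, hJz j hjp]
  have hJw2 : J w2 = z2 := by rw [hz2, hw2, hJw j hjp]
  obtain ⟨P, hP⟩ := exists_above F hp
  have hL := fun P hP => hLAM p h5 F ζ hζ J hJ P hP x hJx m hm (hx3 P hP)
  -- the elements
  obtain ⟨a1, ha1⟩ : ∃ a, a = (x + z1) * (x + w1) := ⟨_, rfl⟩
  obtain ⟨a2, ha2⟩ : ∃ a, a = (x + z2) * (x + w2) := ⟨_, rfl⟩
  obtain ⟨l1, hl1⟩ : ∃ a, a = (1 - z1) * (1 - w1) := ⟨_, rfl⟩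
  obtain ⟨l2, hl2⟩ : ∃ a, a = (1 - z2) * (1 - w2) := ⟨_, rfl⟩
  have hdiff : l1 - l2 = w2 * ((1 - ζ ^ (i + j)) * (1 - ζ ^ (j + (p - i)))) := by
    rw [pow_add, pow_add, ← hz1, ← hz2, ← hw1, hl1, hl2]
    linear_combination (1 - z2 ^ 2 * w2) * hzw1 + (w1 + z1 - 1 - z2) * hzw2
  have hvz : ∀ v : HeightOneSpectrum (𝓞 F), v.valuation F w2 = 1 := by
    intro v
    have h1 : v.valuation F w2 ^ p = 1 := by
      rw [← map_pow, hw2, ← pow_mul, mul_comm, pow_mul, hζ.pow_eq_one, one_pow, map_one]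
    exact (pow_eq_one_iff_of_nonneg zero_le hp.ne_zero).1 h1
  -- valuations at the primes above `p`
  have pa1 : ∀ P : HeightOneSpectrum (𝓞 F), ((p : ℕ) : 𝓞 F) ∈ P.asIdeal →
      P.valuation F a1 = WithZero.exp (-2) := by
    intro P hP
    rw [ha1, map_mul, hz1, hw1, ((hL P hP).2 i hd1).1, ((hL P hP).2 (p - i) hdp1).1,
      ← WithZero.exp_add]
    norm_num
  have pa2 : ∀ P : HeightOneSpectrum (𝓞 F), ((p : ℕ) : 𝓞 F) ∈ P.asIdeal →
      P.valuation F a2 = WithZero.exp (-2) := by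
    intro P hP
    rw [ha2, map_mul, hz2, hw2, ((hL P hP).2 j hd2).1, ((hL P hP).2 (p - j) hdp2).1,
      ← WithZero.exp_add]
    norm_num
  have pl1 : ∀ P : HeightOneSpectrum (𝓞 F), ((p : ℕ) : 𝓞 F) ∈ P.asIdeal →
      P.valuation F l1 = WithZero.exp (-2) := by
    intro P hP
    rw [hl1, map_mul, hz1, hw1, ((hL P hP).2 i hd1).2, ((hL P hP).2 (p - i) hdp1).2,
      ← WithZero.exp_add]
    norm_num
  have pl2 : ∀ P : HeightOneSpectrum (𝓞 F), ((p : ℕ) : 𝓞 F) ∈ P.asIdeal →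
      P.valuation F l2 = WithZero.exp (-2) := by
    intro P hP
    rw [hl2, map_mul, hz2, hw2, ((hL P hP).2 j hd2).2, ((hL P hP).2 (p - j) hdp2).2,
      ← WithZero.exp_add]
    norm_num
  have pdf : ∀ P : HeightOneSpectrum (𝓞 F), ((p : ℕ) : 𝓞 F) ∈ P.asIdeal →
      P.valuation F (l1 - l2) = WithZero.exp (-2) := by
    intro P hP
    rw [hdiff, map_mul, map_mul, hvz, ((hL P hP).2 _ hds).2, ((hL P hP).2 _ hdd).2,
      ← WithZero.exp_add]
    norm_num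
  -- outside `p`
  have ql1 : ∀ v : HeightOneSpectrum (𝓞 F), ((p : ℕ) : 𝓞 F) ∉ v.asIdeal →
      v.valuation F l1 = 1 := by
    intro v hv
    rw [hl1, map_mul, hz1, hw1, val_one_sub hp hζ v hv hd1, val_one_sub hp hζ v hv hdp1, one_mul]
  have ql2 : ∀ v : HeightOneSpectrum (𝓞 F), ((p : ℕ) : 𝓞 F) ∉ v.asIdeal →
      v.valuation F l2 = 1 := by
    intro v hv
    rw [hl2, map_mul, hz2, hw2, val_one_sub hp hζ v hv hd2, val_one_sub hp hζ v hv hdp2, one_mul]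
  have qdf : ∀ v : HeightOneSpectrum (𝓞 F), ((p : ℕ) : 𝓞 F) ∉ v.asIdeal →
      v.valuation F (l1 - l2) = 1 := by
    intro v hv
    rw [hdiff, map_mul, map_mul, hvz, val_one_sub hp hζ v hv hds, val_one_sub hp hζ v hv hdd,
      one_mul, one_mul]
  have hne : ∀ a : F, P.valuation F a = WithZero.exp (-2) → a ≠ 0 := by
    rintro a h rfl
    rw [map_zero] at h
    exact WithZero.exp_ne_zero h.symm
  have a1ne := hne a1 (pa1 P hP)
  have a2ne := hne a2 (pa2 P hP)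
  have l1ne := hne l1 (pl1 P hP)
  have l2ne := hne l2 (pl2 P hP)
  -- the element `r`
  obtain ⟨r, hr⟩ : ∃ r, r = a1 * l2 / (a2 * l1) := ⟨_, rfl⟩
  have r0 : r ≠ 0 := by
    rw [hr]
    exact div_ne_zero (mul_ne_zero a1ne l2ne) (mul_ne_zero a2ne l1ne)
  have h1r : 1 - r = (x + 1) ^ 2 * (l1 - l2) / (a2 * l1) := by
    have e1 : a1 = (x + 1) ^ 2 - l1 * x := by
      rw [ha1, hl1]
      linear_combination (1 + x) * hzw1
    have e2 : a2 = (x + 1) ^ 2 - l2 * x := by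
      rw [ha2, hl2]
      linear_combination (1 + x) * hzw2
    rw [hr]
    field_simp
    linear_combination l1 * e2 - l2 * e1
  have hJr : J r = r := by
    have e1 : J a1 = a1 := by rw [ha1, map_mul, map_add, map_add, hJx, hJz1, hJw1, mul_comm]
    have e2 : J a2 = a2 := by rw [ha2, map_mul, map_add, map_add, hJx, hJz2, hJw2, mul_comm]
    have e3 : J l1 = l1 := by rw [hl1, map_mul, map_sub, map_sub, map_one, hJz1, hJw1, mul_comm]
    have e4 : J l2 = l2 := by rw [hl2, map_mul, map_sub, map_sub, map_one, hJz2, hJw2, mul_comm]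
    rw [hr, map_div₀, map_mul, map_mul, e1, e2, e3, e4]
  have hmP : ∀ P : HeightOneSpectrum (𝓞 F), ((p : ℕ) : 𝓞 F) ∈ P.asIdeal →
      P.valuation F (1 - r) = WithZero.exp (-((2 * (m - 1) * p : ℕ) : ℤ)) := by
    intro P hP
    rw [h1r, map_div₀, map_mul, map_mul, map_pow, (hL P hP).1, pdf P hP, pa2 P hP, pl1 P hP,
      ← WithZero.exp_nsmul, ← WithZero.exp_add, ← WithZero.exp_add, ← WithZero.exp_sub]
    congr 1
    simp only [nsmul_eq_mul]
    push_cast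
    ring
  -- the valuations of `r`
  have h3p : ∀ v : HeightOneSpectrum (𝓞 F), (3 : 𝓞 F) ∈ v.asIdeal →
      ((p : ℕ) : 𝓞 F) ∉ v.asIdeal := by
    intro v hv3 hvp
    have h1 := Nat.isCoprime_iff_coprime.2
      ((Nat.coprime_primes hp Nat.prime_three).2 (by omega))
    obtain ⟨a, b, hab⟩ := h1
    apply v.isPrime.ne_top
    rw [Ideal.eq_top_iff_one]
    have h2 : (1 : 𝓞 F) = (a : 𝓞 F) * ((p : ℕ) : 𝓞 F) + (b : 𝓞 F) * 3 := by
      have h3 : ((a * (p : ℤ) + b * ((3 : ℕ) : ℤ) : ℤ) : 𝓞 F) = ((1 : ℤ) : 𝓞 F) := by rw [hab]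
      push_cast at h3
      exact h3.symm
    rw [h2]
    exact Ideal.add_mem _ (Ideal.mul_mem_left _ _ hvp) (Ideal.mul_mem_left _ _ hv3)
  have hvr3 : ∀ v : HeightOneSpectrum (𝓞 F), (3 : 𝓞 F) ∈ v.asIdeal → v.valuation F r = 1 := by
    intro v hv3
    obtain ⟨c1, c2, c3, c4⟩ := hidx v hv3
    have e1 : v.valuation F a1 = 1 := by
      rw [ha1, map_mul, hz1, hw1, c1, c2, one_mul]
    have e2 : v.valuation F a2 = 1 := by
      rw [ha2, map_mul, hz2, hw2, c3, c4, one_mul]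
    rw [hr, map_div₀, map_mul, map_mul, e1, e2, ql1 v (h3p v hv3), ql2 v (h3p v hv3), one_mul,
      div_one]
  have hmul : ∀ (v : HeightOneSpectrum (𝓞 F)) (b c : F),
      (∃ n : ℤ, v.valuation F b = WithZero.exp ((p : ℤ) * n)) →
      (∃ n : ℤ, v.valuation F c = WithZero.exp ((p : ℤ) * n)) →
      ∃ n : ℤ, v.valuation F (b * c) = WithZero.exp ((p : ℤ) * n) := by
    rintro v b c ⟨n, hn⟩ ⟨n', hn'⟩
    refine ⟨n + n', ?_⟩
    rw [map_mul, hn, hn', ← WithZero.exp_add]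
    congr 1
    ring
  have hdiv : ∀ (v : HeightOneSpectrum (𝓞 F)) (b c : F),
      (∃ n : ℤ, v.valuation F b = WithZero.exp ((p : ℤ) * n)) →
      (∃ n : ℤ, v.valuation F c = WithZero.exp ((p : ℤ) * n)) →
      ∃ n : ℤ, v.valuation F (b / c) = WithZero.exp ((p : ℤ) * n) := by
    rintro v b c ⟨n, hn⟩ ⟨n', hn'⟩
    refine ⟨n - n', ?_⟩
    rw [map_div₀, hn, hn', ← WithZero.exp_sub]
    congr 1
    ring
  have hone : ∀ (v : HeightOneSpectrum (𝓞 F)) (b : F), v.valuation F b = 1 →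
      ∃ n : ℤ, v.valuation F b = WithZero.exp ((p : ℤ) * n) := by
    intro v b hb
    exact ⟨0, by rw [hb, mul_zero, WithZero.exp_zero]⟩
  have hEv : EvL p r := by
    intro v
    by_cases hv : ((p : ℕ) : 𝓞 F) ∈ v.asIdeal
    · apply hone
      rw [hr, map_div₀, map_mul, map_mul, pa1 v hv, pa2 v hv, pl1 v hv, pl2 v hv,
        div_self (mul_ne_zero WithZero.exp_ne_zero WithZero.exp_ne_zero)]
    · by_cases hv3 : (3 : 𝓞 F) ∈ v.asIdeal
      · exact hone v r (hvr3 v hv3)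
      · have hq := hVQ p h5 F ζ hζ v hv x (hx1 v hv hv3)
        rcases le_or_gt (v.valuation F x) 1 with hx | hx
        · rw [hr]
          refine hdiv v _ _ (hmul v _ _ ?_ (hone v _ (ql2 v hv))) (hmul v _ _ ?_ (hone v _ (ql1 v hv)))
          · rw [ha1, hz1, hw1]
            exact hmul v _ _ ((hq i).1 hx) ((hq (p - i)).1 hx)
          · rw [ha2, hz2, hw2]
            exact hmul v _ _ ((hq j).1 hx) ((hq (p - j)).1 hx)
        · apply hone
          have hx0 : v.valuation F x ≠ 0 := (zero_lt_one.trans hx).ne'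
          rw [hr, map_div₀, map_mul, map_mul, ql1 v hv, ql2 v hv, mul_one, mul_one, ha1, ha2,
            map_mul, map_mul, hz1, hw1, hz2, hw2, (hq i).2 hx, (hq (p - i)).2 hx, (hq j).2 hx,
            (hq (p - j)).2 hx, div_self (mul_ne_zero hx0 hx0)]
  obtain ⟨y, hy, hJy⟩ := hPTH p h5 F ζ hζ J hJ hcl r r0 hEv hJr (fun P hP => by
    rw [← Valuation.map_neg, neg_sub, hmP P hP, WithZero.exp_le_exp]
    have h1 : p ≤ 2 * (m - 1) * p := Nat.le_mul_of_pos_left p (by omega)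
    have h2 : (p : ℤ) ≤ ((2 * (m - 1) * p : ℕ) : ℤ) := by exact_mod_cast h1
    omega)
  have hy1 : (-y) ^ p + 1 = 1 - r := by
    rw [hodd.neg_pow, hy]
    ring
  refine ⟨i, j, -y, hip, hjp, ⟨by rw [map_neg, hJy], fun v hv hv3 => ?_, fun v hv3 => ?_, fun P hP => ?_⟩, ?_⟩
  · rw [hy1, h1r]
    have hq := hVQ p h5 F ζ hζ v hv x (hx1 v hv hv3)
    have hq0 := hq 0
    rw [pow_zero] at hq0
    rcases le_or_gt (v.valuation F x) 1 with hx | hx
    · refine hdiv v _ _ (hmul v _ _ ?_ (hone v _ (qdf v hv))) (hmul v _ _ ?_ (hone v _ (ql1 v hv)))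
      · rw [pow_two]
        exact hmul v _ _ (hq0.1 hx) (hq0.1 hx)
      · rw [ha2, hz2, hw2]
        exact hmul v _ _ ((hq j).1 hx) ((hq (p - j)).1 hx)
    · apply hone
      have hx0 : v.valuation F x ≠ 0 := (zero_lt_one.trans hx).ne'
      rw [map_div₀, map_mul, map_mul, ql1 v hv, qdf v hv, mul_one, mul_one, ha2, map_mul, map_pow,
        hz2, hw2, hq0.2 hx, (hq j).2 hx, (hq (p - j)).2 hx, pow_two,
        div_self (mul_ne_zero hx0 hx0)]
  · rw [Valuation.map_neg]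
    have h1 : v.valuation F y ^ p = 1 := by rw [← map_pow, hy, hvr3 v hv3]
    exact ((pow_eq_one_iff_of_nonneg zero_le hp.ne_zero).1 h1).le
  · rw [hy1, hmP P hP]
  · have hR : (-((1 - ζ ^ j) * (1 - ζ ^ (p - j))) / ((1 - ζ ^ i) * (1 - ζ ^ (p - i)))) *
        ((x + ζ ^ i) * (x + ζ ^ (p - i))) / ((x + ζ ^ j) * (x + ζ ^ (p - j))) =
          -l2 / l1 * a1 / a2 := by
      rw [hl2, hl1, ha1, ha2, hz1, hw1, hz2, hw2]
    rw [hR, hodd.neg_pow, hy, hr]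
    field_simp

theorem descentG (hLAM : S_LAM) (hVQ : S_VQ) (hPTH : S_PTH) (hHUP : S_HUP) {p : ℕ}
    [Fact p.Prime] (h5 : 5 ≤ p) {F : Type} [Field F] [NumberField F]
    [IsCyclotomicExtension {p} ℚ F] {ζ : F} (hζ : IsPrimitiveRoot ζ p) {J : F ≃ₐ[ℚ] F}
    (hJ : J ζ = ζ⁻¹) (hcl : (classNumber F).Coprime p)
    {m : ℕ} (hm : 4 ≤ m) {x : F} (hx : State p J m x) : False := by
  have hp : p.Prime := Fact.out
  obtain ⟨P, hP⟩ := exists_above F hp
  have hCC := fun i j : ℕ => hHUP F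
    (-((1 - ζ ^ j) * (1 - ζ ^ (p - j))) / ((1 - ζ ^ i) * (1 - ζ ^ (p - i)))) (ζ ^ i) (ζ ^ (p - i))
    (ζ ^ j) (ζ ^ (p - j))
  choose D hD1 hD using hCC
  obtain ⟨C, hC1, hDC⟩ : ∃ C : ℝ, 1 ≤ C ∧ ∀ i j : ℕ, i < p → j < p → D i j ≤ C := by
    have hD0 : ∀ i j, 0 ≤ D i j := fun i j => zero_le_one.trans (hD1 i j)
    have h1 : ∀ i j : ℕ, i < p → j < p →
        D i j ≤ ∑ i ∈ Finset.range p, ∑ j ∈ Finset.range p, D i j := by
      intro i j hi hj
      calc D i j ≤ ∑ j ∈ Finset.range p, D i j :=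
            Finset.single_le_sum (f := fun j => D i j) (fun j _ => hD0 i j) (Finset.mem_range.2 hj)
        _ ≤ _ := Finset.single_le_sum (f := fun i => ∑ j ∈ Finset.range p, D i j)
            (fun i _ => Finset.sum_nonneg fun j _ => hD0 i j) (Finset.mem_range.2 hi)
    exact ⟨_, (hD1 0 0).trans (h1 0 0 hp.pos hp.pos), h1⟩
  obtain ⟨B, hB⟩ : ∃ B, B = max C (Height.mulHeight₁ x) := ⟨_, rfl⟩
  have hBC : C ≤ B := hB ▸ le_max_left _ _
  have hB1 : 1 ≤ B := hC1.trans hBC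
  -- the sequence
  have hseq : ∀ N : ℕ, ∃ (m : ℕ) (x : F), N ≤ m ∧ 4 ≤ m ∧ State p J m x ∧
      Height.mulHeight₁ x ≤ B := by
    intro N
    induction N with
    | zero => exact ⟨m, x, Nat.zero_le _, hm, hx, hB ▸ le_max_right _ _⟩
    | succ N ih =>
      obtain ⟨m, x, h1, h2, h3, h4⟩ := ih
      obtain ⟨i, j, y, hi, hj, h6, h7⟩ := stepG hLAM hVQ hPTH h5 hζ hJ hcl (by omega) h3
      refine ⟨2 * (m - 1), y, by omega, by omega, h6, ?_⟩
      have h8 : Height.mulHeight₁ y ^ p ≤ C * Height.mulHeight₁ x ^ 4 :=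
        (hD i j x y p h7).trans (mul_le_mul_of_nonneg_right (hDC i j hi hj)
          (pow_nonneg (Height.mulHeight₁_nonneg x) 4))
      have h9 : Height.mulHeight₁ y ^ p ≤ B ^ p := by
        refine h8.trans ?_
        have h10 : C * Height.mulHeight₁ x ^ 4 ≤ B * B ^ 4 :=
          mul_le_mul hBC (pow_le_pow_left₀ (Height.mulHeight₁_nonneg x) h4 4)
            (pow_nonneg (Height.mulHeight₁_nonneg x) 4) (zero_le_one.trans hB1)
        refine h10.trans ?_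
        rw [← pow_succ']
        exact pow_le_pow_right₀ hB1 h5
      exact le_of_pow_le_pow_left₀ hp.ne_zero (zero_le_one.trans hB1) h9
  -- finiteness
  have hfin : {x : F | Height.mulHeight₁ x ≤ B}.Finite := NumberField.finite_setOfPred_mulHeight₁_le F B
  obtain ⟨M, hM⟩ : ∃ M : ℕ, ∀ (m : ℕ) (x : F), State p J m x → Height.mulHeight₁ x ≤ B → m ≤ M := by
    have h1 : {m : ℕ | ∃ x : F, State p J m x ∧ Height.mulHeight₁ x ≤ B}.Finite := by
      refine (hfin.image fun x => (-(WithZero.log (P.valuation F (x ^ p + 1)))).toNat / p).subset ?_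
      rintro m ⟨x, hx, hxB⟩
      refine ⟨x, hxB, ?_⟩
      simp only
      rw [hx.2.2.2 P hP, WithZero.log_exp, neg_neg, Int.toNat_natCast]
      exact Nat.mul_div_cancel _ hp.pos
    obtain ⟨M, hM⟩ := h1.bddAbove
    exact ⟨M, fun m x h2 h3 => hM ⟨x, h2, h3⟩⟩
  obtain ⟨m', x', h1, -, h3, h4⟩ := hseq (M + 1)
  have := hM m' x' h3 h4
  omega

/-- the equation `a ^ p + b ^ p = 3 ^ e d ^ p` -/
theorem noEG (hLAM : S_LAM) (hVQ : S_VQ) (hPTH : S_PTH) (hHUP : S_HUP)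
    (hINIT : S_INIT) (hVALQ : S_VALQ) (hKCONG : S_KCONG) (hARI : S_ARI) (hCJ : S_CJ) {p : ℕ}
    [Fact p.Prime] (h5 : 5 ≤ p)
    (hcl : (classNumber (CyclotomicField p ℚ)).Coprime p)
    (h3 : ¬ p ^ 2 ∣ 3 ^ (p - 1) - 1) (h6 : ¬ p ^ 2 ∣ 6 ^ (p - 1) - 1)
    (h12 : ¬ p ^ 2 ∣ 12 ^ (p - 1) - 1) {a b d : ℤ} {e : ℕ} (he : e = p - 1 ∨ 2 * e = p - 1)
    (ha : a ≠ 0) (hb : b ≠ 0) (hd : d ≠ 0) (hab : IsCoprime a b)
    (h : a ^ p + b ^ p = 3 ^ e * d ^ p) : False := by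
  have hp : p.Prime := Fact.out
  have : NeZero p := ⟨hp.ne_zero⟩
  have : NeZero ((p : ℕ) : ℚ) := ⟨Nat.cast_ne_zero.2 hp.ne_zero⟩
  have : IsCyclotomicExtension {p} ℚ (CyclotomicField p ℚ) :=
    CyclotomicField.isCyclotomicExtension p ℚ
  obtain ⟨ζ, hζ⟩ : ∃ ζ : CyclotomicField p ℚ, IsPrimitiveRoot ζ p :=
    ⟨_, IsCyclotomicExtension.zeta_spec p ℚ (CyclotomicField p ℚ)⟩
  obtain ⟨J, hJ, -⟩ := hCJ p (CyclotomicField p ℚ) ζ hζ
  have he1 : 1 ≤ e := by omega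
  by_cases hpd : (p : ℤ) ∣ d
  · obtain ⟨i1, i2, m, hm, i3⟩ := hINIT p h5 (CyclotomicField p ℚ) ζ hζ a b d e he1 ha hb hd hab h hpd
    refine descentG hLAM hVQ hPTH hHUP h5 hζ hJ hcl hm
      (x := (a : CyclotomicField p ℚ) / b) ⟨?_, i1, fun v hv => (i2 v hv).le, i3⟩
    rw [map_div₀, map_intCast, map_intCast]
  · have hdiv : (p : ℤ) ∣ a ∨ (p : ℤ) ∣ b ∨ (p : ℤ) ∣ a - b := by
      by_cases h1 : (p : ℤ) ∣ a
      · exact Or.inl h1
      by_cases h2 : (p : ℤ) ∣ b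
      · exact Or.inr (Or.inl h2)
      · exact Or.inr (Or.inr (hKCONG p h5 (CyclotomicField p ℚ) ζ hζ hcl a b h1 h2
          (hVALQ p h5 (CyclotomicField p ℚ) ζ hζ a b d e he1 hb hd hab h hpd)))
    rcases hARI p hp h5 a b d e he hab h hpd hdiv with h7 | h7 | h7
    · exact h3 h7
    · exact h6 h7
    · exact h12 h7

end Pool.Agent.H47C
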