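import Pool.Agent.H95C.Base

/-!
# Project CUB, piece INIT
-/

set_option autoImplicit false
set_option linter.unusedSectionVars false

namespace Pool.Agent.H95C

open NumberField IsDedekindDomain WithZero Polynomial Pool.Agent.Y158.KL

lemma val_cop {F : Type} [Field F] [NumberField F] (v : HeightOneSpectrum (𝓞 F)) {q n : ℤ}
    (hq : (q : 𝓞 F) ∈ v.asIdeal) (h : IsCoprime q n) : v.valuation F (n : F) = 1 := by
  have e : (n : F) = algebraMap (𝓞 F) F (n : 𝓞 F) := by rw [map_intCast]
  rw [e, v.valuation_of_algebraMap, HeightOneSpectrum.intValuation_eq_one_iff]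
  intro hn
  obtain ⟨s, t, hst⟩ := h
  apply v.isPrime.ne_top
  rw [Ideal.eq_top_iff_one]
  have h1 : (s : 𝓞 F) * q + t * n ∈ v.asIdeal :=
    v.asIdeal.add_mem (v.asIdeal.mul_mem_left _ hq) (v.asIdeal.mul_mem_left _ hn)
  have h2 : (s : 𝓞 F) * q + t * n = 1 := by exact_mod_cast congrArg (Int.cast : ℤ → 𝓞 F) hst
  rwa [h2] at h1

end Pool.Agent.H95C

namespace Pool.Agent.H47C

open NumberField IsDedekindDomain WithZero Polynomial Pool.Agent.Y158.KL Pool.Agent.H95C

theorem mainINIT : S_INIT := by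
  intro p _ hp5 F _ _ _ ζ hζ a b d e he ha hb hd hab heq hpd
  have hp : p.Prime := Fact.out
  have hodd : Odd p := hp.odd_of_ne_two (by omega)
  have haF : (a : F) ≠ 0 := by exact_mod_cast ha
  have hbF : (b : F) ≠ 0 := by exact_mod_cast hb
  have hdF : (d : F) ≠ 0 := by exact_mod_cast hd
  have hx : ((a : F) / b) ^ p + 1 = 3 ^ e * (d : F) ^ p / (b : F) ^ p := by
    have h1 : (a : F) ^ p + (b : F) ^ p = 3 ^ e * (d : F) ^ p := by exact_mod_cast congrArg (Int.cast : ℤ → F) heq
    have hbp : (b : F) ^ p ≠ 0 := pow_ne_zero _ hbF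
    rw [div_pow]
    field_simp
    exact h1
  have hcop : ∀ q : ℕ, q.Prime → (q : ℤ) ∣ 3 ^ e * d ^ p → ¬ (q : ℤ) ∣ b ∧ ¬ (q : ℤ) ∣ a := by
    intro q hq hdv
    have hqp := Nat.prime_iff_prime_int.1 hq
    constructor
    · intro h
      have h1 : (q : ℤ) ∣ a ^ p := by
        have e1 : a ^ p = 3 ^ e * d ^ p - b ^ p := by linear_combination heq
        rw [e1]
        exact dvd_sub hdv (dvd_pow h hp.ne_zero)
      have h2 := hqp.dvd_of_dvd_pow h1
      exact hqp.not_isUnit (hab.isUnit_of_dvd' h2 h)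
    · intro h
      have h1 : (q : ℤ) ∣ b ^ p := by
        have e1 : b ^ p = 3 ^ e * d ^ p - a ^ p := by linear_combination heq
        rw [e1]
        exact dvd_sub hdv (dvd_pow h hp.ne_zero)
      have h2 := hqp.dvd_of_dvd_pow h1
      exact hqp.not_isUnit (hab.isUnit_of_dvd' h h2)
  have h3 := hcop 3 Nat.prime_three (Dvd.dvd.mul_right (dvd_pow_self _ (by omega)) _)
  have h4 := hcop p hp (Dvd.dvd.mul_left (dvd_pow hpd hp.ne_zero) _)
  refine ⟨?_, ?_, ?_⟩
  · intro v hvp hv3
    have hv31 : v.valuation F (3 : F) = 1 := by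
      have e1 : (3 : F) = algebraMap (𝓞 F) F (3 : 𝓞 F) := by rw [map_ofNat]
      rw [e1, v.valuation_of_algebraMap, HeightOneSpectrum.intValuation_eq_one_iff]
      exact hv3
    obtain ⟨m, hm⟩ := exists_exp ((Valuation.ne_zero_iff (v.valuation F)).2 hdF)
    obtain ⟨n, hn⟩ := exists_exp ((Valuation.ne_zero_iff (v.valuation F)).2 hbF)
    refine ⟨m - n, ?_⟩
    rw [hx, map_div₀, map_mul, map_pow, map_pow, map_pow, hv31, one_pow, one_mul, hm, hn,
      exp_pow, exp_pow, ← exp_sub]
    congr 1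
    ring
  · intro v hv3
    have hpr := Nat.prime_iff_prime_int.1 Nat.prime_three
    have h5 : ((3 : ℕ) : ℤ) = 3 := rfl
    have hq : ((((3 : ℕ) : ℤ)) : 𝓞 F) ∈ v.asIdeal := by
      push_cast
      exact hv3
    rw [map_div₀, val_cop v hq (hpr.coprime_iff_not_dvd.2 h3.1),
      val_cop v hq (hpr.coprime_iff_not_dvd.2 h3.2), div_one]
  · have hpr := Nat.prime_iff_prime_int.1 hp
    have hfin : FiniteMultiplicity (p : ℤ) d :=
      Int.finiteMultiplicity_iff.2 ⟨by simpa using hp.one_lt.ne', hd⟩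
    obtain ⟨c, hc, hpc⟩ := hfin.exists_eq_pow_mul_and_not_dvd
    set k := multiplicity (p : ℤ) d with hk
    have hk1 : 1 ≤ k := by
      by_contra hcon
      have : k = 0 := by omega
      rw [this, pow_zero, one_mul] at hc
      exact hpc (hc ▸ hpd)
    refine ⟨k * (p - 1), ?_, ?_⟩
    · have : 4 ≤ p - 1 := by omega
      nlinarith
    · intro P hP
      obtain rfl := eq_lam hζ hP
      have hq : (((p : ℕ) : ℤ) : 𝓞 F) ∈ (lam hζ).asIdeal := by
        push_cast
        exact hP
      have hv3 : (lam hζ).valuation F (3 : F) = 1 := by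
        have hc3 : IsCoprime (p : ℤ) (3 : ℤ) := by
          rw [hpr.coprime_iff_not_dvd]
          intro h
          have h6 : p ∣ 3 := by exact_mod_cast h
          have := Nat.le_of_dvd (by norm_num) h6
          omega
        have := val_cop (lam hζ) hq hc3
        exact_mod_cast this
      have hvb := val_cop (lam hζ) hq (hpr.coprime_iff_not_dvd.2 h4.1)
      have hvc := val_cop (lam hζ) hq (hpr.coprime_iff_not_dvd.2 hpc)
      have hvp : (lam hζ).valuation F ((p : ℕ) : F) = exp (-((p - 1 : ℕ) : ℤ)) := by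
        have e1 : ((p : ℕ) : F) = algebraMap (𝓞 F) F ((p : ℕ) : 𝓞 F) := by rw [map_natCast]
        rw [e1, HeightOneSpectrum.valuation_of_algebraMap, lam_ell]
      have hvd : (lam hζ).valuation F (d : F) = exp (-((k * (p - 1) : ℕ) : ℤ)) := by
        rw [hc]
        push_cast
        rw [map_mul, map_pow, hvp, hvc, mul_one, exp_pow]
        congr 1
        push_cast
        ring
      rw [hx, map_div₀, map_mul, map_pow, map_pow, map_pow, hv3, hvb, hvd, one_pow, one_pow,
        one_mul, div_one, exp_pow]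
      congr 1
      push_cast
      ring

end Pool.Agent.H47C
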