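import Pool.Agent.H95C.Base

/-!
# Project CUB, piece LAM
-/

set_option autoImplicit false
set_option linter.unusedSectionVars false

namespace Pool.Agent.H95C

open NumberField IsDedekindDomain WithZero Polynomial Pool.Agent.Y158.KL

variable {p : ℕ} [hp : Fact p.Prime] {F : Type} [Field F] [NumberField F]
  [hF : IsCyclotomicExtension {p} ℚ F] {ζ : F} (hζ : IsPrimitiveRoot ζ p)

/-- automorphisms preserve the valuation at the prime above `p` (integers, one inequality) -/
lemma val_aut_le (J : F ≃ₐ[ℚ] F) (a : 𝓞 F) :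
    (lam hζ).valuation F (J a) ≤ (lam hζ).valuation F (a : F) := by
  rcases eq_or_ne a 0 with rfl | ha
  · simp
  have hJp : (J ζ) ^ p = 1 := by rw [← map_pow, hζ.pow_eq_one, map_one]
  -- `J π` is a multiple of `π`
  have hpi : hζ.toInteger - 1 ∣ RingOfIntegers.mapRingHom J (hζ.toInteger - 1) :=
    aut_pi hζ (RingOfIntegers.mapRingHom J)
  have hne : (lam hζ).intValuation a ≠ 0 := (lam hζ).intValuation_ne_zero a ha
  obtain ⟨m, hm⟩ := exists_exp hne
  have hm1 : m ≤ 0 := by
    have := (lam hζ).intValuation_le_one a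
    rw [hm, ← exp_zero, exp_le_exp] at this
    exact this
  obtain ⟨n, rfl⟩ : ∃ n : ℕ, m = -(n : ℤ) := ⟨m.natAbs, by omega⟩
  have h1 : (hζ.toInteger - 1) ^ n ∣ a := (lam_dvd hζ a n).1 hm.le
  have h2 : (hζ.toInteger - 1) ^ n ∣ RingOfIntegers.mapRingHom J a := by
    obtain ⟨b, rfl⟩ := h1
    rw [map_mul, map_pow]
    exact Dvd.dvd.mul_right (pow_dvd_pow_of_dvd hpi n) _
  have h3 := (lam_dvd hζ _ n).2 h2
  rw [← (lam hζ).valuation_of_algebraMap (K := F)] at h3
  have h4 : (lam hζ).valuation F (a : F) = exp (-(n : ℤ)) := by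
    rw [← hm]
    exact (lam hζ).valuation_of_algebraMap (K := F) a
  rw [h4]
  exact h3

lemma val_aut_int (J : F ≃ₐ[ℚ] F) (a : 𝓞 F) :
    (lam hζ).valuation F (J a) = (lam hζ).valuation F (a : F) := by
  refine le_antisymm (val_aut_le hζ J a) ?_
  have h := val_aut_le hζ J.symm (RingOfIntegers.mapRingHom J a)
  have e : (((RingOfIntegers.mapRingHom J a : 𝓞 F)) : F) = J a := rfl
  rw [e, J.symm_apply_apply] at h
  exact h

/-- automorphisms preserve the valuation at the prime above `p` -/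
lemma val_aut (J : F ≃ₐ[ℚ] F) (y : F) :
    (lam hζ).valuation F (J y) = (lam hζ).valuation F y := by
  obtain ⟨a, b, hb, rfl⟩ := IsFractionRing.div_surjective (A := 𝓞 F) y
  have ha' := val_aut_int hζ J a
  have hb' := val_aut_int hζ J b
  rw [map_div₀, map_div₀, map_div₀]
  exact congrArg₂ _ ha' hb'

end Pool.Agent.H95C

namespace Pool.Agent.H47C

open NumberField IsDedekindDomain WithZero Polynomial Pool.Agent.Y158.KL Pool.Agent.H95C

theorem mainLAM : S_LAM := by
  classical
  intro p _ hp5 F _ _ _ ζ hζ J hJ P hP x hx m hm hxm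
  obtain rfl := eq_lam hζ hP
  have hp : p.Prime := Fact.out
  have hodd : Odd p := hp.odd_of_ne_two (by omega)
  set v := (lam hζ).valuation F with hv
  have hpi : (lam hζ).intValuation (hζ.toInteger - 1) = exp (-1) := lam_pi hζ
  have hroot : ∀ i : ℕ, (ζ ^ i) ^ p = 1 := by
    intro i
    rw [← pow_mul, mul_comm, pow_mul, hζ.pow_eq_one, one_pow]
  have hmp : exp (-((m * p : ℕ) : ℤ)) < (1 : WithZero (Multiplicative ℤ)) := by
    rw [← exp_zero, exp_lt_exp]
    have : 0 < m * p := Nat.mul_pos (by omega) hp.pos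
    omega
  have hx1 : v x = 1 := by
    have h1 : v (x ^ p) = 1 := by
      have e : x ^ p = (x ^ p + 1) - 1 := by ring
      rw [e, Valuation.map_sub_eq_of_lt_right]
      · exact map_one _
      · rw [map_one, hxm]
        exact hmp
    rw [map_pow] at h1
    exact one_of_pow hp.ne_zero h1
  have hmemi : ∀ i : ℕ, ζ ^ i ∈ nthRootsFinset p (1 : F) := fun i =>
    (mem_nthRootsFinset hp.pos _).2 (hroot i)
  have hle : ∀ z ∈ nthRootsFinset p (1 : F), v (x + z) ≤ 1 := by
    intro z hz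
    rw [mem_nthRootsFinset hp.pos] at hz
    exact Valuation.map_add_le _ hx1.le (val_root _ hz).le
  have hprod : ∏ z ∈ nthRootsFinset p (1 : F), v (x + z) = exp (-((m * p : ℕ) : ℤ)) := by
    rw [← hxm, fac hζ hodd, map_prod]
  have hcard : (nthRootsFinset p (1 : F)).card = p := hζ.card_nthRootsFinset
  -- one factor is small
  obtain ⟨z, hz, hz2⟩ : ∃ z ∈ nthRootsFinset p (1 : F), v (x + z) ≤ exp (-2) := by
    by_contra hcon
    push Not at hcon
    have h1 : ∀ z ∈ nthRootsFinset p (1 : F), exp (-1) ≤ v (x + z) := by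
      intro z hz
      have h2 := hcon z hz
      have h3 : v (x + z) ≠ 0 := by
        intro h
        rw [h] at h2
        exact not_lt_zero h2
      obtain ⟨k, hk⟩ := exists_exp h3
      rw [hk, exp_lt_exp] at h2
      rw [hk, exp_le_exp]
      omega
    have h2 := Finset.prod_le_prod' h1
    rw [Finset.prod_const, hcard, hprod, exp_pow, exp_le_exp] at h2
    have : (2 : ℤ) * p ≤ m * p := by
      have : (2 : ℤ) ≤ m := by exact_mod_cast hm
      nlinarith [hp.pos]
    push_cast at h2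
    have := hp.pos
    linarith
  have hz' : z ^ p = 1 := (mem_nthRootsFinset hp.pos _).1 hz
  have hpz : NeZero p := ⟨hp.ne_zero⟩
  obtain ⟨k, -, rfl⟩ := hζ.eq_pow_of_pow_eq_one hz'
  have hζ0 : ζ ≠ 0 := hζ.ne_zero hp.ne_zero
  have hk : ζ ^ k = 1 := by
    by_contra hk1
    have h1 : v (x + (ζ ^ k)⁻¹) ≤ exp (-2) := by
      have h2 := val_aut hζ J (x + ζ ^ k)
      rw [map_add, map_pow, hx, hJ, inv_pow] at h2
      rw [hv, h2]
      exact hz2
    have h2 : v (ζ ^ k - (ζ ^ k)⁻¹) ≤ exp (-2) := by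
      have e : ζ ^ k - (ζ ^ k)⁻¹ = (x + ζ ^ k) - (x + (ζ ^ k)⁻¹) := by ring
      rw [e]
      exact Valuation.map_sub_le _ hz2 h1
    have h3 : v (ζ ^ k - (ζ ^ k)⁻¹) = exp (-1) := by
      rw [hv, ← hpi]
      refine val_diff hζ (lam hζ) (hroot k) (by rw [inv_pow, hroot k, inv_one]) ?_
      intro h
      have h4 : (ζ ^ k) ^ 2 = 1 := by
        have h5 : ζ ^ k ≠ 0 := pow_ne_zero _ hζ0
        field_simp at h
        exact h
      apply hk1
      have h5 : orderOf (ζ ^ k) ∣ 2 := orderOf_dvd_of_pow_eq_one h4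
      have h6 : orderOf (ζ ^ k) ∣ p := orderOf_dvd_of_pow_eq_one (hroot k)
      have h7 : orderOf (ζ ^ k) ∣ Nat.gcd 2 p := Nat.dvd_gcd h5 h6
      have h8 : Nat.gcd 2 p = 1 := (Nat.coprime_primes Nat.prime_two hp).2 (by omega)
      rw [h8, Nat.dvd_one, orderOf_eq_one_iff] at h7
      exact h7
    rw [h3, exp_le_exp] at h2
    omega
  rw [hk] at hz2
  have hother : ∀ z : F, z ^ p = 1 → z ≠ 1 → v (x + z) = exp (-1) ∧ v (1 - z) = exp (-1) := by
    intro z hz1 hz3
    have h1 : v (z - 1) = exp (-1) := by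
      rw [hv, ← hpi]
      exact val_diff hζ (lam hζ) hz1 (one_pow _) hz3
    refine ⟨?_, ?_⟩
    · have e : x + z = (x + 1) + (z - 1) := by ring
      rw [e, Valuation.map_add_eq_of_lt_right, h1]
      rw [h1]
      refine hz2.trans_lt ?_
      rw [exp_lt_exp]
      omega
    · rw [← neg_sub, Valuation.map_neg, h1]
  refine ⟨?_, ?_⟩
  · have h1 : (1 : F) ∈ nthRootsFinset p (1 : F) := (mem_nthRootsFinset hp.pos _).2 (one_pow _)
    rw [← Finset.mul_prod_erase _ _ h1] at hprod
    have h2 : ∏ z ∈ (nthRootsFinset p (1 : F)).erase 1, v (x + z) = exp (-((p - 1 : ℕ) : ℤ)) := by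
      rw [Finset.prod_congr rfl fun z hz => ?_, Finset.prod_const, Finset.card_erase_of_mem h1,
        hcard]
      · exact exp_pow (-1) (p - 1) |>.trans (by congr 1; ring)
      · rw [Finset.mem_erase, mem_nthRootsFinset hp.pos] at hz
        exact (hother z hz.2 hz.1).1
    rw [h2] at hprod
    have h3 : v (x + 1) ≠ 0 := by
      intro h
      rw [h, zero_mul] at hprod
      exact exp_ne_zero hprod.symm
    obtain ⟨j, hj⟩ := exists_exp h3
    rw [hj, ← exp_add, exp_inj] at hprod
    rw [hj, exp_inj]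
    obtain ⟨m', rfl⟩ : ∃ m', m = m' + 1 := ⟨m - 1, by omega⟩
    obtain ⟨p', hp'⟩ : ∃ p', p = p' + 1 := ⟨p - 1, by omega⟩
    rw [Nat.add_sub_cancel]
    rw [show p - 1 = p' by omega] at hprod
    have e1 : ((m' + 1) * p : ℕ) = m' * p + p := by ring
    rw [e1] at hprod
    generalize m' * p = w at *
    omega
  · intro i hi
    have h1 : ζ ^ i ≠ 1 := by
      intro h
      exact hi ((hζ.pow_eq_one_iff_dvd i).1 h)
    exact hother _ (hroot i) h1

end Pool.Agent.H47C
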