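import Pool.Agent.H95C.Base
import Pool.Agent.Y158.KL.Main
import Pool.Agent.Y158.KL.Case2b

/-!
# Project CUB, piece PTH
-/

set_option autoImplicit false
set_option linter.unusedSectionVars false

namespace Pool.Agent.H47C

open NumberField IsDedekindDomain WithZero Polynomial Pool.Agent.Y158.KL Pool.Agent.H95C
  Pool.Agent.H47T

theorem mainPTH : S_PTH := by
  intro p _ hp5 F _ _ _ ζ hζ J hJ hcop r hr hev hJr hP
  have hp : p.Prime := Fact.out
  have hp1 : 1 < p := hp.one_lt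
  have hmem : ((p : ℕ) : 𝓞 F) ∈ (lam hζ).asIdeal := by
    change _ ∈ Ideal.span {hζ.toInteger - 1}
    exact Ideal.mem_span_singleton.2 (ell_pi hζ)
  have hP' := hP (lam hζ) hmem
  obtain ⟨u, k, hk, hu⟩ := exists_unit_mul_pow hp.pos hcop r hr (fun v => by
    obtain ⟨m, hm⟩ := hev v
    exact ⟨exp m, by rw [hm, exp_pow]⟩)
  -- the unit is congruent to an integer
  have hunit : ∃ n' : ℤ, ((p : ℕ) : 𝓞 F) ∣ (u : 𝓞 F) - n' := by
    set U : Kl hζ := cm hζ (algebraMap (𝓞 F) F u) with hU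
    set w : Kl hζ := cm hζ k with hw
    have hr1 : V hζ (cm hζ r - 1) ≤ exp (-(p : ℤ)) := by
      have e : cm hζ r - 1 = cm hζ (r - 1) := by rw [map_sub, map_one]
      rw [e, V_cm]
      exact hP'
    have hlt : exp (-(p : ℤ)) < (1 : WithZero (Multiplicative ℤ)) := by
      rw [← exp_zero, exp_lt_exp]
      have := hp.pos
      omega
    have hVr : V hζ (cm hζ r) = 1 := by
      have e : cm hζ r = (cm hζ r - 1) + 1 := by ring
      rw [e, Valuation.map_add_eq_of_lt_right, map_one]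
      rw [map_one]
      exact hr1.trans_lt hlt
    have hVU : V hζ U = 1 := by
      rw [hU, V_int, val_unit]
    have hrU : cm hζ r = U * w ^ p := by rw [hu, map_mul, map_pow]
    have hVw : V hζ w = 1 := by
      rw [hrU, map_mul, hVU, one_mul, map_pow] at hVr
      exact one_of_pow hp.ne_zero hVr
    obtain ⟨n, hn⟩ := pow_near hζ hVw.le
    have h1 : V hζ (U * n - 1) ≤ exp (-((p - 1 : ℕ) : ℤ)) := by
      have e : U * n - 1 = (cm hζ r - 1) - U * (w ^ p - n) := by
        rw [hrU]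
        ring
      rw [e]
      refine Valuation.map_sub_le _ ?_ ?_
      · refine hr1.trans ?_
        rw [exp_le_exp]
        omega
      · rw [map_mul, hVU, one_mul]
        exact hn
    have hlt' : exp (-((p - 1 : ℕ) : ℤ)) < (1 : WithZero (Multiplicative ℤ)) := by
      rw [← exp_zero, exp_lt_exp]
      omega
    have hpn : ¬ (p : ℤ) ∣ n := by
      intro h
      have h2 := (V_intCast_lt hζ).2 h
      have h3 : V hζ (U * n - (U * n - 1)) < 1 := by
        refine Valuation.map_sub_lt _ ?_ (h1.trans_lt hlt')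
        rw [map_mul, hVU, one_mul]
        exact h2
      rw [show U * n - (U * n - 1) = (1 : Kl hζ) by ring, map_one] at h3
      exact lt_irrefl _ h3
    obtain ⟨n', hn'⟩ : ∃ n' : ℤ, (p : ℤ) ∣ 1 - n * n' := by
      have hcp : IsCoprime n (p : ℤ) :=
        ((Nat.prime_iff_prime_int.1 hp).coprime_iff_not_dvd.2 hpn).symm
      obtain ⟨a, b, hab⟩ := hcp
      refine ⟨a, ⟨b, ?_⟩⟩
      linear_combination (-1 : ℤ) * hab
    refine ⟨n', ?_⟩
    apply ell_dvd_of hζ
    rw [← V_int hζ]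
    have e : cm hζ (algebraMap (𝓞 F) F ((u : 𝓞 F) - n')) =
        U * ((1 - n * n' : ℤ) : Kl hζ) + n' * (U * n - 1) := by
      rw [map_sub, map_sub, map_intCast, map_intCast, ← hU]
      push_cast
      ring
    rw [e]
    refine Valuation.map_add_le _ ?_ ?_
    · rw [map_mul, hVU, one_mul]
      exact V_dvd hζ hn'
    · rw [map_mul]
      calc V hζ (n' : Kl hζ) * V hζ (U * n - 1) ≤ 1 * exp (-((p - 1 : ℕ) : ℤ)) :=
            mul_le_mul' (V_intCast hζ n') h1
        _ = _ := one_mul _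
  obtain ⟨n', hn'⟩ := hunit
  obtain ⟨η, hη⟩ := kummer_lemma hζ (by omega) hcop u n' hn'
  set y0 : F := algebraMap (𝓞 F) F η * k with hy0
  have hy0p : y0 ^ p = r := by
    rw [hu, hη, hy0, mul_pow, Units.val_pow_eq_pow_val, map_pow]
  have hy00 : y0 ≠ 0 := by
    intro h
    rw [h, zero_pow hp.ne_zero] at hy0p
    exact hr hy0p.symm
  have hq : (J y0 / y0) ^ p = 1 := by
    rw [div_pow, ← map_pow, hy0p, hJr, div_self hr]
  have hpz : NeZero p := ⟨hp.ne_zero⟩
  obtain ⟨j, -, hj⟩ := hζ.eq_pow_of_pow_eq_one hq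
  have hJy : J y0 = ζ ^ j * y0 := by
    rw [hj]
    field_simp
  have hζ0 : ζ ≠ 0 := hζ.ne_zero hp.ne_zero
  obtain ⟨l, hl⟩ : ∃ l : ℕ, ζ ^ l * ζ ^ l = ζ ^ j := by
    obtain ⟨t, ht⟩ := hp.odd_of_ne_two (by omega)
    refine ⟨j * (t + 1), ?_⟩
    rw [← pow_add]
    have e : j * (t + 1) + j * (t + 1) = j + p * j := by
      rw [ht]
      ring
    rw [e, pow_add, pow_mul, hζ.pow_eq_one, one_pow, mul_one]
  refine ⟨ζ ^ l * y0, ?_, ?_⟩
  · rw [mul_pow, hy0p, ← pow_mul, mul_comm l, pow_mul, hζ.pow_eq_one, one_pow, one_mul]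
  · rw [map_mul, map_pow, hJ, hJy, ← hl, inv_pow]
    have : ζ ^ l ≠ 0 := pow_ne_zero _ hζ0
    field_simp

end Pool.Agent.H47C
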