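import Pool.Agent.H47C.Stm

/-!
Project CUB (helper47), piece VALQ.
-/

set_option autoImplicit false

namespace Pool.Agent.H47C

open NumberField IsDedekindDomain Pool.Agent.H47T

namespace VQ74

variable {F : Type} [Field F] [NumberField F]

lemma val_root (v : HeightOneSpectrum (𝓞 F)) {p : ℕ} (hp : p ≠ 0) {η : F} (h : η ^ p = 1) :
    v.valuation F η = 1 := by
  have h1 : (v.valuation F η) ^ p = 1 := by rw [← map_pow, h, map_one]
  exact (pow_eq_one_iff_left hp).mp h1

lemma val_int (v : HeightOneSpectrum (𝓞 F)) (a : ℤ) : v.valuation F (a : F) ≤ 1 := by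
  have := v.valuation_le_one (K := F) (a : 𝓞 F)
  simpa using this

/-- two coprime integers are not both divisible by a prime -/
lemma coprime_val (v : HeightOneSpectrum (𝓞 F)) {a b : ℤ} (h : IsCoprime a b)
    (ha : v.valuation F (a : F) < 1) : ¬ v.valuation F (b : F) < 1 := by
  intro hb
  obtain ⟨u, w, huw⟩ := h
  have h1 : ((u : F) * a + (w : F) * b) = 1 := by exact_mod_cast congrArg (fun t : ℤ => (t : F)) huw
  have h2 : v.valuation F ((u : F) * a + (w : F) * b) < 1 := by
    refine Valuation.map_add_lt _ ?_ ?_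
    · rw [map_mul]
      exact Right.mul_lt_one_of_le_of_lt (val_int v u) ha
    · rw [map_mul]
      exact Right.mul_lt_one_of_le_of_lt (val_int v w) hb
  rw [h1, map_one] at h2
  exact lt_irrefl _ h2

/-- if `1 - η` is not a unit then `p` is not a unit -/
lemma val_p (v : HeightOneSpectrum (𝓞 F)) {p : ℕ} (hp : 1 < p) {η : F} (h : IsPrimitiveRoot η p)
    (hv : v.valuation F (1 - η) < 1) : v.valuation F (p : F) < 1 := by
  have h0 := h.geom_sum_eq_zero hp
  have h1 : (p : F) = ∑ i ∈ Finset.range p, (1 - η ^ i) := by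
    rw [Finset.sum_sub_distrib, h0, Finset.sum_const, Finset.card_range, nsmul_eq_mul, mul_one,
      sub_zero]
  have hη := val_root v (by omega) h.pow_eq_one
  rw [h1]
  refine Valuation.map_sum_lt _ one_ne_zero fun i _ => ?_
  have h2 : 1 - η ^ i = (1 - η) * ∑ j ∈ Finset.range i, η ^ j := by
    rw [mul_comm]
    exact (geom_sum_mul_neg η i).symm
  rw [h2, map_mul]
  refine mul_lt_one_of_lt_of_le hv ?_
  refine Valuation.map_sum_le _ fun j _ => ?_
  rw [map_pow, hη, one_pow]

end VQ74

open VQ74

theorem mainVALQ : S_VALQ := by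
  classical
  intro p _ h5 F _ _ _ ζ hζ a b d e he hb hd hab heq hpd v
  have hpp : p.Prime := Fact.out
  have hp1 : 1 < p := hpp.one_lt
  have hodd : Odd p := hpp.odd_of_ne_two (by omega)
  have hζ1 : v.valuation F ζ = 1 := val_root v (by omega) hζ.pow_eq_one
  have heqF : (a : F) ^ p + (b : F) ^ p = 3 ^ e * (d : F) ^ p := by
    exact_mod_cast congrArg (fun t : ℤ => (t : F)) heq
  have hle : v.valuation F ((a : F) + (b : F) * ζ) ≤ 1 := by
    refine Valuation.map_add_le _ (val_int v a) ?_
    rw [map_mul, hζ1, mul_one]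
    exact val_int v b
  rcases hle.eq_or_lt with h1 | hlt
  · exact ⟨0, by rw [h1, mul_zero, WithZero.exp_zero]⟩
  -- `b` is a unit at `v`
  have hb1 : v.valuation F (b : F) = 1 := by
    refine (val_int v b).antisymm (not_lt.1 fun hb1 => ?_)
    refine coprime_val v hab ?_ hb1
    have h2 : (a : F) = ((a : F) + (b : F) * ζ) - (b : F) * ζ := by ring
    rw [h2]
    refine Valuation.map_sub_lt _ hlt ?_
    rw [map_mul, hζ1, mul_one]
    exact hb1
  -- if `1 - ζ` is not a unit then `a + b` is not
  have hab1 : v.valuation F (1 - ζ) < 1 → v.valuation F ((a : F) + b) < 1 := by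
    intro h
    have h2 : (a : F) + b = ((a : F) + (b : F) * ζ) + (b : F) * (1 - ζ) := by ring
    rw [h2]
    refine Valuation.map_add_lt _ hlt ?_
    rw [map_mul, hb1, one_mul]
    exact h
  -- `p` is a unit
  have hvp : ¬ v.valuation F (p : F) < 1 := by
    intro hvp
    have h2 : v.valuation F (1 - ζ) < 1 := by
      have h3 : v.valuation F ((1 - ζ) ^ p) < 1 := by
        obtain ⟨ζ', hζ'⟩ : ∃ ζ' : 𝓞 F, (ζ' : F) = ζ := ⟨hζ.toInteger, rfl⟩
        obtain ⟨r, hr⟩ := exists_add_pow_prime_eq hpp (1 : 𝓞 F) (-ζ')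
        have h4 := congrArg (fun t : 𝓞 F => (t : F)) hr
        simp only [map_add, map_mul, map_pow, map_neg, map_one, map_natCast, hζ', hodd.neg_pow,
          hζ.pow_eq_one, one_pow] at h4
        have h5' : (1 - ζ) ^ p = p * (-ζ * (r : F)) := by
          rw [sub_eq_add_neg, h4]
          ring
        rw [h5', map_mul]
        refine mul_lt_one_of_lt_of_le hvp ?_
        have h6 := v.valuation_le_one (K := F) (-ζ' * r)
        simpa [hζ'] using h6
      rw [map_pow] at h3
      by_contra h5
      exact absurd h3 (not_lt.2 (one_le_pow₀ (not_lt.1 h5)))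
    have h3 := hab1 h2
    obtain ⟨k, hk⟩ := hodd.add_dvd_pow_add_pow a b
    have h4 : v.valuation F (((a ^ p + b ^ p : ℤ)) : F) < 1 := by
      rw [hk]
      push_cast
      rw [map_mul]
      exact mul_lt_one_of_lt_of_le h3 (val_int v k)
    have h5' : (p : ℤ) ∣ a ^ p + b ^ p := by
      by_contra hnd
      have h6 : IsCoprime (p : ℤ) (a ^ p + b ^ p) :=
        (Int.isCoprime_iff_gcd_eq_one.2 ((Nat.Prime.coprime_iff_not_dvd hpp).2
          (by rwa [← Int.natCast_dvd])))
      exact coprime_val v h6 (by simpa using hvp) h4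
    rw [heq] at h5'
    have hpZ : Prime (p : ℤ) := Nat.prime_iff_prime_int.1 hpp
    rcases hpZ.dvd_or_dvd h5' with h6 | h6
    · have h7 := hpZ.dvd_of_dvd_pow h6
      have h8 : p ∣ 3 := by exact_mod_cast h7
      have := Nat.le_of_dvd (by norm_num) h8
      omega
    · exact hpd (hpZ.dvd_of_dvd_pow h6)
  have hζp : ∀ η : F, IsPrimitiveRoot η p → v.valuation F (1 - η) = 1 := by
    intro η hη
    have h1 : v.valuation F (1 - η) ≤ 1 := by
      refine Valuation.map_sub_le _ (by rw [map_one]) ?_
      rw [val_root v (by omega) hη.pow_eq_one]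
    exact h1.antisymm (not_lt.1 fun h2 => hvp (val_p v hp1 hη h2))
  -- `3` is a unit
  have hv3 : v.valuation F (3 : F) = 1 := by
    have h0 : v.valuation F ((3 : ℤ) : F) ≤ 1 := val_int v 3
    push_cast at h0
    refine h0.antisymm (not_lt.1 fun h3 => ?_)
    have h4 : (3 : ℤ) ∣ a + b := by
      have h5' : (3 : ℤ) ∣ a ^ p + b ^ p := by
        rw [heq]
        exact Dvd.dvd.mul_right (dvd_pow_self _ (by omega)) _
      have h6 : ∀ t : ZMod 3, t ^ p = t := by
        intro t
        obtain ⟨k, hk⟩ := hodd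
        rw [hk, pow_succ, pow_mul]
        have h7 : ∀ t : ZMod 3, (t ^ 2) ^ k * t = t := by
          intro t
          have h8 : t = 0 ∨ t ^ 2 = 1 := by revert t; decide
          rcases h8 with h8 | h8
          · rw [h8, mul_zero]
          · rw [h8, one_pow, one_mul]
        exact h7 t
      have h7 := (ZMod.intCast_zmod_eq_zero_iff_dvd (a ^ p + b ^ p) 3).2 (by exact_mod_cast h5')
      push_cast at h7
      rw [h6, h6] at h7
      have h8 := (ZMod.intCast_zmod_eq_zero_iff_dvd (a + b) 3).1 (by push_cast; exact h7)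
      exact_mod_cast h8
    obtain ⟨k, hk⟩ := h4
    have h5' : v.valuation F ((a : F) + b) < 1 := by
      have h6 : (a : F) + b = 3 * (k : F) := by exact_mod_cast congrArg (fun t : ℤ => (t : F)) hk
      rw [h6, map_mul]
      exact mul_lt_one_of_lt_of_le h3 (val_int v k)
    have h6 : (b : F) * (1 - ζ) = ((a : F) + b) - ((a : F) + (b : F) * ζ) := by ring
    have h7 : v.valuation F ((b : F) * (1 - ζ)) < 1 := by
      rw [h6]
      exact Valuation.map_sub_lt _ h5' hlt
    rw [map_mul, hb1, one_mul, hζp ζ hζ] at h7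
    exact lt_irrefl _ h7
  -- the product
  have hprod := hζ.pow_add_pow_eq_prod_add_mul (a : F) (b : F) hodd
  have hmem : ζ ∈ Polynomial.nthRootsFinset p (1 : F) := by
    rw [Polynomial.mem_nthRootsFinset (by omega)]
    exact hζ.pow_eq_one
  have hval : v.valuation F ((a : F) ^ p + (b : F) ^ p) =
      v.valuation F ((a : F) + (b : F) * ζ) := by
    rw [hprod, map_prod, Finset.prod_eq_single ζ]
    · rw [mul_comm ζ]
    · intro η hη hne
      rw [Polynomial.mem_nthRootsFinset (by omega)] at hη
      have hζ0 : ζ ≠ 0 := hζ.ne_zero (by omega)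
      have h1 : IsPrimitiveRoot (η / ζ) p := by
        rw [IsPrimitiveRoot.iff_orderOf]
        refine orderOf_eq_prime ?_ ?_
        · rw [div_pow, hη, hζ.pow_eq_one, div_one]
        · rw [Ne, div_eq_one_iff_eq hζ0]
          exact hne
      have h2 : v.valuation F ((a : F) + η * b) ≤ 1 := by
        refine Valuation.map_add_le _ (val_int v a) ?_
        rw [map_mul, val_root v (by omega) hη, one_mul]
        exact val_int v b
      refine h2.antisymm (not_lt.1 fun h3 => ?_)
      have h4 : (b : F) * (ζ * (1 - η / ζ)) = ((a : F) + (b : F) * ζ) - ((a : F) + η * b) := by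
        field_simp
        ring
      have h5' : v.valuation F ((b : F) * (ζ * (1 - η / ζ))) < 1 := by
        rw [h4]
        exact Valuation.map_sub_lt _ hlt h3
      rw [map_mul, map_mul, hb1, hζ1, hζp _ h1, one_mul, one_mul] at h5'
      exact lt_irrefl _ h5'
    · intro h
      exact absurd hmem h
  rw [heqF, map_mul, map_pow, map_pow, hv3, one_pow, one_mul] at hval
  have hd0 : v.valuation F (d : F) ≠ 0 := by
    rw [Valuation.ne_zero_iff]
    exact_mod_cast hd
  obtain ⟨m, hm⟩ : ∃ m : ℤ, v.valuation F (d : F) = WithZero.exp m :=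
    ⟨WithZero.log (v.valuation F (d : F)), (WithZero.exp_log hd0).symm⟩
  refine ⟨m, ?_⟩
  rw [← hval, hm, ← WithZero.exp_nsmul, nsmul_eq_mul]

end Pool.Agent.H47C
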