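import Pool.Agent.H47C.Stm4
import Pool.Agent.H47C.INIT
import Pool.Agent.H47C.LAM
import Pool.Agent.H47C.VALQ
import Pool.Agent.H47C.PTH

/-!
# Project CUB, piece CASEC
-/

set_option autoImplicit false
set_option linter.unusedSectionVars false

namespace Pool.Agent.H47C

open NumberField IsDedekindDomain WithZero Pool.Agent.Y158.KL Pool.Agent.H95C Pool.Agent.H47T

namespace CC

/-- `λ_j` -/
def la {F : Type} [Field F] (p : ℕ) (ζ : F) (j : ℕ) : F := (1 - ζ ^ j) * (1 - ζ ^ (p - j))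

/-- `f_j` -/
def ff {F : Type} [Field F] (p : ℕ) (ζ : F) (τ h : ℤ) (j : ℕ) : F :=
  (τ : F) ^ 2 - la p ζ j * (h : F)

theorem ff_symm {F : Type} [Field F] {p : ℕ} {ζ : F} {τ h : ℤ} {j : ℕ} (hj : j ≤ p) :
    ff p ζ τ h (p - j) = ff p ζ τ h j := by
  unfold ff la
  rw [Nat.sub_sub_self hj, mul_comm (1 - ζ ^ (p - j))]

theorem la_diff {F : Type} [Field F] {p : ℕ} {ζ : F} (hζ : IsPrimitiveRoot ζ p) {i k : ℕ}
    (hik : i < k) (hk : k < p) :
    la p ζ i - la p ζ k = ζ ^ (p - k) * ((1 - ζ ^ (k + i)) * (1 - ζ ^ (k - i))) := by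
  unfold la
  obtain ⟨z1, hz1⟩ : ∃ z, z = ζ ^ i := ⟨_, rfl⟩
  obtain ⟨w1, hw1⟩ : ∃ z, z = ζ ^ (p - i) := ⟨_, rfl⟩
  obtain ⟨z2, hz2⟩ : ∃ z, z = ζ ^ k := ⟨_, rfl⟩
  obtain ⟨w2, hw2⟩ : ∃ z, z = ζ ^ (p - k) := ⟨_, rfl⟩
  obtain ⟨u, hu⟩ : ∃ z, z = ζ ^ (k - i) := ⟨_, rfl⟩
  have hzw1 : z1 * w1 = 1 := by
    rw [hz1, hw1, ← pow_add, show i + (p - i) = p by omega, hζ.pow_eq_one]
  have hzw2 : z2 * w2 = 1 := by
    rw [hz2, hw2, ← pow_add, show k + (p - k) = p by omega, hζ.pow_eq_one]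
  have hu1 : u * z1 = z2 := by rw [hu, hz1, hz2, ← pow_add, Nat.sub_add_cancel hik.le]
  have hu2 : u = z2 * w1 := by
    rw [← hu1, mul_assoc, hzw1, mul_one]
  rw [pow_add, ← hz1, ← hz2, ← hw1, ← hw2, ← hu, hu2]
  linear_combination (w1 + z1 - 1 - z2 * z1 * w1) * hzw2 + (1 - z2) * hzw1

variable {p : ℕ} [hp : Fact p.Prime] {F : Type} [Field F] [NumberField F] {ζ : F}

theorem lt_not_dvd {n : ℕ} (h1 : 0 < n) (h2 : n < p) : ¬ p ∣ n := fun h =>
  absurd (Nat.eq_zero_of_dvd_of_lt h h2) h1.ne'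

theorem val_zp (hζ : IsPrimitiveRoot ζ p) (v : HeightOneSpectrum (𝓞 F)) (j : ℕ) :
    v.valuation F (ζ ^ j) = 1 := by
  refine val_root v (p := p) ?_
  rw [← pow_mul, mul_comm, pow_mul, hζ.pow_eq_one, one_pow]

theorem val_la_le (hζ : IsPrimitiveRoot ζ p) (v : HeightOneSpectrum (𝓞 F)) (j : ℕ) :
    v.valuation F (la p ζ j) ≤ 1 := by
  have h : ∀ j, v.valuation F (1 - ζ ^ j) ≤ 1 := fun j =>
    Valuation.map_sub_le _ (by rw [map_one]) (val_zp hζ v j).le
  unfold la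
  rw [map_mul]
  exact mul_le_one' (h _) (h _)

theorem val_ff_le (hζ : IsPrimitiveRoot ζ p) (v : HeightOneSpectrum (𝓞 F)) (τ h : ℤ) (j : ℕ) :
    v.valuation F (ff p ζ τ h j) ≤ 1 := by
  unfold ff
  refine Valuation.map_sub_le _ ?_ ?_
  · rw [map_pow]
    exact pow_le_one' (VQ74.val_int v τ) 2
  · rw [map_mul]
    exact mul_le_one' (val_la_le hζ v j) (VQ74.val_int v h)

theorem cop_one (v : HeightOneSpectrum (𝓞 F)) {a b : ℤ} (h : IsCoprime a b)
    (ha : v.valuation F (a : F) < 1) : v.valuation F (b : F) = 1 :=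
  le_antisymm (VQ74.val_int v b) (not_lt.1 (VQ74.coprime_val v h ha))

section out

variable {v : HeightOneSpectrum (𝓞 F)} (hv : ((p : ℕ) : 𝓞 F) ∉ v.asIdeal) {τ h d : ℤ}

include hv in
theorem val_la (hζ : IsPrimitiveRoot ζ p) {j : ℕ} (h1 : 1 ≤ j) (h2 : j < p) :
    v.valuation F (la p ζ j) = 1 := by
  unfold la
  rw [map_mul, val_one_sub hp.out hζ v hv (lt_not_dvd (p := p) (by omega) h2),
    val_one_sub hp.out hζ v hv (lt_not_dvd (p := p) (by omega) (by omega)), one_mul]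

include hv in
theorem val_la_diff (hζ : IsPrimitiveRoot ζ p) {i k : ℕ} (h1 : 1 ≤ i) (h2 : i < k) (h3 : k < p)
    (h4 : i + k ≠ p) : v.valuation F (la p ζ i - la p ζ k) = 1 := by
  rw [la_diff hζ h2 h3, map_mul, map_mul, val_zp hζ v,
    val_one_sub hp.out hζ v hv (i := k + i) ?_,
    val_one_sub hp.out hζ v hv (lt_not_dvd (p := p) (by omega) (by omega)), one_mul, one_mul]
  rintro ⟨c, hc⟩
  have : c < 2 := by
    by_contra hcon
    have : p * 2 ≤ p * c := Nat.mul_le_mul_left p (by omega)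
    omega
  interval_cases c <;> omega

include hv in
theorem step1 (hζ : IsPrimitiveRoot ζ p) (hc : IsCoprime τ h) {j : ℕ} (h1 : 1 ≤ j) (h2 : j < p)
    (hj : v.valuation F (ff p ζ τ h j) < 1) :
    v.valuation F (τ : F) = 1 ∧ v.valuation F (h : F) = 1 := by
  have hl := val_la hv hζ h1 h2
  have ht : v.valuation F (τ : F) = 1 := by
    refine le_antisymm (VQ74.val_int v τ) (not_lt.1 fun ht => ?_)
    have hh := cop_one v hc ht
    have e : la p ζ j * (h : F) = (τ : F) ^ 2 - ff p ζ τ h j := by unfold ff; ring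
    have h3 : v.valuation F (la p ζ j * (h : F)) < 1 := by
      rw [e]
      refine Valuation.map_sub_lt _ ?_ hj
      rw [map_pow]
      exact pow_lt_one' ht (by norm_num)
    rw [map_mul, hl, hh, one_mul] at h3
    exact lt_irrefl _ h3
  refine ⟨ht, le_antisymm (VQ74.val_int v h) (not_lt.1 fun hh => ?_)⟩
  have e : (τ : F) ^ 2 = ff p ζ τ h j + la p ζ j * (h : F) := by unfold ff; ring
  have h3 : v.valuation F ((τ : F) ^ 2) < 1 := by
    rw [e]
    refine Valuation.map_add_lt _ hj ?_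
    rw [map_mul, hl, one_mul]
    exact hh
  rw [map_pow, ht, one_pow] at h3
  exact lt_irrefl _ h3

include hv in
theorem step2 (hζ : IsPrimitiveRoot ζ p) (hc : IsCoprime τ h) {j k : ℕ} (h1 : 1 ≤ j) (h2 : j < p)
    (h3 : 1 ≤ k) (h4 : k < p) (h5 : k ≠ j) (h6 : k ≠ p - j)
    (hj : v.valuation F (ff p ζ τ h j) < 1) : v.valuation F (ff p ζ τ h k) = 1 := by
  obtain ⟨-, hh⟩ := step1 hv hζ hc h1 h2 hj
  refine le_antisymm (val_ff_le hζ v τ h k) (not_lt.1 fun hk => ?_)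
  have e : (la p ζ k - la p ζ j) * (h : F) = ff p ζ τ h j - ff p ζ τ h k := by unfold ff; ring
  have h7 : v.valuation F ((la p ζ k - la p ζ j) * (h : F)) < 1 := by
    rw [e]
    exact Valuation.map_sub_lt _ hj hk
  have h8 : v.valuation F (la p ζ k - la p ζ j) = 1 := by
    rcases lt_or_gt_of_ne h5 with h | h
    · exact val_la_diff hv hζ h3 h h2 (by omega)
    · rw [Valuation.map_sub_swap]
      exact val_la_diff hv hζ h1 h h4 (by omega)
  rw [map_mul, h8, hh, one_mul] at h7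
  exact lt_irrefl _ h7

theorem sq_inj {a b : WithZero (Multiplicative ℤ)} (h : a ^ 2 = b ^ 2) : a = b :=
  (pow_left_inj₀ zero_le zero_le two_ne_zero).1 h

include hv in
theorem outside (hζ : IsPrimitiveRoot ζ p) (hc : IsCoprime τ h)
    (hprod : (d : F) ^ (2 * p) = (τ : F) ^ 2 * ∏ i ∈ Finset.range (p - 1), ff p ζ τ h (i + 1)) :
    (∀ j, 1 ≤ j → 2 * j < p → v.valuation F (ff p ζ τ h j) < 1 →
      v.valuation F (ff p ζ τ h j) = v.valuation F (d : F) ^ p) ∧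
    (v.valuation F (τ : F) < 1 → v.valuation F (τ : F) = v.valuation F (d : F) ^ p) := by
  have hV := congrArg (v.valuation F) hprod
  rw [map_mul, map_prod, map_pow, map_pow, mul_comm 2 p, pow_mul] at hV
  constructor
  · intro j h1 h2 hj
    obtain ⟨ht, -⟩ := step1 hv hζ hc h1 (by omega) hj
    rw [ht, one_pow, one_mul, Finset.prod_eq_mul (j - 1) (p - j - 1) (by omega) ?_
      (fun h => absurd (Finset.mem_range.2 (by omega)) h)
      (fun h => absurd (Finset.mem_range.2 (by omega)) h)] at hV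
    · rw [Nat.sub_add_cancel h1, show p - j - 1 + 1 = p - j by omega, ff_symm (by omega),
        ← pow_two] at hV
      exact (sq_inj hV).symm
    · intro c hc' hcne
      have hc1 := Finset.mem_range.1 hc'
      exact step2 hv hζ hc h1 (by omega) (by omega) (by omega) (by omega) (by omega) hj
  · intro ht
    rw [Finset.prod_eq_one, mul_one] at hV
    · exact (sq_inj hV).symm
    · intro c hc'
      have hc1 := Finset.mem_range.1 hc'
      refine le_antisymm (val_ff_le hζ v τ h _) (not_lt.1 fun hj => ?_)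
      have := (step1 hv hζ hc (j := c + 1) (by omega) (by omega) hj).1
      exact absurd this ht.ne

end out

section above

variable [hF : IsCyclotomicExtension {p} ℚ F]

theorem val_P (hζ : IsPrimitiveRoot ζ p) {j : ℕ} (hj : ¬ p ∣ j) :
    (lam hζ).valuation F (1 - ζ ^ j) = exp (-1) := by
  have h1 : (lam hζ).valuation F (ζ ^ j - 1) = exp (-1) := by
    rw [← lam_pi hζ]
    refine val_diff hζ (lam hζ) (by rw [← pow_mul, mul_comm, pow_mul, hζ.pow_eq_one, one_pow])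
      (one_pow _) ?_
    intro h
    exact hj ((hζ.pow_eq_one_iff_dvd j).1 h)
  rw [← neg_sub, Valuation.map_neg, h1]

theorem val_P_la (hζ : IsPrimitiveRoot ζ p) {j : ℕ} (h1 : 1 ≤ j) (h2 : j < p) :
    (lam hζ).valuation F (la p ζ j) = exp (-2) := by
  unfold la
  rw [map_mul, val_P hζ (lt_not_dvd (p := p) (by omega) h2),
    val_P hζ (lt_not_dvd (p := p) (by omega) (by omega)), ← exp_add]
  norm_num

theorem val_P_diff (hζ : IsPrimitiveRoot ζ p) (h5 : 5 ≤ p) :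
    (lam hζ).valuation F (la p ζ 1 - la p ζ 2) = exp (-2) := by
  rw [la_diff hζ (by norm_num) (by omega), map_mul, map_mul, val_zp hζ,
    val_P hζ (lt_not_dvd (p := p) (by norm_num) (by omega)),
    val_P hζ (lt_not_dvd (p := p) (by norm_num) (by omega)), ← exp_add]
  norm_num

theorem J_zp (hζ : IsPrimitiveRoot ζ p) {J : F ≃ₐ[ℚ] F} (hJ : J ζ = ζ⁻¹) {j : ℕ} (hj : j ≤ p) :
    J (ζ ^ j) = ζ ^ (p - j) := by
  have h0 : ζ ≠ 0 := hζ.ne_zero hp.out.ne_zero
  apply mul_right_cancel₀ (pow_ne_zero j h0)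
  rw [map_pow, hJ, ← mul_pow, inv_mul_cancel₀ h0, one_pow, ← pow_add, Nat.sub_add_cancel hj,
    hζ.pow_eq_one]

theorem J_la (hζ : IsPrimitiveRoot ζ p) {J : F ≃ₐ[ℚ] F} (hJ : J ζ = ζ⁻¹) {j : ℕ} (hj : j ≤ p) :
    J (la p ζ j) = la p ζ j := by
  unfold la
  rw [map_mul, map_sub, map_sub, map_one, J_zp hζ hJ hj, J_zp hζ hJ (Nat.sub_le p j),
    Nat.sub_sub_self hj, mul_comm]

theorem J_ff (hζ : IsPrimitiveRoot ζ p) {J : F ≃ₐ[ℚ] F} (hJ : J ζ = ζ⁻¹) {τ h : ℤ} {j : ℕ}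
    (hj : j ≤ p) : J (ff p ζ τ h j) = ff p ζ τ h j := by
  unfold ff
  rw [map_sub, map_pow, map_mul, J_la hζ hJ hj, map_intCast, map_intCast]

/-- the valuations at the prime above `p` -/
theorem inside (hζ : IsPrimitiveRoot ζ p) (h5 : 5 ≤ p) {τ h d : ℤ} (hd : d ≠ 0)
    (hc : IsCoprime τ h) (hpd : (p : ℤ) ∣ d)
    (hprod : (d : F) ^ (2 * p) = (τ : F) ^ 2 * ∏ i ∈ Finset.range (p - 1), ff p ζ τ h (i + 1)) :
    ∃ K : ℕ, 4 ≤ K ∧ (lam hζ).valuation F (τ : F) = exp (-((K : ℤ) * p - (p - 1))) ∧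
      ∀ j, 1 ≤ j → j < p → (lam hζ).valuation F (ff p ζ τ h j) = exp (-2) := by
  have hp' : p.Prime := hp.out
  have hpr := Nat.prime_iff_prime_int.1 hp'
  have hdF : (d : F) ≠ 0 := by exact_mod_cast hd
  have hP : ((p : ℕ) : 𝓞 F) ∈ (lam hζ).asIdeal := by
    obtain ⟨P, hP⟩ := exists_above F hp'
    rwa [← eq_lam hζ hP]
  have hq : (((p : ℕ) : ℤ) : 𝓞 F) ∈ (lam hζ).asIdeal := by
    push_cast
    exact hP
  have hfin : FiniteMultiplicity (p : ℤ) d :=
    Int.finiteMultiplicity_iff.2 ⟨by simpa using hp'.one_lt.ne', hd⟩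
  obtain ⟨c, hc1, hpc⟩ := hfin.exists_eq_pow_mul_and_not_dvd
  set k := multiplicity (p : ℤ) d with hk
  have hk1 : 1 ≤ k := by
    by_contra hcon
    have : k = 0 := by omega
    rw [this, pow_zero, one_mul] at hc1
    exact hpc (hc1 ▸ hpd)
  have hvp : (lam hζ).valuation F ((p : ℕ) : F) = exp (-((p - 1 : ℕ) : ℤ)) := by
    have e1 : ((p : ℕ) : F) = algebraMap (𝓞 F) F ((p : ℕ) : 𝓞 F) := by rw [map_natCast]
    rw [e1, HeightOneSpectrum.valuation_of_algebraMap, lam_ell]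
  have hvc := val_cop (lam hζ) hq (hpr.coprime_iff_not_dvd.2 hpc)
  have hvd : (lam hζ).valuation F (d : F) = exp (-((k * (p - 1) : ℕ) : ℤ)) := by
    rw [hc1]
    push_cast
    rw [map_mul, map_pow, hvp, hvc, mul_one, exp_pow]
    congr 1
    ring
  have hK : 4 ≤ k * (p - 1) := by
    have : 4 ≤ p - 1 := by omega
    nlinarith
  obtain ⟨K, hKd⟩ : ∃ K, K = k * (p - 1) := ⟨_, rfl⟩
  rw [← hKd] at hvd hK
  have hV := congrArg ((lam hζ).valuation F) hprod
  rw [map_mul, map_prod, map_pow, map_pow] at hV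
  have hpt : (p : ℤ) ∣ τ := by
    by_contra hpt
    have hvt := val_cop (lam hζ) hq (hpr.coprime_iff_not_dvd.2 hpt)
    rw [hvt, one_pow, one_mul, Finset.prod_eq_one, hvd, exp_pow, ← exp_zero, exp_inj] at hV
    · have h1 : (0 : ℤ) < (2 * p : ℕ) * K := by
        have : 0 < (2 * p) * K := Nat.mul_pos (by omega) (by omega)
        exact_mod_cast this
      linarith
    · intro i hi
      have hi1 := Finset.mem_range.1 hi
      have h1 : (lam hζ).valuation F (la p ζ (i + 1) * (h : F)) < 1 := by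
        rw [map_mul, val_P_la hζ (by omega) (by omega)]
        refine mul_lt_one_of_lt_of_le ?_ (VQ74.val_int _ h)
        rw [← exp_zero, exp_lt_exp]
        norm_num
      unfold ff
      rw [Valuation.map_sub_eq_of_lt_left, map_pow, hvt, one_pow]
      rw [map_pow, hvt, one_pow]
      exact h1
  have hph : ¬ (p : ℤ) ∣ h := fun h1 => hpr.not_isUnit (hc.isUnit_of_dvd' hpt h1)
  have hvh := val_cop (lam hζ) hq (hpr.coprime_iff_not_dvd.2 hph)
  have hvt : (lam hζ).valuation F (τ : F) ≤ exp (-((p - 1 : ℕ) : ℤ)) := by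
    obtain ⟨c', hc'⟩ := hpt
    rw [hc']
    push_cast
    rw [map_mul, hvp]
    exact mul_le_of_le_one_right' (VQ74.val_int _ c')
  have hff : ∀ j, 1 ≤ j → j < p → (lam hζ).valuation F (ff p ζ τ h j) = exp (-2) := by
    intro j h1 h2
    have h3 : (lam hζ).valuation F (la p ζ j * (h : F)) = exp (-2) := by
      rw [map_mul, val_P_la hζ h1 h2, hvh, mul_one]
    unfold ff
    rw [Valuation.map_sub_eq_of_lt_right, h3]
    rw [h3, map_pow]
    refine (pow_le_pow_left' hvt 2).trans_lt ?_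
    rw [exp_pow, exp_lt_exp]
    have : 4 ≤ p - 1 := by omega
    have h4 : (4 : ℤ) ≤ ((p - 1 : ℕ) : ℤ) := by exact_mod_cast this
    push_cast
    linarith
  have hτ0 : (τ : F) ≠ 0 := by
    intro h0
    rw [h0] at hprod
    have h1 : (d : F) ^ (2 * p) = 0 := by rw [hprod]; ring
    exact pow_ne_zero _ hdF h1
  obtain ⟨t, ht⟩ := exists_exp ((Valuation.ne_zero_iff ((lam hζ).valuation F)).2 hτ0)
  refine ⟨K, hK, ?_, hff⟩
  rw [Finset.prod_congr rfl fun i hi => hff (i + 1) (by omega)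
    (by have := Finset.mem_range.1 hi; omega), Finset.prod_const, Finset.card_range, hvd, ht,
    exp_pow, exp_pow, exp_pow, ← exp_add, exp_inj] at hV
  rw [ht, exp_inj]
  obtain ⟨p', hp1⟩ : ∃ p', p = p' + 1 := ⟨p - 1, by omega⟩
  rw [show p - 1 = p' by omega] at hV
  have hpp : (p : ℤ) = p' + 1 := by exact_mod_cast hp1
  push_cast at hV
  rw [hpp] at hV ⊢
  linarith

end above

end CC

open CC in
theorem mainCASEC : S_CASEC := by
  intro p _ h5 F _ _ _ ζ hζ J hJ hcl τ h d hd hc h3d hpd hprod0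
  have hp : p.Prime := Fact.out
  have hodd : Odd p := hp.odd_of_ne_two (by omega)
  have hprod : (d : F) ^ (2 * p) = (τ : F) ^ 2 * ∏ i ∈ Finset.range (p - 1), ff p ζ τ h (i + 1) :=
    hprod0
  have hdF : (d : F) ≠ 0 := by exact_mod_cast hd
  have hne0 : (τ : F) ^ 2 * ∏ i ∈ Finset.range (p - 1), ff p ζ τ h (i + 1) ≠ 0 := by
    rw [← hprod]
    exact pow_ne_zero _ hdF
  obtain ⟨K, hK, hvt, hvf⟩ := inside hζ h5 hd hc hpd hprod
  obtain ⟨f1, hf1⟩ : ∃ a, a = ff p ζ τ h 1 := ⟨_, rfl⟩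
  obtain ⟨f2, hf2⟩ : ∃ a, a = ff p ζ τ h 2 := ⟨_, rfl⟩
  obtain ⟨l1, hl1⟩ : ∃ a, a = la p ζ 1 := ⟨_, rfl⟩
  obtain ⟨l2, hl2⟩ : ∃ a, a = la p ζ 2 := ⟨_, rfl⟩
  have pf1 : (lam hζ).valuation F f1 = exp (-2) := hf1 ▸ hvf 1 le_rfl (by omega)
  have pf2 : (lam hζ).valuation F f2 = exp (-2) := hf2 ▸ hvf 2 (by norm_num) (by omega)
  have pl1 : (lam hζ).valuation F l1 = exp (-2) := hl1 ▸ val_P_la hζ le_rfl (by omega)
  have pl2 : (lam hζ).valuation F l2 = exp (-2) := hl2 ▸ val_P_la hζ (by norm_num) (by omega)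
  have pdf : (lam hζ).valuation F (l1 - l2) = exp (-2) := by
    rw [hl1, hl2]
    exact val_P_diff hζ h5
  have hne : ∀ a : F, (lam hζ).valuation F a = exp (-2) → a ≠ 0 := by
    rintro a h rfl
    rw [map_zero] at h
    exact exp_ne_zero h.symm
  have f1ne := hne f1 pf1
  have f2ne := hne f2 pf2
  have l1ne := hne l1 pl1
  have l2ne := hne l2 pl2
  obtain ⟨r, hr⟩ : ∃ r, r = f1 * l2 / (f2 * l1) := ⟨_, rfl⟩
  have r0 : r ≠ 0 := by
    rw [hr]
    exact div_ne_zero (mul_ne_zero f1ne l2ne) (mul_ne_zero f2ne l1ne)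
  have h1r : 1 - r = (τ : F) ^ 2 * (l1 - l2) / (f2 * l1) := by
    have e1 : f1 = (τ : F) ^ 2 - l1 * h := by rw [hf1, hl1]; rfl
    have e2 : f2 = (τ : F) ^ 2 - l2 * h := by rw [hf2, hl2]; rfl
    rw [hr]
    field_simp
    linear_combination l1 * e2 - l2 * e1
  have hJr : J r = r := by
    rw [hr, map_div₀, map_mul, map_mul, hf1, hf2, hl1, hl2, J_ff hζ hJ (by omega),
      J_ff hζ hJ (by omega), J_la hζ hJ (by omega), J_la hζ hJ (by omega)]
  have hmP : ∀ P : HeightOneSpectrum (𝓞 F), ((p : ℕ) : 𝓞 F) ∈ P.asIdeal →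
      P.valuation F (1 - r) = exp (-(((2 * K - 2) * p : ℕ) : ℤ)) := by
    intro P hP
    obtain rfl := eq_lam hζ hP
    rw [h1r, map_div₀, map_mul, map_mul, map_pow, hvt, pdf, pf2, pl1, exp_pow, ← exp_add,
      ← exp_add, ← exp_sub]
    congr 1
    have e : ((2 * K - 2 : ℕ) : ℤ) = 2 * K - 2 := by omega
    push_cast [e]
    ring
  have hmul : ∀ (v : HeightOneSpectrum (𝓞 F)) (b c : F),
      (∃ n : ℤ, v.valuation F b = exp ((p : ℤ) * n)) →
      (∃ n : ℤ, v.valuation F c = exp ((p : ℤ) * n)) →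
      ∃ n : ℤ, v.valuation F (b * c) = exp ((p : ℤ) * n) := by
    rintro v b c ⟨n, hn⟩ ⟨n', hn'⟩
    refine ⟨n + n', ?_⟩
    rw [map_mul, hn, hn', ← exp_add]
    congr 1
    ring
  have hdiv : ∀ (v : HeightOneSpectrum (𝓞 F)) (b c : F),
      (∃ n : ℤ, v.valuation F b = exp ((p : ℤ) * n)) →
      (∃ n : ℤ, v.valuation F c = exp ((p : ℤ) * n)) →
      ∃ n : ℤ, v.valuation F (b / c) = exp ((p : ℤ) * n) := by
    rintro v b c ⟨n, hn⟩ ⟨n', hn'⟩
    refine ⟨n - n', ?_⟩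
    rw [map_div₀, hn, hn', ← exp_sub]
    congr 1
    ring
  have hone : ∀ (v : HeightOneSpectrum (𝓞 F)) (b : F), v.valuation F b = 1 →
      ∃ n : ℤ, v.valuation F b = exp ((p : ℤ) * n) := by
    intro v b hb
    exact ⟨0, by rw [hb, mul_zero, exp_zero]⟩
  have hdp : ∀ v : HeightOneSpectrum (𝓞 F), ∃ n : ℤ, v.valuation F (d : F) ^ p =
      exp ((p : ℤ) * n) := by
    intro v
    obtain ⟨n, hn⟩ := exists_exp ((Valuation.ne_zero_iff (v.valuation F)).2 hdF)
    refine ⟨n, ?_⟩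
    rw [hn, exp_pow]
  have hfv : ∀ v : HeightOneSpectrum (𝓞 F), ((p : ℕ) : 𝓞 F) ∉ v.asIdeal → ∀ j, 1 ≤ j →
      2 * j < p → ∃ n : ℤ, v.valuation F (ff p ζ τ h j) = exp ((p : ℤ) * n) := by
    intro v hv j h1 h2
    rcases (val_ff_le hζ v τ h j).lt_or_eq with h3 | h3
    · rw [(outside hv hζ hc hprod).1 j h1 h2 h3]
      exact hdp v
    · exact hone v _ h3
  have htv : ∀ v : HeightOneSpectrum (𝓞 F), ((p : ℕ) : 𝓞 F) ∉ v.asIdeal →
      ∃ n : ℤ, v.valuation F (τ : F) = exp ((p : ℤ) * n) := by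
    intro v hv
    rcases (VQ74.val_int v τ).lt_or_eq with h3 | h3
    · rw [(outside hv hζ hc hprod).2 h3]
      exact hdp v
    · exact hone v _ h3
  have ql1 : ∀ v : HeightOneSpectrum (𝓞 F), ((p : ℕ) : 𝓞 F) ∉ v.asIdeal →
      v.valuation F l1 = 1 := fun v hv => hl1 ▸ val_la hv hζ le_rfl (by omega)
  have ql2 : ∀ v : HeightOneSpectrum (𝓞 F), ((p : ℕ) : 𝓞 F) ∉ v.asIdeal →
      v.valuation F l2 = 1 := fun v hv => hl2 ▸ val_la hv hζ (by norm_num) (by omega)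
  have qdf : ∀ v : HeightOneSpectrum (𝓞 F), ((p : ℕ) : 𝓞 F) ∉ v.asIdeal →
      v.valuation F (l1 - l2) = 1 := fun v hv => by
    rw [hl1, hl2]
    exact val_la_diff hv hζ le_rfl (by norm_num) (by omega) (by omega)
  have hEv : EvL p r := by
    intro v
    by_cases hv : ((p : ℕ) : 𝓞 F) ∈ v.asIdeal
    · apply hone
      obtain rfl := eq_lam hζ hv
      rw [hr, map_div₀, map_mul, map_mul, pf1, pf2, pl1, pl2,
        div_self (mul_ne_zero exp_ne_zero exp_ne_zero)]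
    · rw [hr]
      exact hdiv v _ _ (hmul v _ _ (hf1 ▸ hfv v hv 1 le_rfl (by omega)) (hone v _ (ql2 v hv)))
        (hmul v _ _ (hf2 ▸ hfv v hv 2 (by norm_num) (by omega)) (hone v _ (ql1 v hv)))
  obtain ⟨y, hy, hJy⟩ := mainPTH p h5 F ζ hζ J hJ hcl r r0 hEv hJr (fun P hP => by
    rw [← Valuation.map_neg, neg_sub, hmP P hP, exp_le_exp]
    have h1 : p ≤ (2 * K - 2) * p := Nat.le_mul_of_pos_left p (by omega)
    have h2 : (p : ℤ) ≤ (((2 * K - 2) * p : ℕ) : ℤ) := by exact_mod_cast h1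
    omega)
  have hy1 : (-y) ^ p + 1 = 1 - r := by
    rw [hodd.neg_pow, hy]
    ring
  refine ⟨2 * K - 2, -y, by omega, ⟨by rw [map_neg, hJy], fun v hv hv3 => ?_,
    fun v hv3 => ?_, fun P hP => ?_⟩⟩
  · rw [hy1, h1r, pow_two]
    exact hdiv v _ _ (hmul v _ _ (hmul v _ _ (htv v hv) (htv v hv)) (hone v _ (qdf v hv)))
      (hmul v _ _ (hf2 ▸ hfv v hv 2 (by norm_num) (by omega)) (hone v _ (ql1 v hv)))
  · rw [Valuation.map_neg]
    have hv := three_notMem hp h5 v hv3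
    have hd1 : v.valuation F (d : F) = 1 := by
      refine val_cop v (q := 3) (by push_cast; exact hv3) ?_
      have h3 : Prime (3 : ℤ) := Int.prime_three
      exact h3.coprime_iff_not_dvd.2 h3d
    have hf : ∀ j, 1 ≤ j → 2 * j < p → v.valuation F (ff p ζ τ h j) = 1 := by
      intro j h1 h2
      rcases (val_ff_le hζ v τ h j).lt_or_eq with h3 | h3
      · rw [(outside hv hζ hc hprod).1 j h1 h2 h3, hd1, one_pow]
      · exact h3
    have h1 : v.valuation F y ^ p = 1 := by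
      rw [← map_pow, hy, hr, map_div₀, map_mul, map_mul, ql1 v hv, ql2 v hv, hf1, hf2,
        hf 1 le_rfl (by omega), hf 2 (by norm_num) (by omega), one_mul, div_one]
    exact ((pow_eq_one_iff_of_nonneg zero_le hp.ne_zero).1 h1).le
  · rw [hy1, hmP P hP]

end Pool.Agent.H47C
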