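import Pool.Agent.H47C.CONJ3

/-!
# Project CUB: the choice of two indices (every `p ≥ 11`)
-/

set_option autoImplicit false

namespace Pool.Agent.H47C

open NumberField IsDedekindDomain

/-- the number of primes above `3` -/
theorem ncard_three {p : ℕ} [Fact p.Prime] (h5 : 5 ≤ p) (F : Type) [Field F] [NumberField F]
    [IsCyclotomicExtension {p} ℚ F] :
    3 * (Ideal.primesOver (Ideal.span {((3 : ℕ) : ℤ)}) (𝓞 F)).ncard ≤ p - 1 := by
  have hp : p.Prime := Fact.out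
  have : NeZero p := ⟨hp.ne_zero⟩
  have : Fact (Nat.Prime 3) := ⟨Nat.prime_three⟩
  have : IsGalois ℚ F := IsCyclotomicExtension.isGalois {p} ℚ F
  have h3p : ¬ 3 ∣ p := by
    intro h
    rcases (Nat.dvd_prime hp).1 h with h | h <;> omega
  have h_main := Ideal.ncard_primesOver_mul_ramificationIdxIn_mul_inertiaDegIn
    (Ideal.span {((3 : ℕ) : ℤ)}) (𝓞 F) Gal(F/ℚ)
  rw [IsCyclotomicExtension.Rat.inertiaDegIn_eq_of_not_dvd 3 F h3p,
    IsCyclotomicExtension.Rat.ramificationIdxIn_eq_of_not_dvd 3 F h3p, one_mul,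
    IsGaloisGroup.card_eq_finrank Gal(F/ℚ) ℚ F, IsCyclotomicExtension.Rat.finrank p F,
    Nat.totient_prime hp] at h_main
  have hord : 3 ≤ orderOf ((3 : ℕ) : ZMod p) := by
    have h1 : ((3 : ℕ) : ZMod p) ^ orderOf ((3 : ℕ) : ZMod p) = 1 := pow_orderOf_eq_one _
    have hpos : 0 < orderOf ((3 : ℕ) : ZMod p) := by
      rw [Nat.pos_iff_ne_zero]
      intro h0
      rw [h0, mul_zero] at h_main
      omega
    by_contra hlt
    push Not at hlt
    have h2 : ∀ n : ℕ, ((n : ℕ) : ZMod p) = 0 → p ∣ n := fun n h => (ZMod.natCast_eq_zero_iff n p).1 h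
    have h3 : orderOf ((3 : ℕ) : ZMod p) = 1 ∨ orderOf ((3 : ℕ) : ZMod p) = 2 := by omega
    rcases h3 with h3 | h3
    · rw [h3] at h1
      have h4 := h2 2 (by push_cast at h1 ⊢; linear_combination h1)
      exact absurd (Nat.le_of_dvd (by norm_num) h4) (by omega)
    · rw [h3] at h1
      have h4 := h2 (2 ^ 3) (by push_cast at h1 ⊢; linear_combination h1)
      have h5 := hp.dvd_of_dvd_pow h4
      exact absurd (Nat.le_of_dvd (by norm_num) h5) (by omega)
  calc 3 * (Ideal.primesOver (Ideal.span {((3 : ℕ) : ℤ)}) (𝓞 F)).ncard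
      ≤ orderOf ((3 : ℕ) : ZMod p) * (Ideal.primesOver (Ideal.span {((3 : ℕ) : ℤ)}) (𝓞 F)).ncard :=
        Nat.mul_le_mul_right _ hord
    _ = p - 1 := by rw [mul_comm, h_main]

theorem three_notMem {p : ℕ} (hp : p.Prime) (h5 : 5 ≤ p) {F : Type} [Field F] [NumberField F]
    (v : HeightOneSpectrum (𝓞 F)) (hv3 : (3 : 𝓞 F) ∈ v.asIdeal) :
    ((p : ℕ) : 𝓞 F) ∉ v.asIdeal := by
  intro hvp
  have h1 := Nat.isCoprime_iff_coprime.2
    ((Nat.coprime_primes hp Nat.prime_three).2 (by omega))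
  obtain ⟨a, b, hab⟩ := h1
  apply v.isPrime.ne_top
  rw [Ideal.eq_top_iff_one]
  have h2 : (1 : 𝓞 F) = (a : 𝓞 F) * ((p : ℕ) : 𝓞 F) + (b : 𝓞 F) * 3 := by
    have h3 : ((a * (p : ℤ) + b * ((3 : ℕ) : ℤ) : ℤ) : 𝓞 F) = ((1 : ℤ) : 𝓞 F) := by rw [hab]
    push_cast at h3
    exact h3.symm
  rw [h2]
  exact Ideal.add_mem _ (Ideal.mul_mem_left _ _ hvp) (Ideal.mul_mem_left _ _ hv3)

/-- two of the `x + ζ ^ a` are not both in the maximal ideal -/
theorem index_unique {p : ℕ} [Fact p.Prime] {F : Type} [Field F] [NumberField F] {ζ : F}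
    (hζ : IsPrimitiveRoot ζ p) (v : HeightOneSpectrum (𝓞 F)) (hv : ((p : ℕ) : 𝓞 F) ∉ v.asIdeal)
    {x : F} {a b : ℕ} (hab : a ≤ b) (ha : v.valuation F (x + ζ ^ a) < 1)
    (hb : v.valuation F (x + ζ ^ b) < 1) : p ∣ b - a := by
  have hp : p.Prime := Fact.out
  by_contra hd
  have h1 : v.valuation F ((x + ζ ^ a) - (x + ζ ^ b)) < 1 :=
    (Valuation.map_sub _ _ _).trans_lt (max_lt ha hb)
  have h2 : (x + ζ ^ a) - (x + ζ ^ b) = ζ ^ a * (1 - ζ ^ (b - a)) := by
    rw [mul_sub, ← pow_add, Nat.add_sub_cancel' hab]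
    ring
  rw [h2, map_mul, val_zeta_pow hζ, one_mul, val_one_sub hp hζ v hv hd] at h1
  exact lt_irrefl _ h1

theorem choose_indices {p : ℕ} [Fact p.Prime] (h11 : 11 ≤ p) {F : Type} [Field F] [NumberField F]
    [IsCyclotomicExtension {p} ℚ F] {ζ : F} (hζ : IsPrimitiveRoot ζ p) (x : F) :
    ∃ i k : ℕ, 1 ≤ i ∧ i < k ∧ 2 * k < p ∧ ∀ v : HeightOneSpectrum (𝓞 F), (3 : 𝓞 F) ∈ v.asIdeal →
      v.valuation F x ≤ 1 → v.valuation F (x + ζ ^ i) = 1 ∧ v.valuation F (x + ζ ^ (p - i)) = 1 ∧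
        v.valuation F (x + ζ ^ k) = 1 ∧ v.valuation F (x + ζ ^ (p - k)) = 1 := by
  classical
  have hp : p.Prime := Fact.out
  have hodd : Odd p := hp.odd_of_ne_two (by omega)
  obtain ⟨q, hq⟩ := hodd
  let bad : ℕ → Prop := fun i => ∃ v : HeightOneSpectrum (𝓞 F), (3 : 𝓞 F) ∈ v.asIdeal ∧
    (v.valuation F (x + ζ ^ i) < 1 ∨ v.valuation F (x + ζ ^ (p - i)) < 1)
  let B := (Finset.Icc 1 q).filter bad
  let G := (Finset.Icc 1 q).filter fun i => ¬ bad i
  have hB : B.card ≤ (Ideal.primesOver (Ideal.span {((3 : ℕ) : ℤ)}) (𝓞 F)).ncard := by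
    have hex : ∀ i : ℕ, ∃ I : Ideal (𝓞 F), bad i →
        I ∈ Ideal.primesOver (Ideal.span {((3 : ℕ) : ℤ)}) (𝓞 F) ∧
        ∃ v : HeightOneSpectrum (𝓞 F), v.asIdeal = I ∧ (3 : 𝓞 F) ∈ v.asIdeal ∧
          (v.valuation F (x + ζ ^ i) < 1 ∨ v.valuation F (x + ζ ^ (p - i)) < 1) := by
      intro i
      by_cases hi : bad i
      · obtain ⟨v, hv3, hv⟩ := hi
        refine ⟨v.asIdeal, fun _ => ⟨⟨v.isPrime, ⟨?_⟩⟩, v, rfl, hv3, hv⟩⟩
        have hmax : (Ideal.span {((3 : ℕ) : ℤ)}).IsMaximal :=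
          PrincipalIdealRing.isMaximal_of_irreducible
            (Nat.prime_iff_prime_int.1 Nat.prime_three).irreducible
        refine hmax.eq_of_le ?_ ?_
        · intro h
          apply v.isPrime.ne_top
          rw [Ideal.eq_top_iff_one] at h ⊢
          have h1 := Ideal.mem_comap.1 h
          rwa [map_one] at h1
        · rw [Ideal.span_singleton_le_iff_mem]
          refine Ideal.mem_comap.2 ?_
          rw [map_natCast]
          exact_mod_cast hv3
      · exact ⟨⊤, fun h => absurd h hi⟩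
    choose I hI using hex
    have hfin : (Ideal.primesOver (Ideal.span {((3 : ℕ) : ℤ)}) (𝓞 F)).Finite :=
      Algebra.QuasiFinite.finite_primesOver _
    have hle := Set.ncard_le_ncard_of_injOn (s := (B : Set ℕ)) I
      (fun i hi => (hI i (Finset.mem_filter.1 hi).2).1) ?_ hfin
    · rwa [Set.ncard_coe_finset] at hle
    · intro i hi k hk hik
      obtain ⟨v, hv1, hv3, hv⟩ := (hI i (Finset.mem_filter.1 hi).2).2
      obtain ⟨w, hw1, hw3, hw⟩ := (hI k (Finset.mem_filter.1 hk).2).2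
      have hi1 := Finset.mem_Icc.1 (Finset.mem_filter.1 hi).1
      have hk1 := Finset.mem_Icc.1 (Finset.mem_filter.1 hk).1
      have hvw : v = w := HeightOneSpectrum.ext (by rw [hv1, hw1]; exact hik)
      subst hvw
      have hvp := three_notMem hp (by omega : 5 ≤ p) v hv3
      have key : ∀ a b : ℕ, v.valuation F (x + ζ ^ a) < 1 → v.valuation F (x + ζ ^ b) < 1 →
          (a ≤ b → p ∣ b - a) ∧ (b ≤ a → p ∣ a - b) := fun a b h1 h2 =>
        ⟨fun h => index_unique hζ v hvp h h1 h2, fun h => index_unique hζ v hvp h h2 h1⟩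
      have hlt : ∀ n : ℕ, p ∣ n → n < p → n = 0 := fun n h1 h2 => Nat.eq_zero_of_dvd_of_lt h1 h2
      rcases hv with hv | hv <;> rcases hw with hw | hw
      · have h1 := key _ _ hv hw
        rcases le_total i k with h | h
        · have := hlt _ (h1.1 h) (by omega)
          omega
        · have := hlt _ (h1.2 h) (by omega)
          omega
      · have h1 := key _ _ hv hw
        have := hlt _ (h1.1 (by omega)) (by omega)
        omega
      · have h1 := key _ _ hv hw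
        have := hlt _ (h1.2 (by omega)) (by omega)
        omega
      · have h1 := key _ _ hv hw
        rcases le_total (p - i) (p - k) with h | h
        · have := hlt _ (h1.1 h) (by omega)
          omega
        · have := hlt _ (h1.2 h) (by omega)
          omega
  have hcard : B.card + G.card = q := by
    rw [Finset.card_filter_add_card_filter_not]
    simp
  have h3 := ncard_three (by omega : 5 ≤ p) F
  have hG : 1 < G.card := by omega
  obtain ⟨a, ha, b, hb, hne⟩ := Finset.one_lt_card.1 hG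
  have hfin : ∀ a ∈ G, ∀ b ∈ G, a < b → ∃ i k : ℕ, 1 ≤ i ∧ i < k ∧ 2 * k < p ∧
      ∀ v : HeightOneSpectrum (𝓞 F), (3 : 𝓞 F) ∈ v.asIdeal →
      v.valuation F x ≤ 1 → v.valuation F (x + ζ ^ i) = 1 ∧ v.valuation F (x + ζ ^ (p - i)) = 1 ∧
        v.valuation F (x + ζ ^ k) = 1 ∧ v.valuation F (x + ζ ^ (p - k)) = 1 := by
    intro a ha b hb hab
    have ha' := Finset.mem_filter.1 ha
    have hb' := Finset.mem_filter.1 hb
    have ha1 := Finset.mem_Icc.1 ha'.1
    have hb1 := Finset.mem_Icc.1 hb'.1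
    refine ⟨a, b, ha1.1, hab, by omega, fun v hv hx => ?_⟩
    have hle : ∀ c : ℕ, v.valuation F (x + ζ ^ c) ≤ 1 := by
      intro c
      refine (Valuation.map_add _ _ _).trans (max_le hx ?_)
      rw [val_zeta_pow hζ]
    refine ⟨?_, ?_, ?_, ?_⟩
    · exact le_antisymm (hle _) (not_lt.1 fun h => ha'.2 ⟨v, hv, Or.inl h⟩)
    · exact le_antisymm (hle _) (not_lt.1 fun h => ha'.2 ⟨v, hv, Or.inr h⟩)
    · exact le_antisymm (hle _) (not_lt.1 fun h => hb'.2 ⟨v, hv, Or.inl h⟩)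
    · exact le_antisymm (hle _) (not_lt.1 fun h => hb'.2 ⟨v, hv, Or.inr h⟩)
  rcases lt_or_gt_of_ne hne with h | h
  · exact hfin a ha b hb h
  · exact hfin b hb a ha h

end Pool.Agent.H47C
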