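import Pool.Agent.H47C.Stm

/-!
# Project CUB, piece CJ: complex conjugation
-/

set_option autoImplicit false

namespace Pool.Agent.H47C

open NumberField IsDedekindDomain Polynomial

/-- the automorphisms of the cyclotomic field -/
theorem exists_aut_cyc {K : Type} [Field K] [NumberField K] {p : ℕ}
    (hp : p.Prime) [hK : IsCyclotomicExtension {p} ℚ K] {ζ : K} (hζ : IsPrimitiveRoot ζ p) {k : ℕ}
    (hk : ¬ p ∣ k) : ∃ σ : K ≃ₐ[ℚ] K, σ ζ = ζ ^ k := by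
  have hcop : k.Coprime p := ((Nat.Prime.coprime_iff_not_dvd hp).2 hk).symm
  have hζk : IsPrimitiveRoot (ζ ^ k) p := hζ.pow_of_coprime k hcop
  have h1 : minpoly ℚ ζ = minpoly ℚ (ζ ^ k) := by
    rw [← Polynomial.cyclotomic_eq_minpoly_rat hζ hp.pos,
      ← Polynomial.cyclotomic_eq_minpoly_rat hζk hp.pos]
  have : NeZero p := ⟨hp.ne_zero⟩
  have : IsGalois ℚ K := IsCyclotomicExtension.isGalois {p} ℚ K
  have : Normal ℚ K := inferInstance
  have h2 : IsConjRoot ℚ ζ (ζ ^ k) := h1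
  obtain ⟨σ, hσ⟩ := (isConjRoot_iff_exists_algEquiv).1 h2
  exact ⟨σ.symm, by rw [AlgEquiv.symm_apply_eq]; exact hσ.symm⟩

/-- **Piece CJ.** -/
theorem mainCJ : S_CJ := by
  intro p hp K _ _ hK ζ hζ
  have : NeZero p := ⟨hp.out.ne_zero⟩
  have hk : ¬ p ∣ p - 1 := by
    intro h
    have h1 := Nat.le_of_dvd (by have := hp.out.two_le; omega) h
    have := hp.out.two_le
    omega
  obtain ⟨J, hJ⟩ := exists_aut_cyc hp.out hζ hk
  have hz0 : ζ ≠ 0 := hζ.ne_zero hp.out.ne_zero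
  have hJ1 : J ζ = ζ⁻¹ := by
    rw [hJ]
    apply eq_inv_of_mul_eq_one_left
    rw [← pow_succ, Nat.sub_add_cancel hp.out.one_le, hζ.pow_eq_one]
  refine ⟨J, hJ1, ?_⟩
  have h2 : ((J : K →ₐ[ℚ] K).comp (J : K →ₐ[ℚ] K)) = AlgHom.id ℚ K := by
    have hgen : (hζ.powerBasis ℚ).gen = ζ := hζ.powerBasis_gen ℚ
    apply (hζ.powerBasis ℚ).algHom_ext
    rw [hgen]
    show J (J ζ) = ζ
    rw [hJ1, map_inv₀, hJ1, inv_inv]
  intro x
  exact congrArg (fun f : K →ₐ[ℚ] K => f x) h2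

end Pool.Agent.H47C
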