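import Pool.Agent.H47C.Asm

/-!
# Project CUB, piece CONJ3: primes above 3 and complex conjugation
-/

set_option autoImplicit false

namespace Pool.Agent.H47C

open NumberField IsDedekindDomain

section

variable {p : ℕ} [Fact p.Prime] {F : Type} [Field F] [NumberField F]
  [IsCyclotomicExtension {p} ℚ F] {ζ : F} (hζ : IsPrimitiveRoot ζ p) {J : F ≃ₐ[ℚ] F} (hJ : J ζ = ζ⁻¹)
  {j : ℕ} (hj : p ∣ 3 ^ j + 1) {P : HeightOneSpectrum (𝓞 F)} (hP : (3 : 𝓞 F) ∈ P.asIdeal)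

include hζ hJ hj hP in
theorem conj_frob (α : 𝓞 F) :
    Ideal.Quotient.mk P.asIdeal (RingOfIntegers.mapRingHom (J : F →+* F) α) =
      (Ideal.Quotient.mk P.asIdeal α) ^ (3 ^ j) := by
  have hp : p.Prime := Fact.out
  have : NeZero p := ⟨hp.ne_zero⟩
  have hmax : P.asIdeal.IsPrime := P.isPrime
  have hchar : CharP (𝓞 F ⧸ P.asIdeal) 3 := by
    rw [CharP.charP_iff_prime_eq_zero Nat.prime_three]
    have h1 : Ideal.Quotient.mk P.asIdeal 3 = 0 := Ideal.Quotient.eq_zero_iff_mem.2 hP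
    rw [map_ofNat] at h1
    exact_mod_cast h1
  have : ExpChar (𝓞 F ⧸ P.asIdeal) 3 := ExpChar.prime Nat.prime_three
  let φ : 𝓞 F →ₐ[ℤ] (𝓞 F ⧸ P.asIdeal) :=
    ((Ideal.Quotient.mk P.asIdeal).comp (RingOfIntegers.mapRingHom (J : F →+* F))).toIntAlgHom
  let ψ : 𝓞 F →ₐ[ℤ] (𝓞 F ⧸ P.asIdeal) :=
    ((iterateFrobenius (𝓞 F ⧸ P.asIdeal) 3 j).comp (Ideal.Quotient.mk P.asIdeal)).toIntAlgHom
  have h1 : φ = ψ := by
    refine PowerBasis.algHom_ext hζ.integralPowerBasis ?_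
    rw [hζ.integralPowerBasis_gen]
    change Ideal.Quotient.mk P.asIdeal (RingOfIntegers.mapRingHom (J : F →+* F) hζ.toInteger) =
      iterateFrobenius (𝓞 F ⧸ P.asIdeal) 3 j (Ideal.Quotient.mk P.asIdeal hζ.toInteger)
    rw [iterateFrobenius_def, ← map_pow]
    congr 1
    apply RingOfIntegers.ext
    rw [RingOfIntegers.mapRingHom_apply]
    change J ζ = algebraMap (𝓞 F) F (hζ.toInteger ^ 3 ^ j)
    rw [hJ, map_pow]
    change ζ⁻¹ = ζ ^ 3 ^ j
    have h0 : ζ ≠ 0 := hζ.ne_zero hp.ne_zero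
    refine inv_eq_of_mul_eq_one_right ?_
    rw [← pow_succ']
    exact (hζ.pow_eq_one_iff_dvd _).2 hj
  have h2 := congrArg (fun f => f α) h1
  exact h2

include hζ hJ hj hP in
theorem conj_mem {α : 𝓞 F} (hα : α ∈ P.asIdeal) :
    RingOfIntegers.mapRingHom (J : F →+* F) α ∈ P.asIdeal := by
  rw [← Ideal.Quotient.eq_zero_iff_mem] at hα ⊢
  rw [conj_frob hζ hJ hj hP, hα, zero_pow (by positivity)]

include hζ hJ hj hP in
theorem conj_notMem {α : 𝓞 F} (hα : α ∉ P.asIdeal) :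
    RingOfIntegers.mapRingHom (J : F →+* F) α ∉ P.asIdeal := by
  have hmax : P.asIdeal.IsPrime := P.isPrime
  rw [← Ideal.Quotient.eq_zero_iff_mem] at hα ⊢
  rw [conj_frob hζ hJ hj hP]
  exact pow_ne_zero _ hα

include hζ hJ hj hP in
theorem conj_val_lt {y : F} (hy : P.valuation F y < 1) : P.valuation F (J y) < 1 := by
  obtain ⟨n, ⟨d, hd⟩, hnd⟩ := P.exists_primeCompl_mul_eq_of_integer y hy.le
  have hd1 : d ∉ P.asIdeal := hd
  have h1 : P.valuation F (algebraMap (𝓞 F) F d) = 1 := by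
    refine le_antisymm (P.valuation_le_one _) (not_lt.1 fun h => hd1 ?_)
    exact (P.valuation_lt_one_iff_mem d).1 h
  have hn : n ∈ P.asIdeal := by
    refine (P.valuation_lt_one_iff_mem (K := F) n).1 ?_
    have h5 : P.valuation F (algebraMap (𝓞 F) F n) < 1 := by
      rw [← hnd, map_mul]
      change _ * P.valuation F (algebraMap (𝓞 F) F d) < 1
      rwa [h1, mul_one]
    exact h5
  have h2 : J y * algebraMap (𝓞 F) F (RingOfIntegers.mapRingHom (J : F →+* F) d) =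
      algebraMap (𝓞 F) F (RingOfIntegers.mapRingHom (J : F →+* F) n) := by
    change J y * J (algebraMap (𝓞 F) F d) = J (algebraMap (𝓞 F) F n)
    rw [← map_mul]
    exact congrArg J hnd
  have h3 : P.valuation F (algebraMap (𝓞 F) F (RingOfIntegers.mapRingHom (J : F →+* F) d)) = 1 := by
    refine le_antisymm (P.valuation_le_one _) (not_lt.1 fun h => ?_)
    exact conj_notMem hζ hJ hj hP hd1 ((P.valuation_lt_one_iff_mem _).1 h)
  have h4 : P.valuation F (algebraMap (𝓞 F) F (RingOfIntegers.mapRingHom (J : F →+* F) n)) < 1 :=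
    (P.valuation_lt_one_iff_mem _).2 (conj_mem hζ hJ hj hP hn)
  rw [← h2, map_mul, h3, mul_one] at h4
  exact h4

omit [IsCyclotomicExtension {p} ℚ F] in
include hζ in
theorem val_zeta_pow (v : HeightOneSpectrum (𝓞 F)) (i : ℕ) : v.valuation F (ζ ^ i) = 1 := by
  have hp : p.Prime := Fact.out
  have h1 : v.valuation F ζ ^ p = 1 := by
    rw [← map_pow, hζ.pow_eq_one, map_one]
  have h2 : v.valuation F ζ = 1 := (pow_eq_one_iff_of_nonneg zero_le hp.ne_zero).1 h1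
  rw [map_pow, h2, one_pow]

end

theorem mainCONJ3 : S_CONJ3 := by
  intro p _ h5 F _ _ _ ζ hζ J hJ j hj P hP x hx hvx i hi
  have hp : p.Prime := Fact.out
  have hζ0 : ζ ≠ 0 := hζ.ne_zero hp.ne_zero
  have hle : P.valuation F (x + ζ ^ i) ≤ 1 := by
    refine (Valuation.map_add _ _ _).trans (max_le hvx ?_)
    rw [val_zeta_pow hζ]
  refine le_antisymm hle (not_lt.1 fun hlt => ?_)
  have h1 := conj_val_lt hζ hJ hj hP hlt
  rw [map_add, hx, map_pow, hJ] at h1
  -- the difference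
  have h2 : P.valuation F (ζ ^ i - ζ⁻¹ ^ i) < 1 := by
    have h3 : ζ ^ i - ζ⁻¹ ^ i = (x + ζ ^ i) - (x + ζ⁻¹ ^ i) := by ring
    rw [h3]
    exact (Valuation.map_sub _ _ _).trans_lt (max_lt hlt h1)
  have h3 : P.valuation F (ζ ^ (2 * i) - 1) < 1 := by
    have h4 : ζ ^ (2 * i) - 1 = ζ ^ i * (ζ ^ i - ζ⁻¹ ^ i) := by
      rw [mul_sub, ← mul_pow, ← mul_pow, mul_inv_cancel₀ hζ0, one_pow, ← pow_two, ← pow_mul, mul_comm]
    rw [h4, map_mul, val_zeta_pow hζ, one_mul]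
    exact h2
  have hP2 : ((p : ℕ) : 𝓞 F) ∉ P.asIdeal := by
    intro h
    have hmax : P.asIdeal.IsPrime := P.isPrime
    apply hmax.ne_top
    rw [Ideal.eq_top_iff_one]
    have hcop : IsCoprime (p : ℤ) 3 := by
      have h7 : IsCoprime (p : ℤ) ((3 : ℕ) : ℤ) := by
        rw [Nat.isCoprime_iff_coprime, hp.coprime_iff_not_dvd]
        intro h
        exact absurd (Nat.le_of_dvd (by norm_num) h) (by omega)
      exact_mod_cast h7
    obtain ⟨a, b, hab⟩ := hcop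
    have h6 : (1 : 𝓞 F) = (a : 𝓞 F) * ((p : ℕ) : 𝓞 F) + (b : 𝓞 F) * 3 := by
      have := congrArg (fun t : ℤ => (t : 𝓞 F)) hab
      push_cast at this
      exact this.symm
    rw [h6]
    exact P.asIdeal.add_mem (P.asIdeal.mul_mem_left _ h) (P.asIdeal.mul_mem_left _ hP)
  have h2i : ¬ p ∣ 2 * i := by
    intro h
    rcases hp.dvd_mul.1 h with h | h
    · exact absurd (Nat.le_of_dvd (by norm_num) h) (by omega)
    · exact hi h
  have h4 := val_one_sub hp hζ P hP2 h2i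
  rw [Valuation.map_sub_swap] at h4
  exact absurd h4 h3.ne

end Pool.Agent.H47C
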