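import Pool.Agent.H47C.Stm4

set_option autoImplicit false

/-! Piece EIS of project CUB, part 2 (helper55). -/

namespace Pool.Agent.H47C

open NumberField Polynomial

namespace EisPiece

theorem red {R : Type} [CommRing R] (w : R) (hw : w ^ 2 + w + 1 = 0) (P : ℤ[X]) :
    aeval w P = (((P %ₘ (X ^ 2 + X + 1 : ℤ[X])).coeff 0 : ℤ) : R) +
      (((P %ₘ (X ^ 2 + X + 1 : ℤ[X])).coeff 1 : ℤ) : R) * w := by
  have hm : (X ^ 2 + X + 1 : ℤ[X]).Monic := by monicity!
  have hd : (X ^ 2 + X + 1 : ℤ[X]).natDegree = 2 := by compute_degree!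
  have h1 := modByMonic_add_div P (X ^ 2 + X + 1 : ℤ[X])
  have h2 : (P %ₘ (X ^ 2 + X + 1 : ℤ[X])).natDegree < 2 := by
    have := natDegree_modByMonic_lt P hm (by
      intro h
      have := congrArg natDegree h
      rw [hd] at this
      simp at this)
    omega
  have h3 : P %ₘ (X ^ 2 + X + 1 : ℤ[X]) = C ((P %ₘ (X ^ 2 + X + 1 : ℤ[X])).coeff 0) +
      C ((P %ₘ (X ^ 2 + X + 1 : ℤ[X])).coeff 1) * X := by
    have h4 := eq_X_add_C_of_natDegree_le_one (p := P %ₘ (X ^ 2 + X + 1 : ℤ[X])) (by omega)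
    conv_lhs => rw [h4]
    ring
  have h5 : aeval w (X ^ 2 + X + 1 : ℤ[X]) = 0 := by simpa using hw
  calc aeval w P = aeval w (P %ₘ (X ^ 2 + X + 1 : ℤ[X]) +
        (X ^ 2 + X + 1 : ℤ[X]) * (P /ₘ (X ^ 2 + X + 1 : ℤ[X]))) := by rw [h1]
    _ = aeval w (P %ₘ (X ^ 2 + X + 1 : ℤ[X])) := by rw [map_add, map_mul, h5]; ring
    _ = _ := by
      conv_lhs => rw [h3]
      simp

theorem indep {R : Type} [CommRing R] [IsDomain R] [CharZero R] (e : R) (he : e ^ 2 + e + 1 = 0)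
    (u v : ℤ) (h : (u : R) + v * e = 0) : u = 0 ∧ v = 0 := by
  have h1 : ((u ^ 2 - u * v + v ^ 2 : ℤ) : R) = 0 := by
    push_cast
    have h2 : ((u : R) + v * e) * ((u : R) + v * e ^ 2) = 0 := by rw [h, zero_mul]
    linear_combination h2 - (u * v + v ^ 2 * (e - 1)) * he
  have h3 : u ^ 2 - u * v + v ^ 2 = 0 := by exact_mod_cast h1
  have h4 : (2 * u - v) ^ 2 + 3 * v ^ 2 = 0 := by linarith
  have hv : v = 0 := by
    by_contra hv
    have := sq_nonneg (2 * u - v)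
    have : 0 < v ^ 2 := by positivity
    linarith
  subst hv
  refine ⟨?_, rfl⟩
  have : u ^ 2 = 0 := by linarith
  exact pow_eq_zero_iff (by norm_num) |>.1 this

theorem transfer {R : Type} [CommRing R] [IsDomain R] [CharZero R] (e : R)
    (he : e ^ 2 + e + 1 = 0) (P : ℤ[X]) (hP : aeval e P = 0) {M : Type} [CommRing M] (w : M)
    (hw : w ^ 2 + w + 1 = 0) : aeval w P = 0 := by
  rw [red e he] at hP
  obtain ⟨h1, h2⟩ := indep e he _ _ hP
  rw [red w hw, h1, h2]
  simp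

theorem core {R : Type} [CommRing R] [IsDomain R] [IsBezout R] [CharZero R] (e : R)
    (he : e ^ 2 + e + 1 = 0) (hs : ∀ x : R, ∃ s t : ℤ, x = s + t * e)
    (hu : ∀ u : Rˣ, u ^ 6 = 1) (p : ℕ) (hp : p.Prime) (h5 : 5 ≤ p) (a b h : ℤ)
    (hab : IsCoprime a b) (h3 : ¬ (3 : ℤ) ∣ h) (hh : a ^ 2 + a * b + b ^ 2 = h ^ p) :
    ∃ s t : ℤ, ((s : R) + t * e) ^ p = b + (a + b) * e := by
  have he3 : e ^ 3 = 1 := by linear_combination (e - 1) * he
  -- p * p = 6 k + 1
  obtain ⟨k, hk⟩ : ∃ k, p * p = 6 * k + 1 := by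
    have h2 : p % 2 = 1 := by
      rcases hp.eq_two_or_odd with h | h
      · omega
      · exact h
    have h3 : p % 3 ≠ 0 := by
      intro h
      have := (Nat.prime_dvd_prime_iff_eq Nat.prime_three hp).1 (Nat.dvd_of_mod_eq_zero h)
      omega
    have h6 : p % 6 = 1 ∨ p % 6 = 5 := by omega
    have h7 : p * p % 6 = 1 := by
      rcases h6 with h | h <;> simp [Nat.mul_mod, h]
    exact ⟨p * p / 6, by omega⟩
  have hup : ∀ u : Rˣ, (u ^ p) ^ p = u := by
    intro u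
    rw [← pow_mul, hk, pow_succ, pow_mul, hu, one_pow, one_mul]
  -- the factors
  have hprod : ((a : R) - b * e) * ((a : R) - b * e ^ 2) = (h : R) ^ p := by
    have : ((a ^ 2 + a * b + b ^ 2 : ℤ) : R) = ((h ^ p : ℤ) : R) := by rw [hh]
    push_cast at this
    rw [← this]
    linear_combination (-(a : R) * b + b ^ 2 * (e - 1)) * he
  have hco : IsCoprime ((a : R) - b * e) ((a : R) - b * e ^ 2) := by
    obtain ⟨x, y, hxy⟩ := hab
    have h3c : IsCoprime (3 : ℤ) (h ^ p) :=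
      ((Int.prime_three.coprime_iff_not_dvd).2 h3).pow_right
    obtain ⟨u, v, huv⟩ := h3c
    have hxy' : (x : R) * a + y * b = 1 := by exact_mod_cast congrArg (Int.cast : ℤ → R) hxy
    have huv' : (u : R) * 3 + v * (h : R) ^ p = 1 := by
      exact_mod_cast congrArg (Int.cast : ℤ → R) huv
    refine ⟨u * (e ^ 2 - 1) * (x * e + y * e ^ 2) + v * ((a : R) - b * e ^ 2),
      -(u * (e ^ 2 - 1) * (x + y * e ^ 2)), ?_⟩
    have e1 : (u * (e ^ 2 - 1) * (x * e + y * e ^ 2) + v * ((a : R) - b * e ^ 2)) *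
        ((a : R) - b * e) + -(u * (e ^ 2 - 1) * (x + y * e ^ 2)) * ((a : R) - b * e ^ 2) =
        (u : R) * ((e ^ 2 - 1) * (e - 1)) * (x * a + e ^ 3 * y * b) +
          v * (((a : R) - b * e) * ((a : R) - b * e ^ 2)) := by ring
    rw [e1, he3, one_mul, hxy', hprod]
    have e2 : (e ^ 2 - 1) * (e - 1) = 3 := by linear_combination (e - 2) * he
    rw [e2, mul_one]
    exact huv'
  obtain ⟨d, hd⟩ := exists_associated_pow_of_mul_eq_pow' hco hprod
  obtain ⟨u, hu1⟩ := hd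
  -- the unit e
  let eu : Rˣ := ⟨e, e ^ 2, by rw [← he3]; ring, by rw [← he3]; ring⟩
  obtain ⟨s, t, hst⟩ := hs ((eu ^ p : Rˣ) * (d * (u ^ p : Rˣ)))
  refine ⟨s, t, ?_⟩
  rw [← hst, mul_pow, mul_pow, ← Units.val_pow_eq_pow_val, ← Units.val_pow_eq_pow_val, hup, hup,
    hu1]
  show e * ((a : R) - b * e) = _
  linear_combination (-(b : R)) * he

theorem main (K : Type) [Field K] [NumberField K] [IsCyclotomicExtension {3} ℚ K] (p : ℕ)
    (hp : p.Prime) (h5 : 5 ≤ p) (a b h : ℤ) (hab : IsCoprime a b) (h3 : ¬ (3 : ℤ) ∣ h)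
    (hh : a ^ 2 + a * b + b ^ 2 = h ^ p) : ∃ s t : ℤ, s ^ 2 - s * t + t ^ 2 = h ∧
    ∀ (M : Type) [Field M] (w : M), w ^ 2 + w + 1 = 0 →
      ((s : M) + t * w) ^ p = (b : M) + (a + b) * w := by
  have hz : IsPrimitiveRoot (IsCyclotomicExtension.zeta 3 ℚ K) 3 :=
    IsCyclotomicExtension.zeta_spec 3 ℚ K
  have : IsPrincipalIdealRing (𝓞 K) := IsCyclotomicExtension.Rat.three_pid K
  have he : (hz.toInteger) ^ 2 + hz.toInteger + 1 = 0 :=
    IsCyclotomicExtension.Rat.Three.eta_sq_add_eta_add_one hz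
  have hs : ∀ x : 𝓞 K, ∃ s t : ℤ, x = s + t * hz.toInteger := by
    intro x
    obtain ⟨f, hf⟩ := hz.integralPowerBasis.exists_eq_aeval' x
    rw [hz.integralPowerBasis_gen, red _ he] at hf
    exact ⟨_, _, hf⟩
  have hu : ∀ u : (𝓞 K)ˣ, u ^ 6 = 1 := by
    intro u
    have hm := IsCyclotomicExtension.Rat.Three.Units.mem hz u
    have h1 : (hz.toInteger_isPrimitiveRoot.isUnit (by decide)).unit ^ 3 = 1 := by
      apply Units.ext
      rw [Units.val_pow_eq_pow_val]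
      exact hz.toInteger_cube_eq_one
    simp only [List.mem_cons, List.not_mem_nil, or_false] at hm
    rcases hm with h | h | h | h | h | h <;> rw [h]
    · simp
    · rw [Even.neg_pow (by decide)]; simp
    · rw [show 6 = 3 * 2 from rfl, pow_mul, h1]; simp
    · rw [Even.neg_pow (by decide), show 6 = 3 * 2 from rfl, pow_mul, h1]; simp
    · rw [← pow_mul, show 2 * 6 = 3 * 4 from rfl, pow_mul, h1]; simp
    · rw [Even.neg_pow (by decide), ← pow_mul, show 2 * 6 = 3 * 4 from rfl, pow_mul, h1]; simp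
  obtain ⟨s, t, hst⟩ := core hz.toInteger he hs hu p hp h5 a b h hab h3 hh
  have hP : aeval hz.toInteger ((C s + C t * X) ^ p - (C b + C (a + b) * X) : ℤ[X]) = 0 := by
    simp only [map_sub, map_pow, map_add, map_mul, aeval_X, aeval_C, algebraMap_int_eq,
      Int.coe_castRingHom]
    rw [hst]
    push_cast
    ring
  have key : ∀ (M : Type) [CommRing M] (w : M), w ^ 2 + w + 1 = 0 →
      ((s : M) + t * w) ^ p = (b : M) + (a + b) * w := by
    intro M _ w hw
    have h1 := transfer hz.toInteger he _ hP w hw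
    simp only [map_sub, map_pow, map_add, map_mul, aeval_X, aeval_C, algebraMap_int_eq,
      Int.coe_castRingHom] at h1
    linear_combination h1
  refine ⟨s, t, ?_, fun M _ w hw => key M w hw⟩
  have h1 := key (𝓞 K) (hz.toInteger ^ 2) (by
    linear_combination (hz.toInteger ^ 2 - hz.toInteger + 1) * he)
  have h2 : ((s ^ 2 - s * t + t ^ 2 : ℤ) : 𝓞 K) ^ p = ((h ^ p : ℤ) : 𝓞 K) := by
    have e1 : ((s ^ 2 - s * t + t ^ 2 : ℤ) : 𝓞 K) =
        ((s : 𝓞 K) + t * hz.toInteger) * ((s : 𝓞 K) + t * hz.toInteger ^ 2) := by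
      push_cast
      linear_combination (-(s : 𝓞 K) * t - t ^ 2 * (hz.toInteger - 1)) * he
    rw [e1, mul_pow, hst, h1, ← hh]
    push_cast
    linear_combination ((b : 𝓞 K) * (a + b) + (a + b) ^ 2 * (hz.toInteger - 1)) * he
  have h3 : (s ^ 2 - s * t + t ^ 2) ^ p = h ^ p := by exact_mod_cast h2
  have hodd : Odd p := hp.odd_of_ne_two (by omega)
  exact hodd.strictMono_pow.injective h3

end EisPiece

theorem mainEIS : S_EIS := by
  intro p hp h5 a b h hab h3 hh
  have : NeZero ((3 : ℕ) : ℚ) := ⟨by norm_num⟩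
  have : IsCyclotomicExtension {3} ℚ (CyclotomicField 3 ℚ) :=
    CyclotomicField.isCyclotomicExtension 3 ℚ
  exact EisPiece.main (CyclotomicField 3 ℚ) p hp h5 a b h hab h3 hh

end Pool.Agent.H47C
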