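import Pool.Agent.H47C.Stm
import Pool.Agent.Y158.KL.Main
import Pool.Agent.Y158.KL.Hil7

/-!
# Project CUB, piece FLTR: Kummer's theorem over `ℚ`

The theorem `core_main` of `Y158/KL/Main.lean` for the function field `L = K` and the trivial places.
-/

set_option autoImplicit false
set_option linter.unusedSectionVars false
set_option linter.unusedVariables false

namespace Pool.Agent.H47C

open NumberField IsDedekindDomain Pool.Agent.H47T Pool.Agent.TH954 Pool.Agent.Y158.KL

namespace FLTRP

variable {K : Type} [Field K] [NumberField K]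

/-- the trivial place of `K` -/
noncomputable def pid (C : Type) [Field C] [Algebra K C] : Plc K K C where
  W := ⊤
  ρ := (algebraMap K C).comp ((⊤ : ValuationSubring K).subtype)
  loc := fun x _ => ValuationSubring.mem_top _
  comm := fun c => ⟨ValuationSubring.mem_top _, rfl⟩

theorem kum_self (l : ℕ) : Kum l K K := by
  intro w hw _
  refine ⟨w, hw, 1, ?_⟩
  simp

theorem pid_val {C : Type} [Field C] [Algebra K C] {x : K} (h : (pid (K := K) C).val x 0) :
    x = 0 := by
  obtain ⟨hx, h2⟩ := h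
  have h3 : algebraMap K C x = 0 := h2
  exact (map_eq_zero _).1 h3

end FLTRP

open FLTRP

theorem fltr_core {p : ℕ} [hp : Fact p.Prime] (hp5 : 5 ≤ p) (K : Type) [Field K] [NumberField K]
    [IsCyclotomicExtension {p} ℚ K] (hcop : (classNumber K).Coprime p) (a b d : ℤ) (ha : a ≠ 0)
    (hb : b ≠ 0) (hd : d ≠ 0) (h : a ^ p + b ^ p = d ^ p) : False := by
  have hodd : Odd p := hp.out.odd_of_ne_two (by omega)
  have : NeZero p := ⟨hp.out.ne_zero⟩
  have hζ : IsPrimitiveRoot (IsCyclotomicExtension.zeta p ℚ K) p :=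
    IsCyclotomicExtension.zeta_spec p ℚ K
  have hd' : ((d : ℤ) : K) ≠ 0 := by exact_mod_cast hd
  have ha' : ((a : ℤ) : K) ≠ 0 := by exact_mod_cast ha
  have hb' : ((b : ℤ) : K) ≠ 0 := by exact_mod_cast hb
  have hdp : ((d : ℤ) : K) ^ p ≠ 0 := pow_ne_zero _ hd'
  have hab : ((a : K) / d) ^ p + ((b : K) / d) ^ p = 1 := by
    rw [div_pow, div_pow, ← add_div, div_eq_one_iff_eq hdp]
    exact_mod_cast h
  rcases core_main (K := K) (L := K) hζ hodd hcop (kummer_lemma hζ (by omega) hcop)
    (kum_self p) (fun v => pid (v.adicCompletion K)) hab with h1 | h1 | ⟨h0, h1⟩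
  · exact div_ne_zero ha' hd' (pid_val h1)
  · exact div_ne_zero hb' hd' (pid_val h1)
  · exact inv_ne_zero h0 (pid_val h1)

/-- **Piece FLTR** (Kummer's theorem). -/
theorem mainFLTR : S_FLTR := by
  intro p hp hp5 hcop a b d ha hb hd h
  have : NeZero ((p : ℕ) : ℚ) := ⟨by exact_mod_cast hp.out.ne_zero⟩
  have hK : IsCyclotomicExtension {p} ℚ (CyclotomicField p ℚ) :=
    CyclotomicField.isCyclotomicExtension p ℚ
  exact fltr_core hp5 (CyclotomicField p ℚ) hcop a b d ha hb hd h

end Pool.Agent.H47C
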