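import Pool.Agent.H47C.RED3
import Pool.Agent.H47C.AsmG
import Pool.Agent.H47C.ARI

/-!
# Project CUB: only one condition of Wieferich type

`c ^ 3 - 3 c t ^ p = 1` gives a solution of Fermat's equation of exponent `p`, or the two equations
`A ^ p - D ^ p = 3 ^ m B ^ p`, `f ^ p - D ^ (2 p) = 3 ^ (m + 1) (A B) ^ p`, `p = 2 m + 1`. If `p ∣ B`
(`p ∣ A`) the descent is applied to the first (the second) equation. If `p` divides `D` or `f` and not
`A B` then `p ^ 2 ∣ 3 ^ (p - 1) - 1`. Otherwise Kummer's congruence for both equations gives `A ≡ -D`,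
`f ≡ - D ^ 2` modulo `p`, and `f ≡ D ^ 2 + 3 A (A - D) ≡ 7 D ^ 2`, a contradiction.
-/

set_option autoImplicit false
set_option linter.all false

namespace Pool.Agent.H47C

open NumberField IsDedekindDomain Pool.Agent.H47T

open RED3 in
/-- the reduction, with the second equation -/
theorem red3G (p : ℕ) (hpp : p.Prime) (hp5 : 5 ≤ p) (c t : ℚ) (ht0 : t ≠ 0)
    (h : c ^ 3 - 3 * c * t ^ p = 1) :
    (∃ a b d : ℤ, a ≠ 0 ∧ b ≠ 0 ∧ d ≠ 0 ∧ a ^ p + b ^ p = d ^ p) ∨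
    (∃ (A B D f : ℤ) (m : ℕ), p = 2 * m + 1 ∧ A ≠ 0 ∧ B ≠ 0 ∧ D ≠ 0 ∧ f ≠ 0 ∧ IsCoprime A D ∧
      IsCoprime f D ∧ A ^ p + (-D) ^ p = 3 ^ m * B ^ p ∧
      f ^ p + (-D ^ 2) ^ p = 3 ^ (m + 1) * (A * B) ^ p) := by
  have hodd : Odd p := hpp.odd_of_ne_two (by omega)
  obtain ⟨m, hm⟩ := hodd
  have hodd : Odd p := ⟨m, hm⟩
  have hp0 : p ≠ 0 := by omega
  have hc0 : c ≠ 0 := by
    rintro rfl
    norm_num at h
  obtain ⟨a, ha⟩ : ∃ a : ℤ, a = c.num := ⟨_, rfl⟩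
  obtain ⟨b, hb⟩ : ∃ b : ℤ, b = (c.den : ℤ) := ⟨_, rfl⟩
  obtain ⟨r, hr⟩ : ∃ r : ℤ, r = t.num := ⟨_, rfl⟩
  obtain ⟨s, hs⟩ : ∃ s : ℤ, s = (t.den : ℤ) := ⟨_, rfl⟩
  have ha0 : a ≠ 0 := by rw [ha]; exact Rat.num_ne_zero.2 hc0
  have hb0 : b ≠ 0 := by rw [hb]; exact_mod_cast c.den_nz
  have hr0 : r ≠ 0 := by rw [hr]; exact Rat.num_ne_zero.2 ht0
  have hs0 : s ≠ 0 := by rw [hs]; exact_mod_cast t.den_nz
  have hab : IsCoprime a b := by
    rw [ha, hb, Int.isCoprime_iff_gcd_eq_one]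
    exact c.reduced
  have hrs : IsCoprime r s := by
    rw [hr, hs, Int.isCoprime_iff_gcd_eq_one]
    exact t.reduced
  have hcab : c = (a : ℚ) / (b : ℚ) := by
    rw [ha, hb]
    exact (Rat.num_div_den c).symm
  have htrs : t = (r : ℚ) / (s : ℚ) := by
    rw [hr, hs]
    exact (Rat.num_div_den t).symm
  have hbQ : (b : ℚ) ≠ 0 := by exact_mod_cast hb0
  have hsQ : (s : ℚ) ≠ 0 := by exact_mod_cast hs0
  have e1 : r ^ p * (3 * a * b ^ 2) = (a ^ 3 - b ^ 3) * s ^ p := by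
    have h1 : (r : ℚ) ^ p * (3 * a * b ^ 2) = (a ^ 3 - b ^ 3) * s ^ p := by
      rw [hcab, htrs, div_pow, div_pow] at h
      have hsp : (s : ℚ) ^ p ≠ 0 := pow_ne_zero _ hsQ
      field_simp at h
      linear_combination (-1 : ℚ) * h
    exact_mod_cast h1
  have hab' : a - b ≠ 0 := by
    intro h0
    have h1 : a = b := sub_eq_zero.1 h0
    rw [h1, sub_self, zero_mul] at e1
    have : r ^ p * (3 * b * b ^ 2) ≠ 0 :=
      mul_ne_zero (pow_ne_zero _ hr0) (mul_ne_zero (mul_ne_zero (by norm_num) hb0)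
        (pow_ne_zero _ hb0))
    exact this e1
  have h3p : Prime (3 : ℤ) := Int.prime_three
  have cop3 : ∀ {z : ℤ}, ¬ (3 : ℤ) ∣ z → IsCoprime z 3 := fun hz =>
    ((h3p.coprime_iff_not_dvd).2 hz).symm
  have cab1 : IsCoprime (a - b) a := by
    have : IsCoprime (-b + 1 * a) a := (IsCoprime.add_mul_right_left_iff).2 (hab.symm.neg_left)
    have e : -b + 1 * a = a - b := by ring
    rwa [e] at this
  have cab2 : IsCoprime (a - b) b := by
    have : IsCoprime (a + (-1) * b) b := (IsCoprime.add_mul_right_left_iff).2 hab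
    have e : a + (-1) * b = a - b := by ring
    rwa [e] at this
  have cq1 : IsCoprime (a ^ 2 + a * b + b ^ 2) a := by
    have : IsCoprime (b ^ 2 + (a + b) * a) a :=
      (IsCoprime.add_mul_right_left_iff).2 (hab.symm.pow_left)
    have e : b ^ 2 + (a + b) * a = a ^ 2 + a * b + b ^ 2 := by ring
    rwa [e] at this
  have cq2 : IsCoprime (a ^ 2 + a * b + b ^ 2) b := by
    have : IsCoprime (a ^ 2 + (a + b) * b) b :=
      (IsCoprime.add_mul_right_left_iff).2 (hab.pow_left)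
    have e : a ^ 2 + (a + b) * b = a ^ 2 + a * b + b ^ 2 := by ring
    rwa [e] at this
  by_cases h3 : (3 : ℤ) ∣ a - b
  · left
    have h3a : ¬ (3 : ℤ) ∣ a := by
      intro h1
      exact h3p.not_unit (cab1.isUnit_of_dvd' h3 h1)
    have h3b : ¬ (3 : ℤ) ∣ b := by
      intro h1
      exact h3p.not_unit (cab2.isUnit_of_dvd' h3 h1)
    obtain ⟨w, hw⟩ := h3
    obtain ⟨q, hq⟩ : ∃ q : ℤ, a ^ 2 + a * b + b ^ 2 = 3 * q := by
      refine ⟨3 * w ^ 2 + a * b, ?_⟩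
      have : a ^ 2 + a * b + b ^ 2 = (a - b) ^ 2 + 3 * (a * b) := by ring
      rw [this, hw]
      ring
    have hq' : q = 3 * w ^ 2 + a * b := by
      have : a ^ 2 + a * b + b ^ 2 = (a - b) ^ 2 + 3 * (a * b) := by ring
      rw [this, hw] at hq
      linarith
    have h3q : ¬ (3 : ℤ) ∣ q := by
      intro h1
      rw [hq'] at h1
      have h2 : (3 : ℤ) ∣ a * b := by
        have := (Int.dvd_add_right (Dvd.intro (w ^ 2) rfl)).1 h1
        exact this
      rcases h3p.dvd_or_dvd h2 with h2 | h2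
      · exact h3a h2
      · exact h3b h2
    have hqa : IsCoprime q a := by
      rw [hq] at cq1
      exact cq1.of_mul_left_right
    have hqb : IsCoprime q b := by
      rw [hq] at cq2
      exact cq2.of_mul_left_right
    have e2 : r ^ p * (a * b ^ 2) = ((a - b) * q) * s ^ p := by
      have h1 : a ^ 3 - b ^ 3 = (a - b) * (3 * q) := by
        rw [← hq]
        ring
      rw [h1] at e1
      have : (3 : ℤ) * (r ^ p * (a * b ^ 2)) = 3 * (((a - b) * q) * s ^ p) := by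
        linear_combination e1
      exact mul_left_cancel₀ (by norm_num) this
    have hUV : IsCoprime ((a - b) * q) (a * b ^ 2) :=
      IsCoprime.mul_left (cab1.mul_right cab2.pow_right) (hqa.mul_right hqb.pow_right)
    obtain ⟨⟨r', hr'⟩, ⟨s', hs'⟩⟩ := split_pow hodd hUV hrs e2
    obtain ⟨⟨α, hα⟩, ⟨γ, hγ⟩⟩ := Int.eq_pow_of_mul_eq_pow_odd (hab.pow_right) hodd hs'
    obtain ⟨β, hβ⟩ : ∃ β : ℤ, b = β ^ p := by
      rw [hm] at hγ ⊢
      exact sq_pow hγ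
    have hcq : IsCoprime (a - b) q := by
      have h1 : IsCoprime q (3 * (a * b)) :=
        IsCoprime.mul_right (cop3 h3q) (hqa.mul_right hqb)
      -- q = 3 w^2 + a b, a - b = 3 w
      have h2 : IsCoprime (a - b) 3 ∨ True := Or.inr trivial
      have h3 : IsCoprime w q := by
        have h4 : IsCoprime w (a * b) := by
          have h5 : IsCoprime (3 * w) (a * b) := by
            rw [← hw]
            exact cab1.mul_right cab2
          exact h5.of_mul_left_right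
        rw [hq']
        have h6 : IsCoprime w (a * b + (3 * w) * w) :=
          (IsCoprime.add_mul_right_right_iff).2 h4
        have e : a * b + (3 * w) * w = 3 * w ^ 2 + a * b := by ring
        rwa [e] at h6
      rw [hw]
      exact IsCoprime.mul_left (cop3 h3q).symm h3
    obtain ⟨⟨d, hd⟩, _⟩ := Int.eq_pow_of_mul_eq_pow_odd hcq hodd hr'
    have hα0 : α ≠ 0 := by
      rintro rfl
      rw [zero_pow hp0] at hα
      exact ha0 hα
    have hβ0 : β ≠ 0 := by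
      rintro rfl
      rw [zero_pow hp0] at hβ
      exact hb0 hβ
    have hd0 : d ≠ 0 := by
      rintro rfl
      rw [zero_pow hp0] at hd
      exact hab' hd
    refine ⟨α, -β, d, hα0, neg_ne_zero.2 hβ0, hd0, ?_⟩
    rw [hodd.neg_pow, ← hα, ← hβ, ← hd]
    ring
  · have hU3 : ¬ (3 : ℤ) ∣ a ^ 3 - b ^ 3 := by
      intro h1
      apply h3
      have h2 : (3 : ℤ) ∣ (a - b) ^ 3 := by
        have e : (a - b) ^ 3 = a ^ 3 - b ^ 3 + 3 * (a * b ^ 2 - a ^ 2 * b) := by ring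
        rw [e]
        exact dvd_add h1 (Dvd.intro _ rfl)
      exact h3p.dvd_of_dvd_pow h2
    have e3 : a ^ 3 - b ^ 3 = (a - b) * (a ^ 2 + a * b + b ^ 2) := by ring
    have hUV : IsCoprime (a ^ 3 - b ^ 3) (3 * a * b ^ 2) := by
      refine IsCoprime.mul_right (IsCoprime.mul_right (cop3 hU3) ?_) (IsCoprime.pow_right ?_)
      · rw [e3]
        exact IsCoprime.mul_left cab1 cq1
      · rw [e3]
        exact IsCoprime.mul_left cab2 cq2
    obtain ⟨⟨r', hr'⟩, ⟨s', hs'⟩⟩ := split_pow hodd hUV hrs e1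
    have hcq : IsCoprime (a - b) (a ^ 2 + a * b + b ^ 2) := by
      have h4 : IsCoprime (a - b) (3 * (a * b)) :=
        IsCoprime.mul_right (cop3 h3) (cab1.mul_right cab2)
      have h6 : IsCoprime (a - b) (3 * (a * b) + (a - b) * (a - b)) :=
        (IsCoprime.add_mul_right_right_iff).2 h4
      have e : 3 * (a * b) + (a - b) * (a - b) = a ^ 2 + a * b + b ^ 2 := by ring
      rwa [e] at h6
    rw [e3] at hr'
    obtain ⟨⟨d, hd⟩, ⟨f, hf⟩⟩ := Int.eq_pow_of_mul_eq_pow_odd hcq hodd hr'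
    have hd0 : d ≠ 0 := by
      rintro rfl
      rw [zero_pow hp0] at hd
      exact hab' hd
    have hf0 : f ≠ 0 := by
      rintro rfl
      rw [zero_pow hp0] at hf
      have h1 : 0 < a ^ 2 := by positivity
      nlinarith [sq_nonneg (a + 2 * b)]
    have hfd : IsCoprime f d := by
      have h1 : IsCoprime (f ^ p) (d ^ p) := by
        rw [← hf, ← hd]
        exact hcq.symm
      exact (IsCoprime.pow_iff (by omega) (by omega)).1 h1
    have hfe : f ^ p = (d ^ 2) ^ p + 3 * (a * b) := by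
      rw [← hf, ← pow_mul, mul_comm 2 p, pow_mul, ← hd]
      ring
    have h3s : (3 : ℤ) ∣ s' := by
      have : (3 : ℤ) ∣ s' ^ p := ⟨a * b ^ 2, by rw [← hs']; ring⟩
      exact h3p.dvd_of_dvd_pow this
    have h3ab : (3 : ℤ) ∣ a * b ^ 2 := by
      obtain ⟨s1, hs1⟩ := h3s
      have h4 : (3 : ℤ) * (a * b ^ 2) = 3 * (3 * (3 ^ (p - 2) * s1 ^ p)) := by
        have h5 : (3 : ℤ) ^ p = 3 * (3 * 3 ^ (p - 2)) := by
          rw [← pow_succ', ← pow_succ']
          congr 1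
          omega
        have h6 : 3 * (a * b ^ 2) = 3 * a * b ^ 2 := by ring
        rw [h6, hs', hs1, mul_pow, h5]
        ring
      exact ⟨3 ^ (p - 2) * s1 ^ p, mul_left_cancel₀ (by norm_num) h4⟩
    have hpow3 : ∀ z : ℤ, (3 : ℤ) * z = 3 * z := fun z => rfl
    rcases h3p.dvd_or_dvd h3ab with h3a | h3b'
    · -- 3 divides a
      have h3b : ¬ (3 : ℤ) ∣ b := fun h1 => h3p.not_unit (hab.isUnit_of_dvd' h3a h1)
      have hc1 : IsCoprime (3 * a) (b ^ 2) :=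
        IsCoprime.pow_right (IsCoprime.mul_left (cop3 h3b).symm hab)
      obtain ⟨⟨α, hα⟩, ⟨γ, hγ⟩⟩ := Int.eq_pow_of_mul_eq_pow_odd hc1 hodd hs'
      obtain ⟨β, hβ⟩ : ∃ β : ℤ, b = β ^ p := by
        rw [hm] at hγ ⊢
        exact sq_pow hγ
      have h3α : (3 : ℤ) ∣ α := h3p.dvd_of_dvd_pow ⟨a, hα.symm⟩
      obtain ⟨α1, hα1⟩ := h3α
      have haα : a = 3 ^ (p - 1) * α1 ^ p := by
        have h4 : (3 : ℤ) * a = 3 * (3 ^ (p - 1) * α1 ^ p) := by
          have h5 : (3 : ℤ) ^ p = 3 * 3 ^ (p - 1) := by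
            rw [← pow_succ']
            congr 1
            omega
          rw [hα, hα1, mul_pow, h5]
          ring
        exact mul_left_cancel₀ (by norm_num) h4
      have hα0 : α1 ≠ 0 := by
        rintro rfl
        rw [zero_pow hp0, mul_zero] at haα
        exact ha0 haα
      have hβ0 : β ≠ 0 := by
        rintro rfl
        rw [zero_pow hp0] at hβ
        exact hb0 hβ
      left
      refine ⟨d ^ 2, α * β, f, pow_ne_zero _ hd0, mul_ne_zero ?_ hβ0, hf0, ?_⟩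
      · rintro rfl
        rw [zero_pow hp0] at hα
        exact ha0 (by linarith)
      · rw [hfe, mul_pow, ← hα, ← hβ]
        ring
    · -- 3 divides b
      have h3b : (3 : ℤ) ∣ b := h3p.dvd_of_dvd_pow h3b'
      have h3a : ¬ (3 : ℤ) ∣ a := fun h1 => h3p.not_unit (hab.isUnit_of_dvd' h1 h3b)
      have hc1 : IsCoprime a (3 * b ^ 2) :=
        IsCoprime.mul_right (cop3 h3a) hab.pow_right
      have hs'' : a * (3 * b ^ 2) = s' ^ p := by rw [← hs']; ring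
      obtain ⟨⟨α, hα⟩, ⟨γ, hγ⟩⟩ := Int.eq_pow_of_mul_eq_pow_odd hc1 hodd hs''
      have h3γ : (3 : ℤ) ∣ γ := h3p.dvd_of_dvd_pow ⟨b ^ 2, hγ.symm⟩
      obtain ⟨γ1, hγ1⟩ := h3γ
      have hb2 : b ^ 2 = (3 ^ m) ^ 2 * γ1 ^ p := by
        have h4 : (3 : ℤ) * b ^ 2 = 3 * ((3 ^ m) ^ 2 * γ1 ^ p) := by
          have h5 : (3 : ℤ) ^ p = 3 * (3 ^ m) ^ 2 := by
            rw [hm]
            ring
          rw [hγ, hγ1, mul_pow, h5]
          ring
        exact mul_left_cancel₀ (by norm_num) h4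
      have h3m : (3 : ℤ) ^ m ∣ b := (Int.pow_dvd_pow_iff two_ne_zero).1 ⟨_, hb2⟩
      obtain ⟨b1, hb1⟩ := h3m
      have hb1' : b1 ^ 2 = γ1 ^ p := by
        rw [hb1, mul_pow] at hb2
        exact mul_left_cancel₀ (pow_ne_zero _ (pow_ne_zero _ (by norm_num))) hb2
      obtain ⟨β, hβ⟩ : ∃ β : ℤ, b1 = β ^ p := by
        rw [hm] at hb1' ⊢
        exact sq_pow hb1'
      have hα0 : α ≠ 0 := by
        rintro rfl
        rw [zero_pow hp0] at hα
        exact ha0 hα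
      have hβ0 : β ≠ 0 := by
        rintro rfl
        rw [zero_pow hp0] at hβ
        rw [hβ, mul_zero] at hb1
        exact hb0 hb1
      right
      refine ⟨α, β, d, f, m, hm, hα0, hβ0, hd0, hf0, ?_, hfd, ?_, ?_⟩
      · have h4 : IsCoprime (α ^ p) (d ^ p) := by
          rw [← hα, ← hd]
          exact cab1.symm
        exact (IsCoprime.pow_iff (by omega) (by omega)).1 h4
      · rw [hodd.neg_pow, ← hα, ← hd, ← hβ, ← hb1]
        ring
      · have h5 : (-d ^ 2) ^ p = -(d ^ 2) ^ p := hodd.neg_pow _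
        rw [h5, hfe, mul_pow, ← hα, ← hβ]
        rw [hb1]
        ring

theorem ari_key {p : ℕ} (hp : p.Prime) (h5 : 5 ≤ p) {e : ℕ} (he : ¬ p ∣ e) {x d : ℤ}
    (hx : (x : ZMod (p ^ 2)) ^ p = 3 ^ e * (d : ZMod (p ^ 2)) ^ p) (hd : ¬ (p : ℤ) ∣ d) :
    p ^ 2 ∣ 3 ^ (p - 1) - 1 := by
  have h1 := ari_rel hp h5 (k := 1) (b := x) (e := e) (d := d) (by
    push_cast
    rw [one_mul, hx]) hd
  push_cast at h1
  rw [one_pow] at h1
  have h2 : ((3 : ZMod (p ^ 2)) ^ (p - 1)) ^ e = 1 := by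
    rw [← h1, ← pow_mul, ← pow_mul, mul_comm]
  have h3 := ari_f hp h5
  have h4 : orderOf ((3 : ZMod (p ^ 2)) ^ (p - 1)) ∣ Nat.gcd e p :=
    Nat.dvd_gcd (orderOf_dvd_of_pow_eq_one h2) (orderOf_dvd_of_pow_eq_one h3)
  have h5' : Nat.gcd e p = 1 := Nat.Coprime.symm ((Nat.Prime.coprime_iff_not_dvd hp).2 he)
  rw [h5', Nat.dvd_one, orderOf_eq_one_iff] at h4
  exact ari_fin hp h5 (by norm_num) (by exact_mod_cast h4)

/-- the equation `a ^ p + b ^ p = 3 ^ e d ^ p` with `p ∣ d` -/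
theorem noD (hLAM : S_LAM) (hVQ : S_VQ) (hPTH : S_PTH) (hHUP : S_HUP)
    (hINIT : S_INIT) (hCJ : S_CJ) {p : ℕ} [Fact p.Prime] (h5 : 5 ≤ p)
    (hcl : (classNumber (CyclotomicField p ℚ)).Coprime p) {a b d : ℤ} {e : ℕ} (he : 1 ≤ e)
    (ha : a ≠ 0) (hb : b ≠ 0) (hd : d ≠ 0) (hab : IsCoprime a b)
    (h : a ^ p + b ^ p = 3 ^ e * d ^ p) (hpd : (p : ℤ) ∣ d) : False := by
  have hp : p.Prime := Fact.out
  have : NeZero p := ⟨hp.ne_zero⟩
  have : NeZero ((p : ℕ) : ℚ) := ⟨Nat.cast_ne_zero.2 hp.ne_zero⟩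
  have : IsCyclotomicExtension {p} ℚ (CyclotomicField p ℚ) :=
    CyclotomicField.isCyclotomicExtension p ℚ
  obtain ⟨ζ, hζ⟩ : ∃ ζ : CyclotomicField p ℚ, IsPrimitiveRoot ζ p :=
    ⟨_, IsCyclotomicExtension.zeta_spec p ℚ (CyclotomicField p ℚ)⟩
  obtain ⟨J, hJ, -⟩ := hCJ p (CyclotomicField p ℚ) ζ hζ
  obtain ⟨i1, i2, m, hm, i3⟩ := hINIT p h5 (CyclotomicField p ℚ) ζ hζ a b d e he ha hb hd hab h hpd
  refine descentG hLAM hVQ hPTH hHUP h5 hζ hJ hcl hm
    (x := (a : CyclotomicField p ℚ) / b) ⟨?_, i1, fun v hv => (i2 v hv).le, i3⟩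
  rw [map_div₀, map_intCast, map_intCast]

theorem noG (hLAM : S_LAM) (hVQ : S_VQ) (hPTH : S_PTH) (hHUP : S_HUP)
    (hINIT : S_INIT) (hVALQ : S_VALQ) (hKCONG : S_KCONG) (hCJ : S_CJ) {p : ℕ}
    [Fact p.Prime] (h5 : 5 ≤ p) (hcl : (classNumber (CyclotomicField p ℚ)).Coprime p)
    (h3 : ¬ p ^ 2 ∣ 3 ^ (p - 1) - 1) {A B D f : ℤ} {m : ℕ} (hm : p = 2 * m + 1)
    (hA : A ≠ 0) (hB : B ≠ 0) (hD : D ≠ 0) (hf : f ≠ 0) (hAD : IsCoprime A D) (hfD : IsCoprime f D)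
    (e1 : A ^ p + (-D) ^ p = 3 ^ m * B ^ p)
    (e2 : f ^ p + (-D ^ 2) ^ p = 3 ^ (m + 1) * (A * B) ^ p) : False := by
  have hp : p.Prime := Fact.out
  have hodd : Odd p := hp.odd_of_ne_two (by omega)
  have hpp := Nat.prime_iff_prime_int.1 hp
  have : NeZero p := ⟨hp.ne_zero⟩
  have : NeZero ((p : ℕ) : ℚ) := ⟨Nat.cast_ne_zero.2 hp.ne_zero⟩
  have : IsCyclotomicExtension {p} ℚ (CyclotomicField p ℚ) :=
    CyclotomicField.isCyclotomicExtension p ℚ
  obtain ⟨ζ, hζ⟩ : ∃ ζ : CyclotomicField p ℚ, IsPrimitiveRoot ζ p :=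
    ⟨_, IsCyclotomicExtension.zeta_spec p ℚ (CyclotomicField p ℚ)⟩
  have hc2 : IsCoprime f (-D ^ 2) := (hfD.pow_right).neg_right
  have hD2 : -D ^ 2 ≠ 0 := neg_ne_zero.2 (pow_ne_zero _ hD)
  by_cases pB : (p : ℤ) ∣ B
  · exact noD hLAM hVQ hPTH hHUP hINIT hCJ h5 hcl (by omega) hA (neg_ne_zero.2 hD) hB
      hAD.neg_right e1 pB
  by_cases pA : (p : ℤ) ∣ A
  · exact noD hLAM hVQ hPTH hHUP hINIT hCJ h5 hcl (by omega) hf hD2 (mul_ne_zero hA hB) hc2 e2
      (pA.mul_right _)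
  have pAB : ¬ (p : ℤ) ∣ A * B := by
    intro h
    rcases hpp.dvd_or_dvd h with h | h
    · exact pA h
    · exact pB h
  by_cases pD : (p : ℤ) ∣ D
  · apply h3
    refine ari_key hp h5 (e := m) (x := A) (d := B) (fun h => ?_) ?_ pB
    · have := Nat.le_of_dvd (by omega) h
      omega
    · have h1 := congrArg (fun z : ℤ => (z : ZMod (p ^ 2))) e1
      push_cast at h1
      have h2 : ((-D : ℤ) : ZMod (p ^ 2)) ^ p = 0 := by
        have := ari_pow p (x := -D) (y := 0) (by rw [sub_zero]; exact (dvd_neg).2 pD)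
        rw [this]
        push_cast
        exact zero_pow hp.ne_zero
      push_cast at h2
      rw [h2, add_zero] at h1
      exact h1
  by_cases pf : (p : ℤ) ∣ f
  · apply h3
    refine ari_key hp h5 (e := m + 1) (x := -D ^ 2) (d := A * B) (fun h => ?_) ?_ pAB
    · have := Nat.le_of_dvd (by omega) h
      omega
    · have h1 := congrArg (fun z : ℤ => (z : ZMod (p ^ 2))) e2
      push_cast at h1
      have h2 : ((f : ℤ) : ZMod (p ^ 2)) ^ p = 0 := by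
        have := ari_pow p (x := f) (y := 0) (by rwa [sub_zero])
        rw [this]
        push_cast
        exact zero_pow hp.ne_zero
      rw [h2, zero_add] at h1
      push_cast
      exact h1
  have pD2 : ¬ (p : ℤ) ∣ -D ^ 2 := by
    intro h
    exact pD (hpp.dvd_of_dvd_pow ((dvd_neg).1 h))
  have k1 := hKCONG p h5 (CyclotomicField p ℚ) ζ hζ hcl A (-D) pA (fun h => pD ((dvd_neg).1 h))
    (hVALQ p h5 (CyclotomicField p ℚ) ζ hζ A (-D) B m (by omega) (neg_ne_zero.2 hD) hB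
      hAD.neg_right e1 pB)
  have k2 := hKCONG p h5 (CyclotomicField p ℚ) ζ hζ hcl f (-D ^ 2) pf pD2
    (hVALQ p h5 (CyclotomicField p ℚ) ζ hζ f (-D ^ 2) (A * B) (m + 1) (by omega) hD2
      (mul_ne_zero hA hB) hc2 e2 pAB)
  -- modulo `p`
  have e3 : f ^ p = (D ^ 2) ^ p + 3 * A ^ p * (A ^ p - D ^ p) := by
    rw [hodd.neg_pow] at e1 e2
    rw [mul_pow, pow_succ] at e2
    linear_combination e2 - 3 * A ^ p * e1
  have key : (p : ℤ) ∣ f - (D ^ 2 + 3 * A * (A - D)) := by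
    rw [← ZMod.intCast_eq_intCast_iff_dvd_sub, eq_comm]
    have h1 := congrArg (fun z : ℤ => (z : ZMod p)) e3
    push_cast at h1
    simp only [ZMod.pow_card] at h1
    rw [h1]
    push_cast
    have h2 : ((D : ZMod p) ^ 2) ^ p = (D : ZMod p) ^ 2 := ZMod.pow_card _
    first
      | rfl
      | (rw [h2])
  have hfin : (p : ℤ) ∣ 8 * D ^ 2 := by
    have h1 : (8 : ℤ) * D ^ 2 = (f - -D ^ 2) - (f - (D ^ 2 + 3 * A * (A - D))) -
        (3 * A - 6 * D) * (A - -D) := by ring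
    rw [h1]
    exact dvd_sub (dvd_sub k2 key) (k1.mul_left _)
  rcases hpp.dvd_or_dvd hfin with h | h
  · have h8 : p ∣ 2 ^ 3 := by exact_mod_cast h
    have := Nat.le_of_dvd (by norm_num) (hp.dvd_of_dvd_pow h8)
    omega
  · exact pD (hpp.dvd_of_dvd_pow h)

/-- the two equations have no common solution -/
def NoTwo (p : ℕ) : Prop := ∀ (A B D f : ℤ) (m : ℕ), p = 2 * m + 1 → A ≠ 0 → B ≠ 0 → D ≠ 0 →
  f ≠ 0 → IsCoprime A D → IsCoprime f D → A ^ p + (-D) ^ p = 3 ^ m * B ^ p →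
  f ^ p + (-D ^ 2) ^ p = 3 ^ (m + 1) * (A * B) ^ p → False

/-- the case `α ^ p + β ^ p ∈ ℚ` -/
theorem noABG (hROOT : S_ROOT) {K : Type} [Field K] [NumberField K]
    (hK : Module.finrank ℚ K = 2) {p : ℕ} (hp : p.Prime) (h5 : 5 ≤ p)
    (hno1 : ∀ a b d : ℤ, a ≠ 0 → b ≠ 0 → d ≠ 0 → a ^ p + b ^ p ≠ d ^ p)
    (hno2 : NoTwo p) {α β : K} (hα : α ≠ 0) (hβ : β ≠ 0)
    (h : α ^ (3 * p) + β ^ (3 * p) = 1) {c : ℚ} (hc : α ^ p + β ^ p = algebraMap ℚ K c) : False := by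
  have h1 : (α ^ p) ^ 3 + (β ^ p) ^ 3 = 1 := by
    rw [← pow_mul, ← pow_mul, mul_comm p 3, h]
  have h2 : (algebraMap ℚ K c) ^ 3 - 3 * algebraMap ℚ K c * (α * β) ^ p = 1 := by
    rw [← hc, mul_pow]
    linear_combination h1
  have hc0 : c ≠ 0 := by
    rintro rfl
    rw [map_zero] at h2
    simp at h2
  have hcK : algebraMap ℚ K c ≠ 0 := (map_ne_zero _).2 hc0
  have h3 : (α * β) ^ p = algebraMap ℚ K ((c ^ 3 - 1) / (3 * c)) := by
    rw [map_div₀, map_sub, map_pow, map_one, map_mul, map_ofNat (algebraMap ℚ K) 3]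
    rw [eq_div_iff (mul_ne_zero three_ne_zero hcK)]
    linear_combination -h2
  obtain ⟨t, ht⟩ := hROOT K hK p hp h5 _ _ h3
  have ht0 : t ≠ 0 := by
    rintro rfl
    rw [map_zero] at ht
    exact mul_ne_zero hα hβ ht
  have h4 : c ^ 3 - 3 * c * t ^ p = 1 := by
    apply (algebraMap ℚ K).injective
    rw [map_sub, map_mul, map_mul, map_pow, map_pow, map_one, map_ofNat (algebraMap ℚ K) 3, ← ht, h2]
  rcases red3G p hp h5 c t ht0 h4 with ⟨a, b, d, ha, hb, hd, h6⟩ |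
    ⟨A, B, D, f, m, h6, h7, h8, h9, h10, h11, h12, h13, h14⟩
  · exact hno1 a b d ha hb hd h6
  · exact hno2 A B D f m h6 h7 h8 h9 h10 h11 h12 h13 h14

/-- **The main theorem.** -/
theorem mainG (hRED1 : S_RED1) (hROOT : S_ROOT) {K : Type} [Field K]
    [NumberField K] (hK : Module.finrank ℚ K = 2) {p : ℕ} (hp : p.Prime) (h5 : 5 ≤ p)
    (hno1 : ∀ a b d : ℤ, a ≠ 0 → b ≠ 0 → d ≠ 0 → a ^ p + b ^ p ≠ d ^ p)
    (hno2 : NoTwo p) {x y z : K} (hx : x ≠ 0) (hy : y ≠ 0)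
    (hz : z ≠ 0) (h : x ^ (3 * p) + y ^ (3 * p) = z ^ (3 * p)) : False := by
  have hodd : Odd p := hp.odd_of_ne_two (by omega)
  have hodd3 : Odd (3 * p) := Odd.mul (by decide) hodd
  have hu : (x / z) ^ p ≠ 0 := pow_ne_zero _ (div_ne_zero hx hz)
  have hv : (y / z) ^ p ≠ 0 := pow_ne_zero _ (div_ne_zero hy hz)
  have h1 : (x / z) ^ (3 * p) + (y / z) ^ (3 * p) = 1 := by
    rw [div_pow, div_pow, ← add_div, h, div_self (pow_ne_zero _ hz)]
  have h2 : ((x / z) ^ p) ^ 3 + ((y / z) ^ p) ^ 3 = 1 := by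
    rw [← pow_mul, ← pow_mul, mul_comm p 3, h1]
  rcases hRED1 K hK _ _ hu hv h2 with ⟨c, hc⟩ | ⟨c, hc⟩ | ⟨c, hc⟩
  · exact noABG hROOT hK hp h5 hno1 hno2 (div_ne_zero hx hz) (div_ne_zero hy hz) h1 hc
  · -- `z ^ n + (-y) ^ n = x ^ n`
    refine noABG hROOT hK hp h5 hno1 hno2 (α := z / x) (β := -y / x) (div_ne_zero hz hx)
      (div_ne_zero (neg_ne_zero.2 hy) hx) (c := c) ?_ ?_
    · rw [div_pow, div_pow, hodd3.neg_pow, ← add_div, ← h, div_eq_one_iff_eq (pow_ne_zero _ hx)]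
      ring
    · have h3 : x ^ p ≠ 0 := pow_ne_zero _ hx
      have h4 : z ^ p ≠ 0 := pow_ne_zero _ hz
      rw [div_pow, div_pow] at hc
      rw [div_pow, div_pow, hodd.neg_pow, ← add_div, div_eq_iff h3]
      field_simp at hc
      linear_combination hc
  · refine noABG hROOT hK hp h5 hno1 hno2 (α := z / y) (β := -x / y) (div_ne_zero hz hy)
      (div_ne_zero (neg_ne_zero.2 hx) hy) (c := c) ?_ ?_
    · rw [div_pow, div_pow, hodd3.neg_pow, ← add_div, ← h, div_eq_one_iff_eq (pow_ne_zero _ hy)]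
      ring
    · have h3 : y ^ p ≠ 0 := pow_ne_zero _ hy
      have h4 : z ^ p ≠ 0 := pow_ne_zero _ hz
      rw [div_pow, div_pow] at hc
      rw [div_pow, div_pow, hodd.neg_pow, ← add_div, div_eq_iff h3]
      field_simp at hc
      linear_combination hc

end Pool.Agent.H47C
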