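import Pool.Agent.H47C.Stm

/-!
Project CUB (helper47), piece HUP.
-/

set_option autoImplicit false

namespace Pool.Agent.H47C

open NumberField Height

theorem mainHUP : S_HUP := by
  intro F _ _ κ z1 z2 z3 z4
  have hadd : ∀ z x : F, mulHeight₁ (x + z) ≤ (2 ^ totalWeight F * mulHeight₁ z) * mulHeight₁ x := by
    intro z x
    have := mulHeight₁_add_le x z
    linarith [mul_comm (mulHeight₁ x) (mulHeight₁ z),
      (by ring : 2 ^ totalWeight F * mulHeight₁ x * mulHeight₁ z =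
        (2 ^ totalWeight F * mulHeight₁ z) * mulHeight₁ x)]
  obtain ⟨c, hc⟩ : ∃ c : F → ℝ, c = fun z => 2 ^ totalWeight F * mulHeight₁ z := ⟨_, rfl⟩
  have hc1 : ∀ z, 1 ≤ c z := by
    intro z
    rw [hc]
    exact one_le_mul_of_one_le_of_one_le (one_le_pow₀ (by norm_num)) (one_le_mulHeight₁ z)
  have hc0 : ∀ z, 0 ≤ c z := fun z => zero_le_one.trans (hc1 z)
  have hadd' : ∀ z x : F, mulHeight₁ (x + z) ≤ c z * mulHeight₁ x := by
    intro z x
    rw [hc]
    exact hadd z x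
  refine ⟨mulHeight₁ κ * (c z1 * c z2 * (c z3 * c z4)), ?_, fun x y p h => ?_⟩
  · refine one_le_mul_of_one_le_of_one_le (one_le_mulHeight₁ κ) ?_
    exact one_le_mul_of_one_le_of_one_le (one_le_mul_of_one_le_of_one_le (hc1 _) (hc1 _))
      (one_le_mul_of_one_le_of_one_le (hc1 _) (hc1 _))
  · have hx := mulHeight₁_pos x
    have hκ := mulHeight₁_pos κ
    rw [← mulHeight₁_pow, h, div_eq_mul_inv]
    have h1 := mulHeight₁_mul_le (κ * ((x + z1) * (x + z2))) ((x + z3) * (x + z4))⁻¹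
    have h2 := mulHeight₁_mul_le κ ((x + z1) * (x + z2))
    have h3 := mulHeight₁_mul_le (x + z1) (x + z2)
    have h4 := mulHeight₁_mul_le (x + z3) (x + z4)
    rw [mulHeight₁_inv] at h1
    have h5 : mulHeight₁ (x + z1) * mulHeight₁ (x + z2) ≤
        (c z1 * mulHeight₁ x) * (c z2 * mulHeight₁ x) :=
      mul_le_mul (hadd' z1 x) (hadd' z2 x) (mulHeight₁_pos _).le (mul_nonneg (hc0 _) hx.le)
    have h6 : mulHeight₁ (x + z3) * mulHeight₁ (x + z4) ≤
        (c z3 * mulHeight₁ x) * (c z4 * mulHeight₁ x) :=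
      mul_le_mul (hadd' z3 x) (hadd' z4 x) (mulHeight₁_pos _).le (mul_nonneg (hc0 _) hx.le)
    calc _ ≤ _ := h1
      _ ≤ (mulHeight₁ κ * ((c z1 * mulHeight₁ x) * (c z2 * mulHeight₁ x))) *
          ((c z3 * mulHeight₁ x) * (c z4 * mulHeight₁ x)) := by
        refine mul_le_mul (h2.trans ?_) (h4.trans h6) (mulHeight₁_pos _).le ?_
        · exact mul_le_mul_of_nonneg_left (h3.trans h5) hκ.le
        · exact mul_nonneg hκ.le (mul_nonneg (mul_nonneg (hc0 _) hx.le)
            (mul_nonneg (hc0 _) hx.le))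
      _ = mulHeight₁ κ * (c z1 * c z2 * (c z3 * c z4)) * mulHeight₁ x ^ 4 := by ring

end Pool.Agent.H47C
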