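import Pool.Agent.H47C.Stm
import Pool.Agent.Y158.KL.Case2
import Pool.Agent.Y158.KL.Glob1

/-!
# Project CUB, piece KCONG: Kummer's congruence
-/

set_option autoImplicit false
set_option linter.unusedSectionVars false

namespace Pool.Agent.H47C

open NumberField IsDedekindDomain WithZero Pool.Agent.H47T Pool.Agent.Y158.KL

namespace KCP

variable {K : Type} [Field K] [NumberField K] {p : ℕ}
  [hp : Fact p.Prime] [hK : IsCyclotomicExtension {p} ℚ K] {ζ : K} (hζ : IsPrimitiveRoot ζ p)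

include hK in
/-- the automorphisms -/
theorem exists_aut (hζ : IsPrimitiveRoot ζ p) {k : ℕ} (hk : ¬ p ∣ k) :
    ∃ σ : K ≃ₐ[ℚ] K, σ ζ = ζ ^ k := by
  have hirr : Irreducible (Polynomial.cyclotomic p ℚ) :=
    Polynomial.cyclotomic.irreducible_rat hp.out.pos
  have hcop : k.Coprime p := (Nat.Prime.coprime_iff_not_dvd hp.out).2 hk |>.symm
  have hζk : IsPrimitiveRoot (ζ ^ k) p := hζ.pow_of_coprime k hcop
  have h1 : minpoly ℚ ζ = minpoly ℚ (ζ ^ k) := by
    rw [← Polynomial.cyclotomic_eq_minpoly_rat hζ hp.out.pos,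
      ← Polynomial.cyclotomic_eq_minpoly_rat hζk hp.out.pos]
  have : IsGalois ℚ K := IsCyclotomicExtension.isGalois {p} ℚ K
  have : Normal ℚ K := inferInstance
  have h2 : IsConjRoot ℚ ζ (ζ ^ k) := h1
  obtain ⟨σ, hσ⟩ := (isConjRoot_iff_exists_algEquiv).1 h2
  exact ⟨σ.symm, by rw [AlgEquiv.symm_apply_eq]; exact hσ.symm⟩

theorem pi_dvd_p (n : ℤ) (hn : (p : ℤ) ∣ n) (hp5 : 5 ≤ p) :
    (hζ.toInteger - 1) ^ 4 ∣ (n : 𝓞 K) := by
  obtain ⟨m, rfl⟩ := hn
  have h1 := (IsCyclotomicExtension.Rat.associated_zeta_sub_one_pow_prime p hζ).dvd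
  push_cast
  refine Dvd.dvd.mul_right ?_ _
  exact (pow_dvd_pow _ (by omega)).trans h1

end KCP

open KCP

/-- **Piece KCONG** (Kummer's congruence). -/
theorem mainKCONG : S_KCONG := by
  intro p hp hp5 K _ _ hK ζ hζ hcop a b ha hb hev
  have hpZ : Prime (p : ℤ) := Nat.prime_iff_prime_int.1 hp.out
  have hodd : Odd p := hp.out.odd_of_ne_two (by omega)
  set z := hζ.toInteger with hz
  set π := z - 1 with hπ
  have hππ : Prime π := hζ.zeta_sub_one_prime'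
  have hzK : algebraMap (𝓞 K) K z = ζ := rfl
  have hmod : ∀ k : ℕ, π ∣ z ^ k - 1 := by
    intro k
    have := sub_dvd_pow_sub_pow z 1 k
    rwa [one_pow] at this
  -- `a + b` is not divisible by `p`
  have hab : ¬ (p : ℤ) ∣ a + b := by
    intro hdvd
    obtain ⟨m, hm⟩ := hev (lam hζ)
    have e : (a : K) + (b : K) * ζ = algebraMap (𝓞 K) K (((a + b : ℤ) : 𝓞 K) + (b : 𝓞 K) * π) := by
      rw [map_add, map_mul, map_intCast, map_intCast, hπ, map_sub, map_one, hzK]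
      push_cast
      ring
    have h1 : (lam hζ).intValuation ((b : 𝓞 K) * π) = exp (-1) := by
      rw [map_mul, lam_pi hζ]
      have h2 : (lam hζ).intValuation (b : 𝓞 K) = 1 := by
        rw [HeightOneSpectrum.intValuation_eq_one_iff]
        intro h3
        have h4 : π ∣ (b : 𝓞 K) := by
          have h5 : (b : 𝓞 K) ∈ Ideal.span {hζ.toInteger - 1} := h3
          rwa [Ideal.mem_span_singleton] at h5
        exact hb ((pi_dvd_int hζ).1 h4)
      rw [h2, one_mul]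
    have h2 : (lam hζ).intValuation ((a + b : ℤ) : 𝓞 K) < exp (-1) := by
      have h3 : (lam hζ).intValuation ((a + b : ℤ) : 𝓞 K) ≤ exp (-((4 : ℕ) : ℤ)) :=
        (lam_dvd hζ _ 4).2 (pi_dvd_p hζ _ hdvd hp5)
      refine h3.trans_lt ?_
      rw [exp_lt_exp]
      norm_num
    rw [e, HeightOneSpectrum.valuation_of_algebraMap,
      Valuation.map_add_eq_of_lt_right _ (by rw [h1]; exact h2), h1, exp_inj] at hm
    have h6 : (p : ℤ) ∣ 1 := ⟨-m, by linarith⟩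
    have h7 := Int.le_of_dvd one_pos h6
    omega
  -- the element is a unit times a power
  have hc0 : (a : K) + (b : K) * ζ ≠ 0 := by
    intro h0
    obtain ⟨m, hm⟩ := hev (lam hζ)
    rw [h0, map_zero] at hm
    exact exp_ne_zero hm.symm
  obtain ⟨u, g, hg0, hug⟩ := exists_unit_mul_pow hp.out.pos hcop _ hc0 (fun v => by
    obtain ⟨m, hm⟩ := hev v
    exact ⟨exp m, by rw [hm, exp_pow]⟩)
  -- inverses modulo `p`
  have hinv : ∀ n : ℤ, ¬ (p : ℤ) ∣ n → ∃ n' : ℤ, (p : ℤ) ∣ n * n' - 1 := by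
    intro n hn
    obtain ⟨x, y, hxy⟩ := (Prime.coprime_iff_not_dvd hpZ).2 hn
    exact ⟨y, -x, by linarith⟩
  obtain ⟨b', hb'⟩ := hinv b hb
  set ξ : ℤ := a * b' with hξ
  have hb'p : ¬ (p : ℤ) ∣ b' := by
    intro h1
    have h2 : (p : ℤ) ∣ b * b' := h1.mul_left _
    have h3 := (dvd_sub_right h2).1 hb'
    exact hpZ.not_dvd_one h3
  have hξp : ¬ (p : ℤ) ∣ ξ := by
    intro h1
    rcases hpZ.dvd_or_dvd h1 with h2 | h2
    · exact ha h2
    · exact hb'p h2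
  have hξ1p : ¬ (p : ℤ) ∣ ξ + 1 := by
    intro h1
    apply hab
    have e : a + b = b * (ξ + 1) - (b * b' - 1) * a := by rw [hξ]; ring
    rw [e]
    exact dvd_sub (h1.mul_left _) (hb'.mul_right _)
  obtain ⟨f, hf⟩ := hinv (ξ + 1) hξ1p
  have main := glob1 hζ hp5 (ξ := (ξ : 𝓞 K)) (by rw [pi_dvd_int hζ]; exact hξp)
    (by
      have e : (ξ : 𝓞 K) + 1 = ((ξ + 1 : ℤ) : 𝓞 K) := by push_cast; rfl
      rw [e, pi_dvd_int hζ]
      exact hξ1p) (by
    intro k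
    by_cases hk : p ∣ k
    · obtain ⟨j, rfl⟩ := hk
      refine ⟨1, 1, ?_⟩
      have e : hζ.toInteger ^ (p * j) = 1 := by
        rw [pow_mul, hζ.toInteger_isPrimitiveRoot.pow_eq_one, one_pow]
      rw [e]
      simp
    obtain ⟨σ, hσ⟩ := exists_aut hζ hk
    have hck : (a : K) + (b : K) * ζ ^ k =
        algebraMap (𝓞 K) K (Units.map (RingOfIntegers.mapRingHom (σ : K →+* K) : 𝓞 K →* 𝓞 K) u) *
          (σ g) ^ p := by
      have h1 := congrArg σ hug
      rw [map_add, map_mul, map_intCast, map_intCast, hσ, map_mul, map_pow] at h1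
      rw [h1]
      rfl
    set η : (𝓞 K)ˣ := Units.map (RingOfIntegers.mapRingHom (σ : K →+* K) : 𝓞 K →* 𝓞 K) u with hη
    have hom : om hζ ((a : 𝓞 K) + (b : 𝓞 K) * z ^ k) = om hζ η * cm hζ (σ g) ^ p := by
      have h1 := congrArg (cm hζ) hck
      rw [map_mul (cm hζ), map_pow (cm hζ)] at h1
      rw [show om hζ (η : 𝓞 K) = cm hζ (algebraMap (𝓞 K) K η) from rfl, ← h1]
      show cm hζ (algebraMap (𝓞 K) K _) = _
      congr 1
    have hV1 : V hζ (om hζ ((a : 𝓞 K) + (b : 𝓞 K) * z ^ k)) = 1 := by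
      rw [V_om, HeightOneSpectrum.intValuation_eq_one_iff]
      intro h3
      have h4 : π ∣ (a : 𝓞 K) + (b : 𝓞 K) * z ^ k := by
        have h5 : (a : 𝓞 K) + (b : 𝓞 K) * z ^ k ∈ Ideal.span {hζ.toInteger - 1} := h3
        rwa [Ideal.mem_span_singleton] at h5
      apply hab
      rw [← pi_dvd_int hζ]
      have e : ((a + b : ℤ) : 𝓞 K) = ((a : 𝓞 K) + (b : 𝓞 K) * z ^ k) - b * (z ^ k - 1) := by
        push_cast; ring
      rw [e]
      exact dvd_sub h4 ((hmod k).mul_left _)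
    have hVg : V hζ (cm hζ (σ g)) = 1 := by
      rw [hom, map_mul, V_unit, one_mul, map_pow] at hV1
      exact (pow_eq_one_iff_of_nonneg zero_le hp.out.ne_zero).1 hV1
    obtain ⟨n₀, hn₀⟩ := pow_near hζ (w := cm hζ (σ g)) hVg.le
    have hn4 : V hζ (cm hζ (σ g) ^ p - n₀) ≤ exp (-((4 : ℕ) : ℤ)) := by
      refine hn₀.trans ?_
      rw [exp_le_exp]
      omega
    have h1 : π ^ 4 ∣ ((a : 𝓞 K) + (b : 𝓞 K) * z ^ k) - η * n₀ := by
      rw [hπ, hz, ← lam_dvd hζ, ← V_om, map_sub, hom, map_mul, map_intCast, ← mul_sub, map_mul,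
        V_unit, one_mul]
      exact hn4
    refine ⟨η, n₀ * b' * f, ?_⟩
    have e : (((ξ : ℤ) : 𝓞 K) + hζ.toInteger ^ k) -
        (η : 𝓞 K) * ((n₀ * b' * f : ℤ) : 𝓞 K) * (((ξ : ℤ) : 𝓞 K) + 1) =
        (b' : 𝓞 K) * (((a : 𝓞 K) + (b : 𝓞 K) * z ^ k) - η * n₀) -
          z ^ k * ((b * b' - 1 : ℤ) : 𝓞 K) -
          (η : 𝓞 K) * n₀ * b' * (((ξ + 1) * f - 1 : ℤ) : 𝓞 K) := by
      rw [hξ]
      push_cast
      ring
    rw [e]
    exact dvd_sub (dvd_sub (h1.mul_left _) ((pi_dvd_p hζ _ hb' hp5).mul_left _))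
      ((pi_dvd_p hζ _ hf hp5).mul_left _))
  have e : (ξ : 𝓞 K) - 1 = ((ξ - 1 : ℤ) : 𝓞 K) := by push_cast; rfl
  rw [e, pi_dvd_int hζ] at main
  have e2 : a - b = b * (ξ - 1) - (b * b' - 1) * a := by rw [hξ]; ring
  rw [e2]
  exact dvd_sub (main.mul_left _) (hb'.mul_right _)

end Pool.Agent.H47C
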