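import Pool.Agent.H47C.Stm4

set_option autoImplicit false

/-! Piece PF of project CUB, part 2 (helper55). -/

namespace Pool.Agent.H47C

open NumberField Polynomial

namespace PFPiece

theorem range_prod {M : Type} [Field M] {p : ℕ} (hp : 0 < p) {z : M} (hz : IsPrimitiveRoot z p)
    (f : M → M) : ∏ x ∈ nthRootsFinset p (1 : M), f x = ∏ i ∈ Finset.range p, f (z ^ i) := by
  classical
  have h1 : (Finset.range p).image (fun i => z ^ i) = nthRootsFinset p (1 : M) := by
    apply Finset.eq_of_subset_of_card_le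
    · intro x hx
      obtain ⟨i, _, rfl⟩ := Finset.mem_image.1 hx
      rw [mem_nthRootsFinset hp, ← pow_mul, mul_comm, pow_mul, hz.pow_eq_one, one_pow]
    · rw [hz.card_nthRootsFinset, Finset.card_image_of_injOn, Finset.card_range]
      intro i hi j hj hij
      exact hz.pow_inj (Finset.mem_range.1 hi) (Finset.mem_range.1 hj) hij
  rw [← h1, Finset.prod_image]
  intro i hi j hj hij
  exact hz.pow_inj (Finset.mem_range.1 hi) (Finset.mem_range.1 hj) hij

theorem core {M : Type} [Field M] {p : ℕ} (hp : 0 < p) (hodd : Odd p) {z : M}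
    (hz : IsPrimitiveRoot z p) (g g' : M) :
    (g ^ p + g' ^ p) ^ 2 = (g + g') ^ 2 * ∏ i ∈ Finset.range (p - 1),
      ((g + g') ^ 2 - (1 - z ^ (i + 1)) * (1 - z ^ (p - (i + 1))) * (g * g')) := by
  obtain ⟨n, rfl⟩ : ∃ n, p = n + 1 := ⟨p - 1, by omega⟩
  have h1 := hz.pow_add_pow_eq_prod_add_mul g g' hodd
  rw [range_prod hp hz (fun x => g + x * g'), Finset.prod_range_succ'] at h1
  rw [h1, pow_zero, one_mul, mul_pow, mul_comm]
  congr 1
  rw [Nat.add_sub_cancel, sq]
  have h2 : ∏ i ∈ Finset.range n, (g + z ^ (i + 1) * g') =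
      ∏ i ∈ Finset.range n, (g + z ^ (n + 1 - (i + 1)) * g') := by
    rw [← Finset.prod_range_reflect]
    refine Finset.prod_congr rfl fun i hi => ?_
    rw [Finset.mem_range] at hi
    rw [show n - 1 - i + 1 = n + 1 - (i + 1) by omega]
  conv_lhs => rw [h2]
  conv_lhs => enter [1]; rw [← h2]
  rw [← Finset.prod_mul_distrib]
  refine Finset.prod_congr rfl fun i hi => ?_
  rw [Finset.mem_range] at hi
  have h3 : z ^ (i + 1) * z ^ (n + 1 - (i + 1)) = 1 := by
    rw [← pow_add, show i + 1 + (n + 1 - (i + 1)) = n + 1 by omega, hz.pow_eq_one]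
  linear_combination (g' ^ 2 - g * g' * (-1)) * h3 - 0 * h3

end PFPiece

theorem mainPF : S_PF := by
  intro p hpf h5 F _ _ ζ hζ s t D hD
  have hp := hpf.out
  let M := AlgebraicClosure F
  obtain ⟨w, hw⟩ : ∃ w : M, w ^ 2 + w + 1 = 0 := by
    have h1 : (X ^ 2 + X + 1 : M[X]).degree ≠ 0 := by
      have : (X ^ 2 + X + 1 : M[X]).degree = 2 := by compute_degree!
      rw [this]
      norm_num
    obtain ⟨w, hw⟩ := IsAlgClosed.exists_root (X ^ 2 + X + 1 : M[X]) h1
    exact ⟨w, by simpa [IsRoot.def] using hw⟩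
  have hz : IsPrimitiveRoot (algebraMap F M ζ) p :=
    hζ.map_of_injective (algebraMap F M).injective
  have h1 := PFPiece.core hp.pos (hp.odd_of_ne_two (by omega)) hz ((s : M) + t * w)
    ((s : M) + t * w ^ 2)
  have e1 : ((s : M) + t * w) + ((s : M) + t * w ^ 2) = 2 * s - t := by
    linear_combination (t : M) * hw
  have e2 : ((s : M) + t * w) * ((s : M) + t * w ^ 2) = s ^ 2 - s * t + t ^ 2 := by
    linear_combination ((s : M) * t + t ^ 2 * (w - 1)) * hw
  rw [hD M w hw, e1, e2] at h1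
  apply (algebraMap F M).injective
  rw [map_mul, map_pow, map_pow, map_prod]
  simp only [map_sub, map_mul, map_pow, map_one, map_intCast]
  push_cast
  exact h1

end Pool.Agent.H47C
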