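import Pool.Agent.H47C.Stm
import Pool.Agent.H47T.SQRT

set_option autoImplicit false
set_option linter.all false

namespace Pool.Agent.H47C.RED1

open Pool.Agent.H47T

theorem int_sq_of_rat {d : ℤ} {q : ℚ} (h : q ^ 2 = (d : ℚ)) : ∃ k : ℤ, k ^ 2 = d := by
  obtain ⟨k, hk⟩ := IsIntegrallyClosed.exists_algebraMap_eq_of_isIntegral_pow (R := ℤ) (K := ℚ)
    (x := q) (n := 2) (by norm_num) (by rw [h]; exact isIntegral_algebraMap (x := d))
  refine ⟨k, ?_⟩
  have : ((k ^ 2 : ℤ) : ℚ) = (d : ℚ) := by
    rw [← h, ← hk]; push_cast; rfl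
  exact_mod_cast this

theorem indep {K : Type} [Field K] [NumberField K] {d : ℤ} {r : K} (hd : Squarefree d) (hd1 : d ≠ 1)
    (hr : r ^ 2 = (d : K)) {a b : ℚ} (h : (a : K) + (b : K) * r = 0) : a = 0 ∧ b = 0 := by
  have hb : b = 0 := by
    by_contra hb
    have hbK : (b : K) ≠ 0 := by exact_mod_cast hb
    have h1 : r = ((-a / b : ℚ) : K) := by
      push_cast
      rw [eq_div_iff hbK]
      linear_combination h
    have h2 : (-a / b) ^ 2 = (d : ℚ) := by
      have : (((-a / b) ^ 2 : ℚ) : K) = ((d : ℚ) : K) := by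
        rw [Rat.cast_pow, ← h1, hr]; push_cast; rfl
      exact_mod_cast this
    obtain ⟨k, hk⟩ := int_sq_of_rat h2
    have h3 : IsUnit k := hd k ⟨1, by rw [← hk]; ring⟩
    rcases Int.isUnit_iff.1 h3 with h4 | h4
    · exact hd1 (by rw [← hk, h4]; norm_num)
    · exact hd1 (by rw [← hk, h4]; norm_num)
  refine ⟨?_, hb⟩
  rw [hb] at h
  have : (a : K) = 0 := by simpa using h
  exact_mod_cast this

theorem span {K : Type} [Field K] [NumberField K] (hK : Module.finrank ℚ K = 2) {d : ℤ} {r : K}
    (hd : Squarefree d) (hd1 : d ≠ 1) (hr : r ^ 2 = (d : K)) (u : K) :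
    ∃ a b : ℚ, u = (a : K) + (b : K) * r := by
  have hli : LinearIndependent ℚ ![(1 : K), r] := by
    rw [LinearIndependent.pair_iff]
    intro s t hst
    apply indep hd hd1 hr
    rw [← hst]
    simp [Algebra.smul_def]
  have hsp := hli.span_eq_top_of_card_eq_finrank (by rw [hK]; simp)
  have hu : u ∈ Submodule.span ℚ (Set.range ![(1 : K), r]) := by rw [hsp]; trivial
  rw [Matrix.range_cons, Matrix.range_cons, Matrix.range_empty, Set.union_empty,
    Set.singleton_union, Submodule.mem_span_pair] at hu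
  obtain ⟨a, b, hab⟩ := hu
  exact ⟨a, b, by rw [← hab]; simp [Algebra.smul_def]⟩

theorem main : S_RED1 := by
  intro K _ _ hK u v hu hv huv
  obtain ⟨d, r, hd, hd1, hr⟩ := mainSQRT K hK
  obtain ⟨a, b, rfl⟩ := span hK hd hd1 hr u
  obtain ⟨a', b', rfl⟩ := span hK hd hd1 hr v
  have key := indep hd hd1 hr
    (a := a ^ 3 + a' ^ 3 - 1 + 3 * d * (a * b ^ 2 + a' * b' ^ 2))
    (b := 3 * (a ^ 2 * b + a' ^ 2 * b') + d * (b ^ 3 + b' ^ 3)) (by
      push_cast
      linear_combination huv + (-(3 * (a : K) * b ^ 2 + 3 * a' * b' ^ 2) -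
        (b ^ 3 + b' ^ 3) * r) * hr)
  obtain ⟨h1, h2⟩ := key
  set q : ℚ := a * b ^ 2 + a' * b' ^ 2 with hq
  set s : ℚ := b ^ 3 + b' ^ 3 with hs
  have h3 : (s * a - 3 * q * b) ^ 3 + (s * a' - 3 * q * b') ^ 3 = s ^ 3 := by
    have e1 : (s * a - 3 * q * b) ^ 3 + (s * a' - 3 * q * b') ^ 3 - s ^ 3 =
        s ^ 3 * (a ^ 3 + a' ^ 3 - 1 + 3 * d * q) - 3 * s ^ 2 * q * (3 * (a ^ 2 * b + a' ^ 2 * b') + d * s)
         + 27 * s * q ^ 2 * (a * b ^ 2 + a' * b' ^ 2) - 27 * q ^ 3 * (b ^ 3 + b' ^ 3) := by ring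
    rw [h1, h2, ← hq, ← hs] at e1
    linear_combination e1
  by_cases hs0 : s = 0
  · left
    refine ⟨a + a', ?_⟩
    have h4 : b' = -b := by
      have h5 : b' ^ 3 = (-b) ^ 3 := by linear_combination hs0
      exact (Odd.strictMono_pow (by decide : Odd 3)).injective h5
    rw [h4]
    push_cast
    simp
    ring
  have hflt : FermatLastTheoremWith ℚ 3 := fermatLastTheoremFor_iff_rat.1 fermatLastTheoremThree
  have hsK : (s : K) ≠ 0 := by exact_mod_cast hs0
  by_cases h4 : s * a - 3 * q * b = 0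
  · right; left
    have h5 : s * a' - 3 * q * b' = s := by
      rw [h4] at h3
      have : (s * a' - 3 * q * b') ^ 3 = s ^ 3 := by linear_combination h3
      exact (Odd.strictMono_pow (by decide : Odd 3)).injective this
    have hb : b ≠ 0 := by
      rintro rfl
      have : a = 0 := by
        have : s * a = 0 := by linear_combination h4
        exact (mul_eq_zero.1 this).resolve_left hs0
      exact hu (by rw [this]; simp)
    have hbK : (b : K) ≠ 0 := by exact_mod_cast hb
    refine ⟨-b' / b, ?_⟩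
    have ha : a = 3 * q / s * b := by field_simp; linear_combination h4
    have ha' : a' = 1 + 3 * q / s * b' := by field_simp; linear_combination h5
    have haK : (a : K) = ((3 * q / s : ℚ) : K) * b := by exact_mod_cast ha
    have haK' : (a' : K) = 1 + ((3 * q / s : ℚ) : K) * b' := by exact_mod_cast ha'
    rw [haK, haK', eq_ratCast]
    push_cast
    field_simp
    ring
  by_cases h5 : s * a' - 3 * q * b' = 0
  · right; right
    have h6 : s * a - 3 * q * b = s := by
      rw [h5] at h3
      have : (s * a - 3 * q * b) ^ 3 = s ^ 3 := by linear_combination h3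
      exact (Odd.strictMono_pow (by decide : Odd 3)).injective this
    have hb : b' ≠ 0 := by
      rintro rfl
      have : a' = 0 := by
        have : s * a' = 0 := by linear_combination h5
        exact (mul_eq_zero.1 this).resolve_left hs0
      exact hv (by rw [this]; simp)
    have hbK : (b' : K) ≠ 0 := by exact_mod_cast hb
    refine ⟨-b / b', ?_⟩
    have ha : a' = 3 * q / s * b' := by field_simp; linear_combination h5
    have ha' : a = 1 + 3 * q / s * b := by field_simp; linear_combination h6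
    have haK : (a' : K) = ((3 * q / s : ℚ) : K) * b' := by exact_mod_cast ha
    have haK' : (a : K) = 1 + ((3 * q / s : ℚ) : K) * b := by exact_mod_cast ha'
    rw [haK, haK', eq_ratCast]
    push_cast
    field_simp
    ring
  exact absurd h3 (hflt _ _ _ h4 h5 hs0)

end Pool.Agent.H47C.RED1

namespace Pool.Agent.H47C

theorem mainRED1 : S_RED1 := RED1.main

end Pool.Agent.H47C
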