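import Pool.Agent.H47C.Stm4
import Pool.Agent.H47C.RED3

/-!
# Project CUB, piece RED4 (after RED3 of helper28)
-/

set_option autoImplicit false
set_option linter.all false

namespace Pool.Agent.H47C.RED4

open Pool.Agent.H47C.RED3

theorem main4 (p : ℕ) (hpp : p.Prime) (hp5 : 5 ≤ p) (c t : ℚ) (ht0 : t ≠ 0)
    (h : c ^ 3 - 3 * c * t ^ p = 1) :
    (∃ a b d : ℤ, a ≠ 0 ∧ b ≠ 0 ∧ d ≠ 0 ∧ a ^ p + b ^ p = d ^ p) ∨
    (∃ (α β d h : ℤ) (m : ℕ), p = 2 * m + 1 ∧ α ≠ 0 ∧ β ≠ 0 ∧ d ≠ 0 ∧ h ≠ 0 ∧ IsCoprime α d ∧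
      IsCoprime h d ∧ ¬ (3 : ℤ) ∣ d ∧ ¬ (3 : ℤ) ∣ h ∧ α ^ p - d ^ p = 3 ^ m * β ^ p ∧
      h ^ p - (d ^ 2) ^ p = 3 ^ (m + 1) * (α * β) ^ p) := by
  have hodd : Odd p := hpp.odd_of_ne_two (by omega)
  obtain ⟨m, hm⟩ := hodd
  have hodd : Odd p := ⟨m, hm⟩
  have hp0 : p ≠ 0 := by omega
  have hc0 : c ≠ 0 := by
    rintro rfl
    norm_num at h
  obtain ⟨a, ha⟩ : ∃ a : ℤ, a = c.num := ⟨_, rfl⟩
  obtain ⟨b, hb⟩ : ∃ b : ℤ, b = (c.den : ℤ) := ⟨_, rfl⟩
  obtain ⟨r, hr⟩ : ∃ r : ℤ, r = t.num := ⟨_, rfl⟩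
  obtain ⟨s, hs⟩ : ∃ s : ℤ, s = (t.den : ℤ) := ⟨_, rfl⟩
  have ha0 : a ≠ 0 := by rw [ha]; exact Rat.num_ne_zero.2 hc0
  have hb0 : b ≠ 0 := by rw [hb]; exact_mod_cast c.den_nz
  have hr0 : r ≠ 0 := by rw [hr]; exact Rat.num_ne_zero.2 ht0
  have hs0 : s ≠ 0 := by rw [hs]; exact_mod_cast t.den_nz
  have hab : IsCoprime a b := by
    rw [ha, hb, Int.isCoprime_iff_gcd_eq_one]
    exact c.reduced
  have hrs : IsCoprime r s := by
    rw [hr, hs, Int.isCoprime_iff_gcd_eq_one]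
    exact t.reduced
  have hcab : c = (a : ℚ) / (b : ℚ) := by
    rw [ha, hb]
    exact (Rat.num_div_den c).symm
  have htrs : t = (r : ℚ) / (s : ℚ) := by
    rw [hr, hs]
    exact (Rat.num_div_den t).symm
  have hbQ : (b : ℚ) ≠ 0 := by exact_mod_cast hb0
  have hsQ : (s : ℚ) ≠ 0 := by exact_mod_cast hs0
  have e1 : r ^ p * (3 * a * b ^ 2) = (a ^ 3 - b ^ 3) * s ^ p := by
    have h1 : (r : ℚ) ^ p * (3 * a * b ^ 2) = (a ^ 3 - b ^ 3) * s ^ p := by
      rw [hcab, htrs, div_pow, div_pow] at h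
      have hsp : (s : ℚ) ^ p ≠ 0 := pow_ne_zero _ hsQ
      field_simp at h
      linear_combination (-1 : ℚ) * h
    exact_mod_cast h1
  have hab' : a - b ≠ 0 := by
    intro h0
    have h1 : a = b := sub_eq_zero.1 h0
    rw [h1, sub_self, zero_mul] at e1
    have : r ^ p * (3 * b * b ^ 2) ≠ 0 :=
      mul_ne_zero (pow_ne_zero _ hr0) (mul_ne_zero (mul_ne_zero (by norm_num) hb0)
        (pow_ne_zero _ hb0))
    exact this e1
  have h3p : Prime (3 : ℤ) := Int.prime_three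
  have cop3 : ∀ {z : ℤ}, ¬ (3 : ℤ) ∣ z → IsCoprime z 3 := fun hz =>
    ((h3p.coprime_iff_not_dvd).2 hz).symm
  have cab1 : IsCoprime (a - b) a := by
    have : IsCoprime (-b + 1 * a) a := (IsCoprime.add_mul_right_left_iff).2 (hab.symm.neg_left)
    have e : -b + 1 * a = a - b := by ring
    rwa [e] at this
  have cab2 : IsCoprime (a - b) b := by
    have : IsCoprime (a + (-1) * b) b := (IsCoprime.add_mul_right_left_iff).2 hab
    have e : a + (-1) * b = a - b := by ring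
    rwa [e] at this
  have cq1 : IsCoprime (a ^ 2 + a * b + b ^ 2) a := by
    have : IsCoprime (b ^ 2 + (a + b) * a) a :=
      (IsCoprime.add_mul_right_left_iff).2 (hab.symm.pow_left)
    have e : b ^ 2 + (a + b) * a = a ^ 2 + a * b + b ^ 2 := by ring
    rwa [e] at this
  have cq2 : IsCoprime (a ^ 2 + a * b + b ^ 2) b := by
    have : IsCoprime (a ^ 2 + (a + b) * b) b :=
      (IsCoprime.add_mul_right_left_iff).2 (hab.pow_left)
    have e : a ^ 2 + (a + b) * b = a ^ 2 + a * b + b ^ 2 := by ring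
    rwa [e] at this
  by_cases h3 : (3 : ℤ) ∣ a - b
  · left
    have h3a : ¬ (3 : ℤ) ∣ a := by
      intro h1
      exact h3p.not_unit (cab1.isUnit_of_dvd' h3 h1)
    have h3b : ¬ (3 : ℤ) ∣ b := by
      intro h1
      exact h3p.not_unit (cab2.isUnit_of_dvd' h3 h1)
    obtain ⟨w, hw⟩ := h3
    obtain ⟨q, hq⟩ : ∃ q : ℤ, a ^ 2 + a * b + b ^ 2 = 3 * q := by
      refine ⟨3 * w ^ 2 + a * b, ?_⟩
      have : a ^ 2 + a * b + b ^ 2 = (a - b) ^ 2 + 3 * (a * b) := by ring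
      rw [this, hw]
      ring
    have hq' : q = 3 * w ^ 2 + a * b := by
      have : a ^ 2 + a * b + b ^ 2 = (a - b) ^ 2 + 3 * (a * b) := by ring
      rw [this, hw] at hq
      linarith
    have h3q : ¬ (3 : ℤ) ∣ q := by
      intro h1
      rw [hq'] at h1
      have h2 : (3 : ℤ) ∣ a * b := by
        have := (Int.dvd_add_right (Dvd.intro (w ^ 2) rfl)).1 h1
        exact this
      rcases h3p.dvd_or_dvd h2 with h2 | h2
      · exact h3a h2
      · exact h3b h2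
    have hqa : IsCoprime q a := by
      rw [hq] at cq1
      exact cq1.of_mul_left_right
    have hqb : IsCoprime q b := by
      rw [hq] at cq2
      exact cq2.of_mul_left_right
    have e2 : r ^ p * (a * b ^ 2) = ((a - b) * q) * s ^ p := by
      have h1 : a ^ 3 - b ^ 3 = (a - b) * (3 * q) := by
        rw [← hq]
        ring
      rw [h1] at e1
      have : (3 : ℤ) * (r ^ p * (a * b ^ 2)) = 3 * (((a - b) * q) * s ^ p) := by
        linear_combination e1
      exact mul_left_cancel₀ (by norm_num) this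
    have hUV : IsCoprime ((a - b) * q) (a * b ^ 2) :=
      IsCoprime.mul_left (cab1.mul_right cab2.pow_right) (hqa.mul_right hqb.pow_right)
    obtain ⟨⟨r', hr'⟩, ⟨s', hs'⟩⟩ := split_pow hodd hUV hrs e2
    obtain ⟨⟨α, hα⟩, ⟨γ, hγ⟩⟩ := Int.eq_pow_of_mul_eq_pow_odd (hab.pow_right) hodd hs'
    obtain ⟨β, hβ⟩ : ∃ β : ℤ, b = β ^ p := by
      rw [hm] at hγ ⊢
      exact sq_pow hγ
    have hcq : IsCoprime (a - b) q := by
      have h1 : IsCoprime q (3 * (a * b)) :=
        IsCoprime.mul_right (cop3 h3q) (hqa.mul_right hqb)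
      -- q = 3 w^2 + a b, a - b = 3 w
      have h2 : IsCoprime (a - b) 3 ∨ True := Or.inr trivial
      have h3 : IsCoprime w q := by
        have h4 : IsCoprime w (a * b) := by
          have h5 : IsCoprime (3 * w) (a * b) := by
            rw [← hw]
            exact cab1.mul_right cab2
          exact h5.of_mul_left_right
        rw [hq']
        have h6 : IsCoprime w (a * b + (3 * w) * w) :=
          (IsCoprime.add_mul_right_right_iff).2 h4
        have e : a * b + (3 * w) * w = 3 * w ^ 2 + a * b := by ring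
        rwa [e] at h6
      rw [hw]
      exact IsCoprime.mul_left (cop3 h3q).symm h3
    obtain ⟨⟨d, hd⟩, _⟩ := Int.eq_pow_of_mul_eq_pow_odd hcq hodd hr'
    have hα0 : α ≠ 0 := by
      rintro rfl
      rw [zero_pow hp0] at hα
      exact ha0 hα
    have hβ0 : β ≠ 0 := by
      rintro rfl
      rw [zero_pow hp0] at hβ
      exact hb0 hβ
    have hd0 : d ≠ 0 := by
      rintro rfl
      rw [zero_pow hp0] at hd
      exact hab' hd
    refine ⟨α, -β, d, hα0, neg_ne_zero.2 hβ0, hd0, ?_⟩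
    rw [hodd.neg_pow, ← hα, ← hβ, ← hd]
    ring
  · have hU3 : ¬ (3 : ℤ) ∣ a ^ 3 - b ^ 3 := by
      intro h1
      apply h3
      have h2 : (3 : ℤ) ∣ (a - b) ^ 3 := by
        have e : (a - b) ^ 3 = a ^ 3 - b ^ 3 + 3 * (a * b ^ 2 - a ^ 2 * b) := by ring
        rw [e]
        exact dvd_add h1 (Dvd.intro _ rfl)
      exact h3p.dvd_of_dvd_pow h2
    have e3 : a ^ 3 - b ^ 3 = (a - b) * (a ^ 2 + a * b + b ^ 2) := by ring
    have hUV : IsCoprime (a ^ 3 - b ^ 3) (3 * a * b ^ 2) := by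
      refine IsCoprime.mul_right (IsCoprime.mul_right (cop3 hU3) ?_) (IsCoprime.pow_right ?_)
      · rw [e3]
        exact IsCoprime.mul_left cab1 cq1
      · rw [e3]
        exact IsCoprime.mul_left cab2 cq2
    obtain ⟨⟨r', hr'⟩, ⟨s', hs'⟩⟩ := split_pow hodd hUV hrs e1
    have hcq : IsCoprime (a - b) (a ^ 2 + a * b + b ^ 2) := by
      have h4 : IsCoprime (a - b) (3 * (a * b)) :=
        IsCoprime.mul_right (cop3 h3) (cab1.mul_right cab2)
      have h6 : IsCoprime (a - b) (3 * (a * b) + (a - b) * (a - b)) :=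
        (IsCoprime.add_mul_right_right_iff).2 h4
      have e : 3 * (a * b) + (a - b) * (a - b) = a ^ 2 + a * b + b ^ 2 := by ring
      rwa [e] at h6
    rw [e3] at hr'
    obtain ⟨⟨d, hd⟩, ⟨g, hg⟩⟩ := Int.eq_pow_of_mul_eq_pow_odd hcq hodd hr'
    have hd0 : d ≠ 0 := by
      rintro rfl
      rw [zero_pow hp0] at hd
      exact hab' hd
    have hg0 : g ≠ 0 := by
      rintro rfl
      rw [zero_pow hp0] at hg
      have h5 : 0 < a ^ 2 + a * b + b ^ 2 := by
        have h6 : 0 < a ^ 2 := by positivity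
        have h7 : 0 < b ^ 2 := by positivity
        nlinarith [sq_nonneg (a + b)]
      exact h5.ne' hg
    have h3s : (3 : ℤ) ∣ s' := by
      have : (3 : ℤ) ∣ s' ^ p := ⟨a * b ^ 2, by rw [← hs']; ring⟩
      exact h3p.dvd_of_dvd_pow this
    have h3ab : (3 : ℤ) ∣ a * b ^ 2 := by
      obtain ⟨s1, hs1⟩ := h3s
      have h4 : (3 : ℤ) * (a * b ^ 2) = 3 * (3 * (3 ^ (p - 2) * s1 ^ p)) := by
        have h5 : (3 : ℤ) ^ p = 3 * (3 * 3 ^ (p - 2)) := by
          rw [← pow_succ', ← pow_succ']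
          congr 1
          omega
        have h6 : 3 * (a * b ^ 2) = 3 * a * b ^ 2 := by ring
        rw [h6, hs', hs1, mul_pow, h5]
        ring
      exact ⟨3 ^ (p - 2) * s1 ^ p, mul_left_cancel₀ (by norm_num) h4⟩
    have hpow3 : ∀ z : ℤ, (3 : ℤ) * z = 3 * z := fun z => rfl
    rcases h3p.dvd_or_dvd h3ab with h3a | h3b'
    · -- 3 divides a
      have h3b : ¬ (3 : ℤ) ∣ b := fun h1 => h3p.not_unit (hab.isUnit_of_dvd' h3a h1)
      have hc1 : IsCoprime (3 * a) (b ^ 2) :=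
        IsCoprime.pow_right (IsCoprime.mul_left (cop3 h3b).symm hab)
      obtain ⟨⟨α, hα⟩, ⟨γ, hγ⟩⟩ := Int.eq_pow_of_mul_eq_pow_odd hc1 hodd hs'
      obtain ⟨β, hβ⟩ : ∃ β : ℤ, b = β ^ p := by
        rw [hm] at hγ ⊢
        exact sq_pow hγ
      have h3α : (3 : ℤ) ∣ α := h3p.dvd_of_dvd_pow ⟨a, hα.symm⟩
      obtain ⟨α1, hα1⟩ := h3α
      have haα : a = 3 ^ (p - 1) * α1 ^ p := by
        have h4 : (3 : ℤ) * a = 3 * (3 ^ (p - 1) * α1 ^ p) := by
          have h5 : (3 : ℤ) ^ p = 3 * 3 ^ (p - 1) := by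
            rw [← pow_succ']
            congr 1
            omega
          rw [hα, hα1, mul_pow, h5]
          ring
        exact mul_left_cancel₀ (by norm_num) h4
      have hα0 : α1 ≠ 0 := by
        rintro rfl
        rw [zero_pow hp0, mul_zero] at haα
        exact ha0 haα
      have hβ0 : β ≠ 0 := by
        rintro rfl
        rw [zero_pow hp0] at hβ
        exact hb0 hβ
      left
      have hα00 : α ≠ 0 := by
        rintro rfl
        rw [zero_pow hp0] at hα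
        exact ha0 (by linarith)
      refine ⟨d ^ 2, α * β, g, pow_ne_zero _ hd0, mul_ne_zero hα00 hβ0, hg0, ?_⟩
      rw [← hg, mul_pow, ← hα, ← hβ, ← pow_mul, mul_comm 2 p, pow_mul, ← hd]
      ring
    · -- 3 divides b
      have h3b : (3 : ℤ) ∣ b := h3p.dvd_of_dvd_pow h3b'
      have h3a : ¬ (3 : ℤ) ∣ a := fun h1 => h3p.not_unit (hab.isUnit_of_dvd' h1 h3b)
      have hc1 : IsCoprime a (3 * b ^ 2) :=
        IsCoprime.mul_right (cop3 h3a) hab.pow_right
      have hs'' : a * (3 * b ^ 2) = s' ^ p := by rw [← hs']; ring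
      obtain ⟨⟨α, hα⟩, ⟨γ, hγ⟩⟩ := Int.eq_pow_of_mul_eq_pow_odd hc1 hodd hs''
      have h3γ : (3 : ℤ) ∣ γ := h3p.dvd_of_dvd_pow ⟨b ^ 2, hγ.symm⟩
      obtain ⟨γ1, hγ1⟩ := h3γ
      have hb2 : b ^ 2 = (3 ^ m) ^ 2 * γ1 ^ p := by
        have h4 : (3 : ℤ) * b ^ 2 = 3 * ((3 ^ m) ^ 2 * γ1 ^ p) := by
          have h5 : (3 : ℤ) ^ p = 3 * (3 ^ m) ^ 2 := by
            rw [hm]
            ring
          rw [hγ, hγ1, mul_pow, h5]
          ring
        exact mul_left_cancel₀ (by norm_num) h4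
      have h3m : (3 : ℤ) ^ m ∣ b := (Int.pow_dvd_pow_iff two_ne_zero).1 ⟨_, hb2⟩
      obtain ⟨b1, hb1⟩ := h3m
      have hb1' : b1 ^ 2 = γ1 ^ p := by
        rw [hb1, mul_pow] at hb2
        exact mul_left_cancel₀ (pow_ne_zero _ (pow_ne_zero _ (by norm_num))) hb2
      obtain ⟨β, hβ⟩ : ∃ β : ℤ, b1 = β ^ p := by
        rw [hm] at hb1' ⊢
        exact sq_pow hb1'
      have hα0 : α ≠ 0 := by
        rintro rfl
        rw [zero_pow hp0] at hα
        exact ha0 hα
      have hβ0 : β ≠ 0 := by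
        rintro rfl
        rw [zero_pow hp0] at hβ
        rw [hβ, mul_zero] at hb1
        exact hb0 hb1
      right
      refine ⟨α, β, d, g, m, hm, hα0, hβ0, hd0, hg0, ?_, ?_, ?_, ?_, ?_, ?_⟩
      · have h4 : IsCoprime (α ^ p) (d ^ p) := by
          rw [← hα, ← hd]
          exact cab1.symm
        exact (IsCoprime.pow_iff (by omega) (by omega)).1 h4
      · have h4 : IsCoprime (g ^ p) (d ^ p) := by
          rw [← hg, ← hd]
          exact hcq.symm
        exact (IsCoprime.pow_iff (by omega) (by omega)).1 h4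
      · intro h4
        apply h3
        rw [hd]
        exact dvd_pow h4 hp0
      · intro h4
        have h5 : (3 : ℤ) ∣ a ^ 2 + a * b + b ^ 2 := by
          rw [hg]
          exact dvd_pow h4 hp0
        have h6 : (3 : ℤ) ∣ a ^ 2 := by
          have h7 : a ^ 2 = (a ^ 2 + a * b + b ^ 2) - (a + b) * b := by ring
          rw [h7]
          exact dvd_sub h5 (h3b.mul_left _)
        exact h3a (h3p.dvd_of_dvd_pow h6)
      · rw [← hα, ← hd, ← hβ, ← hb1]
        ring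
      · rw [← hg, mul_pow, ← hα, ← hβ, ← pow_mul, mul_comm 2 p, pow_mul, ← hd, pow_succ]
        rw [hb1]
        ring

end Pool.Agent.H47C.RED4

namespace Pool.Agent.H47C

theorem mainRED4 : S_RED4 := fun p hp h5 c t ht h => RED4.main4 p hp h5 c t ht h

end Pool.Agent.H47C
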