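import Pool.Agent.H47C.Stm

/-!
# Project CUB, pieces ROOT and CJ
-/

set_option autoImplicit false

namespace Pool.Agent.H47C

open NumberField IsDedekindDomain Polynomial

/-- **Piece ROOT.** -/
theorem mainROOT : S_ROOT := by
  intro K _ _ h2 p hp hp5 t q ht
  have hdeg : ∀ x : K, (minpoly ℚ x).natDegree ≤ 2 := by
    intro x
    rw [← h2]
    exact minpoly.natDegree_le x
  by_cases hb : ∃ b : ℚ, b ^ p = q
  · obtain ⟨b, rfl⟩ := hb
    by_cases hb0 : b = 0
    · refine ⟨0, ?_⟩
      rw [hb0, zero_pow hp.ne_zero, map_zero] at ht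
      rw [map_zero]
      exact (pow_eq_zero_iff hp.ne_zero).1 ht
    have hbK : algebraMap ℚ K b ≠ 0 := by
      rw [Ne, map_eq_zero]
      exact hb0
    have h1 : (t / algebraMap ℚ K b) ^ p = 1 := by
      rw [div_pow, ht, map_pow, div_self (pow_ne_zero _ hbK)]
    by_cases hω : t / algebraMap ℚ K b = 1
    · exact ⟨b, (div_eq_one_iff_eq hbK).1 hω⟩
    exfalso
    have hprim : IsPrimitiveRoot (t / algebraMap ℚ K b) p := by
      have : Fact p.Prime := ⟨hp⟩
      rw [← orderOf_eq_prime h1 hω]
      exact IsPrimitiveRoot.orderOf _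
    have h3 := hdeg (t / algebraMap ℚ K b)
    rw [← cyclotomic_eq_minpoly_rat hprim hp.pos, natDegree_cyclotomic,
      Nat.totient_prime hp] at h3
    omega
  · push Not at hb
    have hirr : Irreducible (X ^ p - C q : ℚ[X]) := X_pow_sub_C_irreducible_of_prime hp hb
    have hmon : (X ^ p - C q : ℚ[X]).Monic := monic_X_pow_sub_C q hp.ne_zero
    have h3 : minpoly ℚ t = X ^ p - C q := by
      refine (minpoly.eq_of_irreducible_of_monic hirr ?_ hmon).symm
      rw [map_sub, map_pow, aeval_X, aeval_C, ht, sub_self]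
    have h4 := hdeg t
    rw [h3, natDegree_X_pow_sub_C] at h4
    omega

end Pool.Agent.H47C
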