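import Pool.Agent.H47T.Stm3

/-!
# Project CUB: Fermat's Last Theorem for the exponents `3 p` over ALL quadratic fields (`p` regular)

Goal: let `p ≥ 5` be a regular prime, `3 ^ j ≡ -1` modulo `p` for some `j`, and let `p ^ 2` divide none
of `3 ^ (p-1) - 1`, `6 ^ (p-1) - 1`, `12 ^ (p-1) - 1`. Then for every quadratic field `K` and every `n`
divisible by `3 p` the equation `x ^ n + y ^ n = z ^ n` has no solution with `x y z ≠ 0` in `K`.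

Proof. (RED1) `u = (x/z) ^ p`, `v = (y/z) ^ p` is a point of the cubic Fermat curve, which has only
three rational points; so the rational line through `(u, v)` and its conjugate contains one of
them: `u + v`, `(1 - v) / u` or `(1 - u) / v` is a rational number `c`. After a permutation
`α ^ p + β ^ p = c`, `α ^ (3 p) + β ^ (3 p) = 1`, so `c ^ 3 - 3 c (α β) ^ p = 1`, `(α β) ^ p ∈ ℚ`, and
(ROOT) `t = α β ∈ ℚ`. (RED3) `c ^ 3 - 3 c t ^ p = 1` in rational numbers gives nonzero integers with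
`a ^ p + b ^ p = d ^ p` or `a ^ p + b ^ p = 3 ^ e d ^ p`, `e = p - 1` or `(p - 1) / 2`. The first is
impossible by Kummer (FLTR). In the second `p ∣ d` by (VALQ), (KCONG), (ARI). If `p ∣ d`
then `x = a / b` starts a descent in the maximal real subfield of `F = ℚ(ζ)`: let `x ∈ F` be real,
all valuations of `x ^ p + 1` outside `3 p` be divisible by `p`, `x` integral at the primes above `3`,
and `v (x ^ p + 1) = m p`, `m ≥ 4`, at the prime above `p`. Let `a_i = (x + ζ ^ i) (x + ζ ^ (-i))`,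
`λ_i = (1 - ζ ^ i) (1 - ζ ^ (-i))`. Then `a_i = (x + 1) ^ 2 - λ_i x`, and for
`r = a_1 λ_2 / (a_2 λ_1)` we get `1 - r = (x + 1) ^ 2 (λ_1 - λ_2) / (a_2 λ_1)`. All valuations of `r`
are divisible by `p` and `r ≡ 1` modulo a high power of the prime above `p`, so `r = y ^ p` with a
real `y` (PTH: regularity and Kummer's lemma), and `x' = -y` has the same properties with
`m' = 2 (m - 1) ≥ m + 2`. The height of `x'` is bounded (HUP), as `H (x') ^ p = H (r) ≤ C H (x) ^ 4`,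
so by Northcott's theorem the sequence is finite, but `m → ∞`.

The pieces are independent of each other. Each is a `Prop`; prove it as a theorem `main<NAME> :
S_<NAME>` in a file of its own (`Pool/Agent/H47C/<NAME>.lean`, namespace `Pool.Agent.H47C`).
`EvL l a` (all valuations of `a` are divisible by `l`) is defined in `Pool/Agent/H47T/Stm3.lean`.
Everything on Kummer's theorem is in `Pool/Agent/Y158/KL/` and `Pool/Agent/Y158/K2/`; Kummer's lemma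
is `kummer_lemma` in `Pool/Agent/Y158/KL/Hil7.lean`.
-/

set_option autoImplicit false

namespace Pool.Agent.H47C

open NumberField IsDedekindDomain Pool.Agent.H47T

/-- RED1. Proof. `K = ℚ(r)`, `r ^ 2 = D ∈ ℚ` (`mainSQRT` in `H47T/SQRT.lean`), `u = a + b r`,
`v = a' + b' r`. The two components of `u ^ 3 + v ^ 3 = 1` are
`a^3 + a'^3 - 1 + 3 D (a b^2 + a' b'^2) = 0` and `3 (a^2 b + a'^2 b') + D (b^3 + b'^3) = 0`. Let
`q = a b^2 + a' b'^2`, `s = b^3 + b'^3`, `A = (a, a', 1)`, `B = (b, b', 0)`. Then for the form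
`X^3 + Y^3 - Z^3` one has `F (σ A + τ B) = (τ^2 - D σ^2) (s τ + 3 q σ)`, so `s A - 3 q B` is a zero:
`(s a - 3 q b)^3 + (s a' - 3 q b')^3 = s^3`. By `fermatLastTheoremThree` (over `ℚ`) one of the three
numbers is zero. `s = 0` gives `b' = -b` and `u + v ∈ ℚ`. If `s ≠ 0` and `s a = 3 q b` then
`s a' - 3 q b' = s`, so `u = b (3 q / s + r)`, `1 - v = -b' (3 q / s + r)`, `b ≠ 0`. The third case is
symmetric. -/
def S_RED1 : Prop := ∀ (K : Type) [Field K] [NumberField K], Module.finrank ℚ K = 2 →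
  ∀ u v : K, u ≠ 0 → v ≠ 0 → u ^ 3 + v ^ 3 = 1 →
  (∃ c : ℚ, u + v = algebraMap ℚ K c) ∨ (∃ c : ℚ, 1 - v = algebraMap ℚ K c * u) ∨
    (∃ c : ℚ, 1 - u = algebraMap ℚ K c * v)

/-- ROOT. Proof. If `t ∉ ℚ` let `τ` be the nontrivial automorphism; `(τ t / t) ^ p = 1`, `τ t ≠ t`, so
`τ t / t` is a primitive `p`-th root of unity in `K`, and `p - 1 ≤ 2`. -/
def S_ROOT : Prop := ∀ (K : Type) [Field K] [NumberField K], Module.finrank ℚ K = 2 →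
  ∀ p : ℕ, p.Prime → 5 ≤ p → ∀ (t : K) (q : ℚ), t ^ p = algebraMap ℚ K q →
  ∃ s : ℚ, t = algebraMap ℚ K s

/-- RED3 (elementary). Proof. `c = a / b` in lowest terms (`c ≠ 0`), `t ^ p = (a^3 - b^3) / (3 a b^2)`,
`a ≠ b`. (1) `3 ∣ a - b`: then `3 ∤ a b`, `a^2 + a b + b^2` is divisible by `3` and not by `9`, and
`t ^ p = ((a^3 - b^3) / 3) / (a b^2)` in lowest terms. So `a`, `b^2` and hence `b` are `p`-th powers of
integers, `(a - b) ((a^2 + a b + b^2) / 3)` is a `p`-th power with coprime factors, and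
`a - b = d ^ p`. (2) `3 ∤ a - b`: if `3 ∤ a b` also then `t ^ p` has the denominator `3 a b^2`, with
`3`-adic valuation `1`, impossible; so `3 ∣ a` or `3 ∣ b`, `a^3 - b^3` and `3 a b^2` are `p`-th powers,
`a - b` and `a^2 + a b + b^2` are coprime, so `a - b = d ^ p`. If `3 ∣ a` then `3 a` and `b^2` are `p`-th
powers, `a = 3^(p-1) a_1^p`, `b = b_1^p`. If `3 ∣ b` then `a` and `3 b^2` are `p`-th powers,
`b = 3^((p-1)/2) b_1^p`. (`Int.eq_pow_of_mul_eq_pow_odd`, `exists_associated_pow_of_mul_eq_pow` or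
`Finset`-free versions; `p` is odd, so signs are no problem.) -/
def S_RED3 : Prop := ∀ p : ℕ, p.Prime → 5 ≤ p → ∀ c t : ℚ, t ≠ 0 → c ^ 3 - 3 * c * t ^ p = 1 →
  (∃ a b d : ℤ, a ≠ 0 ∧ b ≠ 0 ∧ d ≠ 0 ∧ a ^ p + b ^ p = d ^ p) ∨
  (∃ (a b d : ℤ) (e : ℕ), (e = p - 1 ∨ 2 * e = p - 1) ∧ a ≠ 0 ∧ b ≠ 0 ∧ d ≠ 0 ∧ IsCoprime a b ∧
    a ^ p + b ^ p = 3 ^ e * d ^ p)

/-- FLTR (Kummer). Proof: `core_main` in `Pool/Agent/Y158/K2/Main.lean` (or the theorems of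
`Pool/Agent/Y158/KL/Main.lean`) with `L = K`, the identical places, and `kummer_lemma`. -/
def S_FLTR : Prop := ∀ (p : ℕ) [Fact p.Prime], 5 ≤ p →
  (classNumber (CyclotomicField p ℚ)).Coprime p →
  ∀ a b d : ℤ, a ≠ 0 → b ≠ 0 → d ≠ 0 → a ^ p + b ^ p ≠ d ^ p

/-- ARI (elementary). Proof. `c = 3 ^ e`. (1) `p ∣ a` (or `b`): `b ^ p ≡ c d ^ p` modulo `p^2` and
`b ≡ c d` modulo `p`, so `b ^ p ≡ c ^ p d ^ p` modulo `p^2` and `c ^ (p-1) ≡ 1`. Let `f = 3 ^ (p-1)`; as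
`f ^ p ≡ 1` modulo `p^2`, `c ^ (p-1) ≡ 1` gives `f ≡ 1` (`c ^ (p-1) = f ^ (p-1) ≡ f⁻¹` if `e = p - 1`, and
its square is `f ^ (p-1)` if `2 e = p - 1`). (2) `p ∣ a - b`: then `a ^ p ≡ b ^ p`,
`2 a ^ p ≡ c d ^ p` modulo `p^2` and `2 a ≡ c d` modulo `p`, so `2 ^ p a ^ p ≡ c ^ p d ^ p`, hence
`c ^ (p-1) ≡ 2 ^ (p-1)`; for `e = p - 1` this is `6 ^ (p-1) ≡ 1`, for `2 e = p - 1` its square is
`12 ^ (p-1) ≡ 1`. -/
def S_ARI : Prop := ∀ p : ℕ, p.Prime → 5 ≤ p → ∀ (a b d : ℤ) (e : ℕ),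
  (e = p - 1 ∨ 2 * e = p - 1) → IsCoprime a b → a ^ p + b ^ p = 3 ^ e * d ^ p → ¬ (p : ℤ) ∣ d →
  ((p : ℤ) ∣ a ∨ (p : ℤ) ∣ b ∨ (p : ℤ) ∣ a - b) →
  p ^ 2 ∣ 3 ^ (p - 1) - 1 ∨ p ^ 2 ∣ 6 ^ (p - 1) - 1 ∨ p ^ 2 ∣ 12 ^ (p - 1) - 1

/-- KCONG (Kummer's congruence). Proof (compare `case1` in `Pool/Agent/Y158/KL/Case1.lean`). The
ideal of `a + b ζ` is a `p`-th power, so `a + b ζ = u g ^ p`, `g ^ p` is congruent to an integer modulo
`p`, and `u / J u` is a root of unity (`J` complex conjugation), in fact a power of `ζ`; so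
`a + b ζ ≡ ζ ^ k (a + b ζ⁻¹)` modulo `p`. As `1, ζ, ..., ζ ^ (p-2)` is a basis modulo `p` and `p ≥ 5`
this implies `k = 1` and `a ≡ b`. -/
def S_KCONG : Prop := ∀ (p : ℕ) [Fact p.Prime], 5 ≤ p → ∀ (F : Type) [Field F] [NumberField F]
  [IsCyclotomicExtension {p} ℚ F] (ζ : F), IsPrimitiveRoot ζ p → (classNumber F).Coprime p →
  ∀ a b : ℤ, ¬ (p : ℤ) ∣ a → ¬ (p : ℤ) ∣ b → EvL p ((a : F) + (b : F) * ζ) → (p : ℤ) ∣ a - b

/-- VALQ. Proof. `a ^ p + b ^ p = ∏ (a + b ζ ^ i)`. Let `v` be a prime containing `a + b ζ`.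
It does not contain `b` (else `a` too). It does not contain `p`: otherwise `v ∋ ζ - 1`, `a + b`,
so `p ∣ a + b` and `p ∣ 3 ^ e d ^ p`. It does not contain `3`: `3 ∣ a ^ p + b ^ p`, so `3 ∣ a + b`
(Fermat), so `v ∋ b (ζ - 1)`, `v ∋ ζ - 1`, `v ∋ p`, a contradiction. So the other factors are units at
`v` (`v` does not contain `b (ζ ^ i - ζ)`) and `v (a + b ζ) = v (d) ^ p`. -/
def S_VALQ : Prop := ∀ (p : ℕ) [Fact p.Prime], 5 ≤ p → ∀ (F : Type) [Field F] [NumberField F]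
  [IsCyclotomicExtension {p} ℚ F] (ζ : F), IsPrimitiveRoot ζ p →
  ∀ (a b d : ℤ) (e : ℕ), 1 ≤ e → b ≠ 0 → d ≠ 0 → IsCoprime a b → a ^ p + b ^ p = 3 ^ e * d ^ p →
  ¬ (p : ℤ) ∣ d → EvL p ((a : F) + (b : F) * ζ)

/-- CONJ3. Proof. For `α ∈ 𝓞 F`, `α ^ (3 ^ j) ≡ J α` modulo `3` (`𝓞 F = ℤ[ζ]` and `ζ ^ (3 ^ j) = ζ⁻¹`), so
`α ∈ P` if and only if `J α ∈ P`. Let `y = x + ζ ^ i`, of valuation at most `1` at `P`; suppose it is
less than `1`. Write `y = β / s`, `β, s ∈ 𝓞 F`, `s ∉ P`, `β ∈ P`. Then `J y = J β / J s` also has valuation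
less than `1`, and so has `y - J y = ζ ^ i - ζ ^ (-i)`; but this is a unit times `1 - ζ ^ (2 i)`, which
divides `p`, and `p ∉ P`. -/
def S_CONJ3 : Prop := ∀ (p : ℕ) [Fact p.Prime], 5 ≤ p → ∀ (F : Type) [Field F] [NumberField F]
  [IsCyclotomicExtension {p} ℚ F] (ζ : F), IsPrimitiveRoot ζ p → ∀ J : F ≃ₐ[ℚ] F, J ζ = ζ⁻¹ →
  ∀ j : ℕ, p ∣ 3 ^ j + 1 → ∀ P : HeightOneSpectrum (𝓞 F), (3 : 𝓞 F) ∈ P.asIdeal →
  ∀ x : F, J x = x → P.valuation F x ≤ 1 → ∀ i : ℕ, ¬ p ∣ i → P.valuation F (x + ζ ^ i) = 1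

/-- LAM. Proof. `P` is the only prime above `p`, `v (ζ ^ i - 1) = exp (-1)` for `p ∤ i`,
`v (J y) = v (y)` for all `y`. `v x = 1`. The product of the `x + ζ ^ i`, `i < p`, is `x ^ p + 1` of
valuation `exp (-(m p))`, `m p > p`, and all factors are integral, so one of them, `x + ζ ^ k`, has
valuation at most `exp (-2)`; so has its conjugate `x + ζ ^ (-k)`, and their difference, so
`p ∣ k`. So `v (x + 1) ≤ exp (-2)`, and `x + ζ ^ i = (x + 1) + (ζ ^ i - 1)` has valuation `exp (-1)`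
for `p ∤ i`. -/
def S_LAM : Prop := ∀ (p : ℕ) [Fact p.Prime], 5 ≤ p → ∀ (F : Type) [Field F] [NumberField F]
  [IsCyclotomicExtension {p} ℚ F] (ζ : F), IsPrimitiveRoot ζ p → ∀ J : F ≃ₐ[ℚ] F, J ζ = ζ⁻¹ →
  ∀ P : HeightOneSpectrum (𝓞 F), ((p : ℕ) : 𝓞 F) ∈ P.asIdeal → ∀ x : F, J x = x → ∀ m : ℕ, 2 ≤ m →
  P.valuation F (x ^ p + 1) = WithZero.exp (-((m * p : ℕ) : ℤ)) →
  P.valuation F (x + 1) = WithZero.exp (-(((m - 1) * p + 1 : ℕ) : ℤ)) ∧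
  ∀ i : ℕ, ¬ p ∣ i → P.valuation F (x + ζ ^ i) = WithZero.exp (-1) ∧
    P.valuation F (1 - ζ ^ i) = WithZero.exp (-1)

/-- VQ. Proof. `x ^ p + 1` is the product of the `x + ζ ^ i`, `i < p`. If `v x ≤ 1` all factors are
integral at `v`, and two different ones are not both in the maximal ideal, as the differences
`ζ ^ i - ζ ^ j` are units at `v`; so at most one factor has valuation different from `1`. -/
def S_VQ : Prop := ∀ (p : ℕ) [Fact p.Prime], 5 ≤ p → ∀ (F : Type) [Field F] [NumberField F]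
  [IsCyclotomicExtension {p} ℚ F] (ζ : F), IsPrimitiveRoot ζ p →
  ∀ v : HeightOneSpectrum (𝓞 F), ((p : ℕ) : 𝓞 F) ∉ v.asIdeal → ∀ x : F,
  (∃ m : ℤ, v.valuation F (x ^ p + 1) = WithZero.exp ((p : ℤ) * m)) → ∀ i : ℕ,
  (v.valuation F x ≤ 1 → ∃ n : ℤ, v.valuation F (x + ζ ^ i) = WithZero.exp ((p : ℤ) * n)) ∧
  (1 < v.valuation F x → v.valuation F (x + ζ ^ i) = v.valuation F x)

/-- PTH. Proof. The (fractional) ideal of `r` is a `p`-th power of an ideal whose class is trivial, so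
`r = u g ^ p` with a unit `u`, and `g` is a unit at `P`, the prime above `p`. `g ^ p` is congruent to an
integer `n` modulo `p` (locally at `P`) and `r ≡ 1` modulo `p`, as `p - 1 ≤ p`, so `u n ≡ 1` and `u` is
congruent to an integer modulo `p`; by Kummer's lemma (`kummer_lemma` in
`Pool/Agent/Y158/KL/Hil7.lean`) `u = η ^ p`. So `r = y ^ p`, `y = η g`. `(J y) ^ p = J r = r`, so
`J y = ζ ^ k y`; replace `y` by `ζ ^ l y` with `2 l ≡ k` modulo `p`. -/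
def S_PTH : Prop := ∀ (p : ℕ) [Fact p.Prime], 5 ≤ p → ∀ (F : Type) [Field F] [NumberField F]
  [IsCyclotomicExtension {p} ℚ F] (ζ : F), IsPrimitiveRoot ζ p → ∀ J : F ≃ₐ[ℚ] F, J ζ = ζ⁻¹ →
  (classNumber F).Coprime p → ∀ r : F, r ≠ 0 → EvL p r → J r = r →
  (∀ P : HeightOneSpectrum (𝓞 F), ((p : ℕ) : 𝓞 F) ∈ P.asIdeal →
    P.valuation F (r - 1) ≤ WithZero.exp (-(p : ℤ))) →
  ∃ y : F, y ^ p = r ∧ J y = y

/-- HUP (heights). Proof. `H (a b) ≤ H a H b`, `H a⁻¹ = H a`, `H (a + b) ≤ 2 ^ d H a H b` (Mathlib,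
`Mathlib/NumberTheory/Height`). So `H (r) ≤ C H (x) ^ 4`, and `H (y ^ p) = H (y) ^ p`. -/
def S_HUP : Prop := ∀ (F : Type) [Field F] [NumberField F] (κ z1 z2 z3 z4 : F), ∃ C : ℝ, 1 ≤ C ∧
  ∀ (x y : F) (p : ℕ), y ^ p = κ * ((x + z1) * (x + z2)) / ((x + z3) * (x + z4)) →
  Height.mulHeight₁ y ^ p ≤ C * Height.mulHeight₁ x ^ 4

/-- INIT. Proof. `x = a / b`, `x ^ p + 1 = 3 ^ e d ^ p / b ^ p`. `3 ∣ a ^ p + b ^ p` and `a, b` are
coprime, so `3 ∤ a b`; `p ∤ b` likewise. At a prime `P` above `p` the valuation of `p` is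
`exp (-(p-1))` (`p` is a unit times `(ζ - 1) ^ (p-1)`, and `ζ - 1` generates `P`), `p - 1 ≥ 4`; so
`m = (p - 1) v_p (d)`. -/
def S_INIT : Prop := ∀ (p : ℕ) [Fact p.Prime], 5 ≤ p → ∀ (F : Type) [Field F] [NumberField F]
  [IsCyclotomicExtension {p} ℚ F] (ζ : F), IsPrimitiveRoot ζ p →
  ∀ (a b d : ℤ) (e : ℕ), 1 ≤ e → a ≠ 0 → b ≠ 0 → d ≠ 0 → IsCoprime a b →
  a ^ p + b ^ p = 3 ^ e * d ^ p → (p : ℤ) ∣ d →
  (∀ v : HeightOneSpectrum (𝓞 F), ((p : ℕ) : 𝓞 F) ∉ v.asIdeal → (3 : 𝓞 F) ∉ v.asIdeal →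
    ∃ m : ℤ, v.valuation F (((a : F) / b) ^ p + 1) = WithZero.exp ((p : ℤ) * m)) ∧
  (∀ v : HeightOneSpectrum (𝓞 F), (3 : 𝓞 F) ∈ v.asIdeal → v.valuation F ((a : F) / b) = 1) ∧
  (∃ m : ℕ, 4 ≤ m ∧ ∀ P : HeightOneSpectrum (𝓞 F), ((p : ℕ) : 𝓞 F) ∈ P.asIdeal →
    P.valuation F (((a : F) / b) ^ p + 1) = WithZero.exp (-((m * p : ℕ) : ℤ)))

/-- CJ: complex conjugation. -/
def S_CJ : Prop := ∀ (p : ℕ) [Fact p.Prime] (F : Type) [Field F] [NumberField F]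
  [IsCyclotomicExtension {p} ℚ F] (ζ : F), IsPrimitiveRoot ζ p →
  ∃ J : F ≃ₐ[ℚ] F, J ζ = ζ⁻¹ ∧ ∀ x, J (J x) = x

end Pool.Agent.H47C
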