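import Pool.Agent.H47C.Asm3

/-!
# Project CUB, part 2: ALL regular primes, no Wieferich condition

The case `3 ∣ b` of (RED3) gives more: `a = α ^ p`, `b = 3 ^ m β ^ p`, `p = 2 m + 1`, `a - b = d ^ p` and
`a ^ 2 + a b + b ^ 2 = h ^ p`. Hence
(i) `α ^ p - d ^ p = 3 ^ m β ^ p`, (ii) `h ^ p - (d ^ 2) ^ p = 3 a b = 3 ^ (m + 1) (α β) ^ p`.
(The case `3 ∣ a` gives `h ^ p = (d ^ 2) ^ p + (3 ..) ^ p`, the Fermat equation.) If `p ∣ β` or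
`p ∣ α` then (i) or (ii) is the start of the descent. If `p ∤ α β d` then (KCONG) for (i) and (ii) gives
`α ≡ -d`, `h ≡ -d ^ 2`, so `b ≡ 2 a`, `7 a ^ 2 ≡ h ≡ -a ^ 2` modulo `p`, a contradiction (`p = 7`: modulo
`49`). If `p ∣ d`: in `ℤ[ω]` the number `b + (a + b) ω` is a `p`-th power `γ ^ p` (EIS),
`- d ^ p = b - a = γ ^ p + γ' ^ p = τ ∏ (τ ^ 2 - λ_i h)` with `τ = γ + γ'`, `h = γ γ'` (PF), and
`r = (τ ^ 2 - λ_1 h) λ_2 / ((τ ^ 2 - λ_2 h) λ_1)`, `1 - r = τ ^ 2 (λ_1 - λ_2) / ...`, gives the start of the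
descent (CASEC).
-/

set_option autoImplicit false

namespace Pool.Agent.H47C

open NumberField IsDedekindDomain Pool.Agent.H47T

/-- RED4 (elementary), see above; as `RED3.lean`. -/
def S_RED4 : Prop := ∀ p : ℕ, p.Prime → 5 ≤ p → ∀ c t : ℚ, t ≠ 0 → c ^ 3 - 3 * c * t ^ p = 1 →
  (∃ a b d : ℤ, a ≠ 0 ∧ b ≠ 0 ∧ d ≠ 0 ∧ a ^ p + b ^ p = d ^ p) ∨
  (∃ (α β d h : ℤ) (m : ℕ), p = 2 * m + 1 ∧ α ≠ 0 ∧ β ≠ 0 ∧ d ≠ 0 ∧ h ≠ 0 ∧ IsCoprime α d ∧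
    IsCoprime h d ∧ ¬ (3 : ℤ) ∣ d ∧ ¬ (3 : ℤ) ∣ h ∧ α ^ p - d ^ p = 3 ^ m * β ^ p ∧
    h ^ p - (d ^ 2) ^ p = 3 ^ (m + 1) * (α * β) ^ p)

/-- EIS (the Eisenstein integers). Proof. `ℤ[ω] = 𝓞 K`, `K = CyclotomicField 3 ℚ`, is a principal ideal
ring (`IsCyclotomicExtension.Rat.three_pid`), its units are `± ω ^ i`
(`IsCyclotomicExtension.Rat.Three.Units.mem`), all of them `p`-th powers of units, as
`p ≡ ± 1` modulo `6`. `(a - b ω) (a - b ω ^ 2) = h ^ p`, the factors are coprime: `a`, `b` are coprime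
and `3 ∤ h`. So `a - b ω = γ ^ p` (`exists_associated_pow_of_mul_eq_pow`), and
`b + (a + b) ω = ω (a - b ω)` is a `p`-th power `(s + t ω) ^ p` also (`ω` is a `p`-th power). The
polynomial `(s + t X) ^ p - (b + (a + b) X)` vanishes at `ω`, so it is divisible by `X ^ 2 + X + 1` in
`ℤ[X]` (the minimal polynomial, cyclotomic), which gives the last statement; and
`(s ^ 2 - s t + t ^ 2) ^ p = h ^ p` (the norm), `p` odd. -/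
def S_EIS : Prop := ∀ p : ℕ, p.Prime → 5 ≤ p → ∀ a b h : ℤ, IsCoprime a b → ¬ (3 : ℤ) ∣ h →
  a ^ 2 + a * b + b ^ 2 = h ^ p → ∃ s t : ℤ, s ^ 2 - s * t + t ^ 2 = h ∧
  ∀ (M : Type) [Field M] (w : M), w ^ 2 + w + 1 = 0 →
    ((s : M) + t * w) ^ p = (b : M) + (a + b) * w

/-- PF (product formula). Proof. Let `M` be the algebraic closure of `F` and `w ^ 2 + w + 1 = 0` in `M`,
`γ = s + t w`, `γ' = s + t w ^ 2`, `γ + γ' = 2 s - t`, `γ γ' = s ^ 2 - s t + t ^ 2`.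
`γ ^ p + γ' ^ p = ∏_{i < p} (γ + ζ ^ i γ')` (`IsPrimitiveRoot.pow_add_pow_eq_prod_add_mul`), the
factor `i = 0` is `γ + γ'`; multiply the product by the same product with `p - i` in place of `i`:
`(γ + ζ ^ i γ') (γ + ζ ^ (p - i) γ') = (γ + γ') ^ 2 - (1 - ζ ^ i) (1 - ζ ^ (p - i)) γ γ'`. -/
def S_PF : Prop := ∀ (p : ℕ) [Fact p.Prime], 5 ≤ p → ∀ (F : Type) [Field F] [NumberField F] (ζ : F),
  IsPrimitiveRoot ζ p → ∀ s t D : ℤ,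
  (∀ (M : Type) [Field M] (w : M), w ^ 2 + w + 1 = 0 →
    ((s : M) + t * w) ^ p + ((s : M) + t * w ^ 2) ^ p = D) →
  (D : F) ^ 2 = ((2 * s - t : ℤ) : F) ^ 2 * ∏ i ∈ Finset.range (p - 1),
    (((2 * s - t : ℤ) : F) ^ 2 - (1 - ζ ^ (i + 1)) * (1 - ζ ^ (p - (i + 1))) *
      ((s ^ 2 - s * t + t ^ 2 : ℤ) : F))

/-- CASEC. Proof. Let `λ_i = (1 - ζ ^ i) (1 - ζ ^ (p - i))`, `f_i = τ ^ 2 - λ_i h`, `1 ≤ i < p`,
`f_i = f_(p - i)`, `d ^ (2 p) = τ ^ 2 ∏ f_i`. Outside `p` the `λ_i` are units, and so are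
`λ_i - λ_k = ζ ^ (p - k) (1 - ζ ^ (k + i)) (1 - ζ ^ (k - i))`, `k ≠ ± i`. If `v ∤ p` contains
`f_i` then `v ∌ τ` (else `v ∋ h`), `v ∌ f_k`, `k ≠ ± i`, so `2 p v (d) = 2 v (f_i)`. If `v ∋ τ` then no `f_i`
is in `v`, and `2 p v (d) = 2 v (τ)`. At the prime `P` above `p`: `p ∣ τ` (else no factor is in `P`),
`p ∤ h`, `v (τ ^ 2) ≥ 2 (p - 1) > 2 = v (f_i)`, so `2 p v (d) = 2 v (τ) + 2 (p - 1)`, `v (d) = (p - 1) k`,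
`v (τ) = p (p - 1) k - (p - 1)`. Put `r = f_1 λ_2 / (f_2 λ_1)`; all its valuations are divisible by
`p`, `1 - r = τ ^ 2 (λ_1 - λ_2) / (f_2 λ_1)`, of valuation `m p` at `P`,
`m = 2 ((p - 1) k - 1) ≥ 2 (p - 2)`. By (PTH) `r = y ^ p`, `J y = y`; `x = -y`, `x ^ p + 1 = 1 - r`. The
primes above `3` do not contain `d`, so `v (r) = 1` there. -/
def S_CASEC : Prop := ∀ (p : ℕ) [Fact p.Prime], 5 ≤ p → ∀ (F : Type) [Field F] [NumberField F]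
  [IsCyclotomicExtension {p} ℚ F] (ζ : F), IsPrimitiveRoot ζ p → ∀ J : F ≃ₐ[ℚ] F, J ζ = ζ⁻¹ →
  (classNumber F).Coprime p → ∀ τ h d : ℤ, d ≠ 0 → IsCoprime τ h → ¬ (3 : ℤ) ∣ d → (p : ℤ) ∣ d →
  (d : F) ^ (2 * p) = (τ : F) ^ 2 * ∏ i ∈ Finset.range (p - 1),
    ((τ : F) ^ 2 - (1 - ζ ^ (i + 1)) * (1 - ζ ^ (p - (i + 1))) * (h : F)) →
  ∃ (m : ℕ) (x : F), 4 ≤ m ∧ State p J m x

end Pool.Agent.H47C
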