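import Pool.Agent.H95C.Base

/-!
# Project CUB, piece VQ
-/

set_option autoImplicit false
set_option linter.unusedSectionVars false

namespace Pool.Agent.H47C

open NumberField IsDedekindDomain WithZero Polynomial Pool.Agent.Y158.KL Pool.Agent.H95C

theorem mainVQ : S_VQ := by
  classical
  intro p _ hp5 F _ _ _ ζ hζ v hv x hx i
  have hp : p.Prime := Fact.out
  have hodd : Odd p := hp.odd_of_ne_two (by omega)
  have hi : (ζ ^ i) ^ p = 1 := by rw [← pow_mul, mul_comm, pow_mul, hζ.pow_eq_one, one_pow]
  have hvi := val_root v hi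
  constructor
  · intro hx1
    have hle : ∀ z ∈ nthRootsFinset p (1 : F), v.valuation F (x + z) ≤ 1 := by
      intro z hz
      rw [mem_nthRootsFinset hp.pos] at hz
      exact Valuation.map_add_le _ hx1 (val_root v hz).le
    rcases (hle (ζ ^ i) ((mem_nthRootsFinset hp.pos _).2 hi)).lt_or_eq with h1 | h1
    · obtain ⟨m, hm⟩ := hx
      refine ⟨m, ?_⟩
      rw [← hm, fac hζ hodd, map_prod,
        ← Finset.mul_prod_erase _ _ ((mem_nthRootsFinset hp.pos _).2 hi)]
      rw [Finset.prod_eq_one, mul_one]
      intro z hz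
      rw [Finset.mem_erase, mem_nthRootsFinset hp.pos] at hz
      have h2 := (hle z ((mem_nthRootsFinset hp.pos _).2 hz.2)).lt_or_eq
      rcases h2 with h2 | h2
      · exfalso
        have h3 := val_diff hζ v hz.2 hi hz.1
        rw [pi_unit hζ hv] at h3
        have e : z - ζ ^ i = (x + z) - (x + ζ ^ i) := by ring
        rw [e] at h3
        have h4 : v.valuation F ((x + z) - (x + ζ ^ i)) < 1 :=
          Valuation.map_sub_lt _ h2 h1
        rw [h3] at h4
        exact lt_irrefl _ h4
      · exact h2
    · exact ⟨0, by rw [h1, mul_zero, exp_zero]⟩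
  · intro hx1
    apply Valuation.map_add_eq_of_lt_left
    rw [hvi]
    exact hx1

end Pool.Agent.H47C
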