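import Pool.Agent.H47C.FinG
import Pool.Agent.H47C.RED1
import Pool.Agent.H47C.ROOT
import Pool.Agent.H47C.FLTR
import Pool.Agent.H47C.KCONG
import Pool.Agent.H47C.VALQ
import Pool.Agent.H47C.LAM
import Pool.Agent.H47C.VQ
import Pool.Agent.H47C.PTH
import Pool.Agent.H47C.HUP
import Pool.Agent.H47C.INIT
import Pool.Agent.H47C.CJ

/-!
# Project CUB: the theorem

Fermat's Last Theorem for the exponents `n` divisible by `3 p`, `p ≥ 5` regular with
`3 ^ (p - 1) ≢ 1` modulo `p ^ 2`, over all quadratic fields.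
-/

set_option autoImplicit false

namespace Pool.Agent.H47C

open NumberField

theorem cub (p : ℕ) (hp : p.Prime) (h5 : 5 ≤ p)
    (hcl : (classNumber (CyclotomicField p ℚ)).Coprime p) (h3 : ¬ p ^ 2 ∣ 3 ^ (p - 1) - 1)
    (K : Type) [Field K] [NumberField K] (hK : Module.finrank ℚ K = 2) (n : ℕ) (hn : 3 * p ∣ n)
    (x y z : K) (hx : x ≠ 0) (hy : y ≠ 0) (hz : z ≠ 0) : x ^ n + y ^ n ≠ z ^ n := by
  haveI : Fact p.Prime := ⟨hp⟩
  obtain ⟨k, rfl⟩ := hn
  intro h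
  refine mainG mainRED1 mainROOT hK hp h5 (mainFLTR p h5 hcl) ?_ (x := x ^ k) (y := y ^ k)
    (z := z ^ k) (pow_ne_zero _ hx) (pow_ne_zero _ hy) (pow_ne_zero _ hz) ?_
  · intro A B D f m hm hA hB hD hf h1 h2 e1 e2
    exact noG mainLAM mainVQ mainPTH mainHUP mainINIT mainVALQ mainKCONG mainCJ h5 hcl h3 hm hA hB
      hD hf h1 h2 e1 e2
  · rw [← pow_mul, ← pow_mul, ← pow_mul, mul_comm k]
    exact h

end Pool.Agent.H47C
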